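import Pool.Agent.Lib.MP_009d13_co.OD.Defs2

/-!
# Campaign SP (MP_009d13_co, small `l`): definitions

* `ST l`: the functional inequality with stability (what the certificates give);
* `NE l`: the upper bound for graphs near a ring;
* sums over tuples of pairs of hubs, and the functional in this form.
-/

set_option autoImplicit false

namespace Pool.Agent.Lib.MP_009d13_co.SP

open Finset Classical
open Pool.Agent.Lib.MP_009d13_co.OD
open Pool.Agent.Lib.MP_009d13_co.P5 (nb kk)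

noncomputable section

/-- The limit inequality with a penalty for the distance from a balanced ring. -/
def ST (l : ℕ) : Prop := ∀ δ : ℝ, 0 < δ → ∃ lam : ℝ, 0 < lam ∧ lam ≤ 1 ∧
    ∀ (V : Type) [Fintype V] (μ e : V → V → ℝ), Wt μ → Sp e → ms μ ∅ = l →
      Fo μ e l + lam * max 0 (ze l μ - δ) ≤ 16 * l * (l + 1)

/-- The upper bound for graphs near a ring. -/
def NE (l : ℕ) : Prop := ∃ δ K : ℝ, 0 < δ ∧ ∀ (V : Type) [Fintype V]
    (G : SimpleGraph V) (h : Fin l ↪ V), P5.Sparse6 G → P5.NoK33m G →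
    (∀ j, (1 - δ) * ((Fintype.card V : ℝ) / l)
      ≤ ((nb G (h j) ∩ nb G (h (finRotate l j))).card : ℝ)) →
    Tk G (2 * l + 2) ≤ 16 * l * (l + 1) * ((Fintype.card V : ℝ) / l) ^ (l + 1)
      + K * (Fintype.card V : ℝ) ^ l

variable {V : Type} [Fintype V]

/-- Different hubs are adjacent. -/
def e1 (a b : V) : ℝ := if a = b then 0 else 1

/-- Product of the weights of a tuple of pairs. -/
def pt (μ : V → V → ℝ) {N : ℕ} (φ : Fin N → V × V) : ℝ := ∏ i, μ (φ i).1 (φ i).2

/-- Weighted sum over all tuples of `N` pairs. -/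
def TS (N : ℕ) (f : (Fin N → V × V) → ℝ) (μ : V → V → ℝ) : ℝ :=
  ∑ φ : Fin N → V × V, f φ * pt μ φ

/-- The hubs of a tuple of pairs. -/
def vs {N : ℕ} (φ : Fin N → V × V) : Finset V :=
  univ.image (fun i => (φ i).1) ∪ univ.image (fun i => (φ i).2)

/-- Indicator of the paths with `l` hubs `(φ 0).2, (φ 1).2, ..., (φ (l - 1)).2`. -/
def fW (l : ℕ) (φ : Fin (l + 1) → V × V) : ℝ :=
  if (∀ i : Fin l, (φ i.castSucc).2 = (φ i.succ).1) ∧
    Function.Injective (fun i : Fin l => (φ i.castSucc).2) then 1 else 0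

/-- Indicator of the paths with `l + 1` hubs `(φ 0).1, ..., (φ l).1`. -/
def fA (l : ℕ) (φ : Fin (l + 1) → V × V) : ℝ :=
  if (∀ i : Fin l, (φ i.castSucc).2 = (φ i.succ).1) ∧
    Function.Injective (fun i : Fin (l + 1) => (φ i).1) then 1 else 0

/-- Indicator of the pairs of disjoint paths `(φ 0).2, ..., (φ i).2` and `(φ (i + 1)).1, ..., (φ l).1`. -/
def fC (l : ℕ) (i : Fin l) (φ : Fin (l + 1) → V × V) : ℝ :=
  if (∀ j : Fin l, j ≠ i → (φ j.castSucc).2 = (φ j.succ).1) ∧
    Function.Injective (fun j : Fin (l + 1) => if j.val ≤ i.val then (φ j).2 else (φ j).1)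
  then 1 else 0

/-- The functional as a function of tuples. -/
def fF (l : ℕ) (φ : Fin (l + 1) → V × V) : ℝ :=
  2 * (l + 1) * fW l φ + 2 * fA l φ + ∑ i : Fin l, fC l i φ

/-- Sum over the tuples with at least `l + 1` hubs. -/
def BAD (l : ℕ) (μ : V → V → ℝ) : ℝ :=
  TS (l + 1) (fun φ => if l + 1 ≤ (vs φ).card then 1 else 0) μ

/-- What a certificate has to give: for every finite `V` and every weight,
`⟨fF⟩ + c * BAD ≤ 16 l (l + 1) (S / l) ^ (l + 1)`, where `2 S` is the sum of all `μ a b`. -/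
def Cert (l : ℕ) : Prop := ∃ c : ℝ, 0 < c ∧ ∀ (V : Type) [Fintype V] (μ : V → V → ℝ), Wt μ →
    TS (l + 1) (fF l) μ + c * BAD l μ ≤ 16 * l * (l + 1) * (ms μ ∅ / l) ^ (l + 1)

end

end Pool.Agent.Lib.MP_009d13_co.SP
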