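import Pool.Agent.Lib.MP_009d13_co.SP.Defs

/-!
# SP.BND (45 min): sums over tuples, monotonicity

`ts_mono_f`: termwise, `pt μ φ ≥ 0`. `ts_lip`: termwise `f φ (pt μ φ - pt μ0 φ) ≤ K (pt μ φ - pt μ0 φ)`
since `0 ≤ pt μ0 φ ≤ pt μ φ` (`Finset.prod_le_prod`), and `ts_one`. `ts_one`: `Finset.prod_univ_sum`
(`∑ φ : Fin N → V × V, ∏ i, F (φ i) = (∑ p, F p) ^ N`, e.g. `Fintype.sum_pow` or
`Finset.sum_prod_piFinset`), `Fintype.sum_prod_type`.
`fF_nonneg`, `fF_le`: indicators. `ac_le_bad`: if `fA l φ = 1` then `i ↦ (φ i).1` is injective on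
`Fin (l+1)`, so `vs φ` has at least `l + 1` elements; the same for `fC`.
-/

set_option autoImplicit false

namespace Pool.Agent.Lib.MP_009d13_co.SP

open Finset Classical
open Pool.Agent.Lib.MP_009d13_co.OD

noncomputable section

variable {V : Type} [Fintype V]

theorem pt_nonneg {μ : V → V → ℝ} (h : Wt μ) {N : ℕ} (φ : Fin N → V × V) : 0 ≤ pt μ φ :=
  Finset.prod_nonneg fun i _ => h.nonneg _ _

theorem ts_mono_f {μ : V → V → ℝ} (h : Wt μ) {N : ℕ} {f g : (Fin N → V × V) → ℝ}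
    (hfg : ∀ φ, f φ ≤ g φ) : TS N f μ ≤ TS N g μ :=
  Finset.sum_le_sum fun φ _ => mul_le_mul_of_nonneg_right (hfg φ) (pt_nonneg h φ)

theorem ts_one (μ : V → V → ℝ) (N : ℕ) : TS N (fun _ => 1) μ = (2 * ms μ ∅) ^ N := by
  have h1 : 2 * ms μ ∅ = ∑ p : V × V, μ p.1 p.2 := by
    unfold ms
    rw [Finset.compl_empty, Fintype.sum_prod_type]
    ring
  rw [h1, Fintype.sum_pow]
  unfold TS pt
  simp only [one_mul]

theorem ts_lip {μ μ0 : V → V → ℝ} (h : Wt μ) (h0 : Wt μ0) (hle : ∀ a b, μ0 a b ≤ μ a b) {N : ℕ}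
    {f : (Fin N → V × V) → ℝ} {K : ℝ} (hf0 : ∀ φ, 0 ≤ f φ) (hf : ∀ φ, f φ ≤ K) :
    TS N f μ - TS N f μ0 ≤ K * ((2 * ms μ ∅) ^ N - (2 * ms μ0 ∅) ^ N) := by
  rw [← ts_one, ← ts_one]
  unfold TS
  rw [← Finset.sum_sub_distrib, ← Finset.sum_sub_distrib, Finset.mul_sum]
  apply Finset.sum_le_sum
  intro φ _
  have h1 : pt μ0 φ ≤ pt μ φ := by
    unfold pt
    exact Finset.prod_le_prod (fun i _ => h0.nonneg _ _) (fun i _ => hle _ _)
  have h2 : f φ * (pt μ φ - pt μ0 φ) ≤ K * (pt μ φ - pt μ0 φ) :=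
    mul_le_mul_of_nonneg_right (hf φ) (by linarith)
  linarith

private theorem bnd_fW (l : ℕ) (φ : Fin (l + 1) → V × V) : 0 ≤ fW l φ ∧ fW l φ ≤ 1 := by
  unfold fW
  split_ifs <;> norm_num

private theorem bnd_fA (l : ℕ) (φ : Fin (l + 1) → V × V) : 0 ≤ fA l φ ∧ fA l φ ≤ 1 := by
  unfold fA
  split_ifs <;> norm_num

private theorem bnd_fC (l : ℕ) (i : Fin l) (φ : Fin (l + 1) → V × V) :
    0 ≤ fC l i φ ∧ fC l i φ ≤ 1 := by
  unfold fC
  split_ifs <;> norm_num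

private theorem bnd_fCs (l : ℕ) (φ : Fin (l + 1) → V × V) :
    0 ≤ ∑ i : Fin l, fC l i φ ∧ ∑ i : Fin l, fC l i φ ≤ l := by
  constructor
  · exact Finset.sum_nonneg fun i _ => (bnd_fC l i φ).1
  · calc ∑ i : Fin l, fC l i φ ≤ ∑ _i : Fin l, (1 : ℝ) :=
        Finset.sum_le_sum fun i _ => (bnd_fC l i φ).2
      _ = l := by simp

theorem fF_nonneg (l : ℕ) (φ : Fin (l + 1) → V × V) : 0 ≤ fF l φ := by
  unfold fF
  have h1 := (bnd_fW l φ).1
  have h2 := (bnd_fA l φ).1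
  have h3 := (bnd_fCs l φ).1
  positivity

theorem fF_le (l : ℕ) (φ : Fin (l + 1) → V × V) : fF l φ ≤ 3 * l + 4 := by
  unfold fF
  have h1 := (bnd_fW l φ).2
  have h2 := (bnd_fA l φ).2
  have h3 := (bnd_fCs l φ).2
  have h4 : 2 * ((l : ℝ) + 1) * fW l φ ≤ 2 * ((l : ℝ) + 1) * 1 :=
    mul_le_mul_of_nonneg_left h1 (by positivity)
  linarith

private theorem bnd_card (l : ℕ) (φ : Fin (l + 1) → V × V) (g : Fin (l + 1) → V)
    (hg : Function.Injective g) (h : ∀ j, g j ∈ vs φ) : l + 1 ≤ (vs φ).card := by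
  calc l + 1 = (Finset.univ.image g).card := by
        rw [Finset.card_image_of_injective _ hg, Finset.card_univ, Fintype.card_fin]
    _ ≤ (vs φ).card := by
        apply Finset.card_le_card
        intro x hx
        obtain ⟨j, -, rfl⟩ := Finset.mem_image.1 hx
        exact h j

private theorem bnd_mem1 {l : ℕ} (φ : Fin (l + 1) → V × V) (j : Fin (l + 1)) : (φ j).1 ∈ vs φ := by
  unfold vs
  exact Finset.mem_union_left _ (Finset.mem_image_of_mem (fun i => (φ i).1) (Finset.mem_univ j))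

private theorem bnd_mem2 {l : ℕ} (φ : Fin (l + 1) → V × V) (j : Fin (l + 1)) : (φ j).2 ∈ vs φ := by
  unfold vs
  exact Finset.mem_union_right _ (Finset.mem_image_of_mem (fun i => (φ i).2) (Finset.mem_univ j))

theorem ac_le_bad (l : ℕ) (φ : Fin (l + 1) → V × V) :
    2 * fA l φ + ∑ i : Fin l, fC l i φ ≤ (l + 2) * (if l + 1 ≤ (vs φ).card then 1 else 0) := by
  by_cases hc : l + 1 ≤ (vs φ).card
  · rw [if_pos hc]
    have h2 := (bnd_fA l φ).2
    have h3 := (bnd_fCs l φ).2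
    linarith
  · rw [if_neg hc]
    have h2 : fA l φ = 0 := by
      unfold fA
      rw [if_neg]
      rintro ⟨-, hi⟩
      exact hc (bnd_card l φ _ hi fun j => bnd_mem1 φ j)
    have h3 : ∑ i : Fin l, fC l i φ = 0 := by
      apply Finset.sum_eq_zero
      intro i _
      unfold fC
      rw [if_neg]
      rintro ⟨-, hi⟩
      refine hc (bnd_card l φ _ hi fun j => ?_)
      show (if j.val ≤ i.val then (φ j).2 else (φ j).1) ∈ vs φ
      split_ifs
      · exact bnd_mem2 φ j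
      · exact bnd_mem1 φ j
    rw [h2, h3]
    simp

end

end Pool.Agent.Lib.MP_009d13_co.SP
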