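import Pool.Agent.Lib.MP_009d13_co.SP.NLF

/-!
# SP.TSA (50 min): the paths with `l + 1` hubs as a sum over tuples

The tuples with `fA l φ = 1` are exactly `φ i = (g i, g (i+1))` (`i < l`), `φ l = (g l, w)` with
`g : Fin (l+1) → V` injective, `w` arbitrary: `φ ↦ (fun i => (φ i).1, (φ (last l)).2)`, inverse
`(g, w) ↦ fun i => (g i, Fin.snoc (fun j : Fin l => g j.succ) w i)`. Then `sum_NL_fun`, `pw_ofFn`,
`ls_ofFn`; `∑ w, μ (g l) w = dg μ (g l)`.
-/

set_option autoImplicit false

namespace Pool.Agent.Lib.MP_009d13_co.SP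

open Finset Classical
open Pool.Agent.Lib.MP_009d13_co.OD

noncomputable section

variable {V : Type} [Fintype V]

/-- The second components of the tuple of a path and a last vertex. -/
private def tsa_nx {l : ℕ} (g : Fin (l + 1) → V) (w : V) (i : Fin (l + 1)) : V :=
  Fin.lastCases (motive := fun _ => V) w (fun j : Fin l => g j.succ) i

omit [Fintype V] in
private theorem tsa_nx_last {l : ℕ} (g : Fin (l + 1) → V) (w : V) :
    tsa_nx g w (Fin.last l) = w := by
  unfold tsa_nx
  rw [Fin.lastCases_last]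

omit [Fintype V] in
private theorem tsa_nx_castSucc {l : ℕ} (g : Fin (l + 1) → V) (w : V) (j : Fin l) :
    tsa_nx g w j.castSucc = g j.succ := by
  unfold tsa_nx
  rw [Fin.lastCases_castSucc]

theorem ts_A (μ : V → V → ℝ) (l : ℕ) : TS (l + 1) (fA l) μ = Ao μ (dg μ) l := by
  unfold TS Ao
  rw [sum_NL_fun]
  have h1 : ∀ g : Fin (l + 1) → V, (if Function.Injective g then
      pw μ (List.ofFn g) * ls (dg μ) (List.ofFn g) else 0) =
      ∑ w : V, if Function.Injective g then
        (∏ i : Fin l, μ (g i.castSucc) (g i.succ)) * μ (g (Fin.last l)) w else 0 := by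
    intro g
    rw [pw_ofFn, ls_ofFn]
    by_cases hg : Function.Injective g
    · simp only [if_pos hg]
      rw [← Finset.mul_sum]
      rfl
    · simp only [if_neg hg, Finset.sum_const_zero]
  rw [Finset.sum_congr rfl fun g _ => h1 g, ← Fintype.sum_prod_type',
    ← Finset.sum_filter]
  have h2 : ∀ φ : Fin (l + 1) → V × V, fA l φ * pt μ φ =
      if (∀ i : Fin l, (φ i.castSucc).2 = (φ i.succ).1) ∧
        Function.Injective (fun i : Fin (l + 1) => (φ i).1) then pt μ φ else 0 := by
    intro φ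
    unfold fA
    split_ifs <;> simp
  rw [Finset.sum_congr rfl fun φ _ => h2 φ, ← Finset.sum_filter]
  refine Finset.sum_bij' (fun φ _ => (fun i => (φ i).1, (φ (Fin.last l)).2))
    (fun p _ => fun i => (p.1 i, tsa_nx p.1 p.2 i)) ?_ ?_ ?_ ?_ ?_
  · intro φ hφ
    rw [Finset.mem_filter] at hφ ⊢
    exact ⟨Finset.mem_univ _, hφ.2.2⟩
  · intro p hp
    rw [Finset.mem_filter] at hp ⊢
    refine ⟨Finset.mem_univ _, fun i => ?_, hp.2⟩
    exact tsa_nx_castSucc _ _ _
  · intro φ hφ
    rw [Finset.mem_filter] at hφ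
    funext i
    refine Fin.lastCases ?_ (fun j => ?_) i
    · exact Prod.ext rfl (tsa_nx_last _ _)
    · exact Prod.ext rfl ((tsa_nx_castSucc _ _ _).trans (hφ.2.1 j).symm)
  · intro p _
    exact Prod.ext rfl (tsa_nx_last _ _)
  · intro φ hφ
    rw [Finset.mem_filter] at hφ
    unfold pt
    rw [Fin.prod_univ_castSucc]
    congr 1
    apply Finset.prod_congr rfl
    intro j _
    rw [hφ.2.1 j]

end

end Pool.Agent.Lib.MP_009d13_co.SP
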