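import Pool.Agent.Lib.MP_009d13_co.OD.LS1
import Pool.Agent.Lib.MP_009d13_co.OD.LS4
import Pool.Agent.Lib.MP_009d13_co.SP.Defs

/-!
# SP.NLF (40 min): lists without repetition as injective functions

`sum_NL_fun`: `NL ∅ k` is the image of the injective functions under `List.ofFn`
(`mem_NL : L ∈ NL A k ↔ L.length = k ∧ L.Nodup ∧ ...`, `List.nodup_ofFn`, `List.ofFn_injective`,
every list of length `k` is `List.ofFn fun i => L.get (i.cast _)`): `Finset.sum_bij` or
`Finset.sum_image` after `Finset.sum_filter`.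
`pw_ofFn`: induction on `k`, `List.ofFn_succ`, `Fin.prod_univ_succ`.
`hd_ofFn`, `ls_ofFn`: the first and the last value.
-/

set_option autoImplicit false

namespace Pool.Agent.Lib.MP_009d13_co.SP

open Finset Classical
open Pool.Agent.Lib.MP_009d13_co.OD

noncomputable section

variable {V : Type} [Fintype V]

theorem sum_NL_fun (k : ℕ) (F : List V → ℝ) : ∑ L ∈ NL (∅ : Finset V) k, F L =
    ∑ g : Fin k → V, if Function.Injective g then F (List.ofFn g) else 0 := by
  rw [← Finset.sum_filter]
  symm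
  apply Finset.sum_bij (fun g _ => List.ofFn g)
  · intro g hg
    rw [Finset.mem_filter] at hg
    rw [mem_NL]
    exact ⟨List.length_ofFn, List.nodup_ofFn.mpr hg.2, fun x _ => Finset.notMem_empty x⟩
  · intro g _ g' _ h
    exact List.ofFn_injective h
  · intro L hL
    obtain ⟨h1, h2, -⟩ := mem_NL.mp hL
    subst h1
    refine ⟨L.get, ?_, List.ofFn_get L⟩
    rw [Finset.mem_filter]
    exact ⟨Finset.mem_univ _, List.nodup_iff_injective_get.mp h2⟩
  · intro g _
    rfl

theorem pw_ofFn (μ : V → V → ℝ) (k : ℕ) (g : Fin (k + 1) → V) :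
    pw μ (List.ofFn g) = ∏ i : Fin k, μ (g i.castSucc) (g i.succ) := by
  induction k with
  | zero => simp [List.ofFn_succ, pw]
  | succ k ih =>
    have h1 : List.ofFn g = g 0 :: g 1 :: List.ofFn (fun i : Fin k => g i.succ.succ) := by
      rw [List.ofFn_succ, List.ofFn_succ]
      rfl
    have h2 : List.ofFn (fun i : Fin (k + 1) => g i.succ) =
        g 1 :: List.ofFn (fun i : Fin k => g i.succ.succ) := by
      rw [List.ofFn_succ]
      rfl
    rw [h1, pw, ← h2, ih, Fin.prod_univ_succ]
    rfl

theorem hd_ofFn (d : V → ℝ) (k : ℕ) (g : Fin (k + 1) → V) : hd d (List.ofFn g) = d (g 0) := by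
  rw [List.ofFn_succ]
  rfl

theorem ls_ofFn (d : V → ℝ) (k : ℕ) (g : Fin (k + 1) → V) :
    ls d (List.ofFn g) = d (g (Fin.last k)) := by
  unfold ls
  rw [List.ofFn_succ', List.concat_eq_append, List.reverse_append]
  rfl

end

end Pool.Agent.Lib.MP_009d13_co.SP
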