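import Pool.Agent.Lib.MP_009d13_co.OD.EI
import Pool.Agent.Lib.MP_009d13_co.SP.NLF

/-!
# SP.TSC: pairs of disjoint paths as a sum over tuples

`EIJ μ e (List.ofFn g)` is the sum over `i` of the products in which the `i`-th link is replaced
(induction, `EIJ_cons`), and `CC` is the sum of `hd χ L * EIJ μ e L * ls ψ L` over `NL ∅ (l + 1)`.
The tuples with `fC l i φ = 1` correspond to the triples `(u, g, w)`, `g` injective, by
`φ j = (g (j - 1), g j)` for `j ≤ i` (`u` for `g (-1)`), `φ j = (g j, g (j + 1))` for `i < j`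
(`w` for `g (l + 1)`).
-/

set_option autoImplicit false

namespace Pool.Agent.Lib.MP_009d13_co.SP

open Finset Classical
open Pool.Agent.Lib.MP_009d13_co.OD

noncomputable section

variable {V : Type} [Fintype V]

theorem TSC_eij (μ κ : V → V → ℝ) (k : ℕ) (g : Fin (k + 1) → V) :
    EIJ μ κ (List.ofFn g) = ∑ i : Fin k, ∏ j : Fin k, if j = i then κ (g i.castSucc) (g i.succ)
      else μ (g j.castSucc) (g j.succ) := by
  induction k with
  | zero =>
    simp [EIJ]
  | succ k ih =>
    have h1 : List.ofFn g = g 0 :: g 1 :: List.ofFn (fun i : Fin k => g i.succ.succ) := by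
      rw [List.ofFn_succ, List.ofFn_succ]
      rfl
    have h2 : g 1 :: List.ofFn (fun i : Fin k => g i.succ.succ)
        = List.ofFn (fun i : Fin (k + 1) => g i.succ) := by
      rw [List.ofFn_succ]
      rfl
    rw [h1, EIJ_cons, h2, ih, pw_ofFn, Fin.sum_univ_succ, mul_sum]
    congr 1
    · rw [Fin.prod_univ_succ, if_pos rfl]
      congr 1
    · refine sum_congr rfl fun i _ => ?_
      rw [Fin.prod_univ_succ, if_neg (Fin.succ_ne_zero i).symm]
      congr 1
      refine prod_congr rfl fun j _ => ?_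
      by_cases hij : j = i
      · rw [if_pos hij, if_pos (by rw [hij])]
        rfl
      · rw [if_neg hij, if_neg (fun he => hij (Fin.succ_injective _ he))]
        rfl

theorem TSC_sum_J (μ κ : V → V → ℝ) (χ ψ : V → ℝ) (l : ℕ) :
    ∑ L ∈ NL (∅ : Finset V) l, hd χ L * EIJ μ κ L * ls ψ L = CC μ χ κ ψ l := by
  have h1 : ∀ L ∈ NL (∅ : Finset V) l, hd χ L * EIJ μ κ L * ls ψ L =
      ∑ i ∈ range (l - 1), hd χ L * (pw μ (L.take (i + 1)) *
        ls (fun u => hd (κ u) (L.drop (i + 1))) (L.take (i + 1)) * pw μ (L.drop (i + 1))) *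
          ls ψ L := by
    intro L hL
    rw [EIJ, EI_len hL, Finset.mul_sum, Finset.sum_mul]
  rw [Finset.sum_congr rfl h1, Finset.sum_comm, CC]
  refine Finset.sum_congr rfl fun i hi => ?_
  rw [mem_range] at hi
  rw [EI_split ∅ hi]
  refine Finset.sum_congr rfl fun P hP => ?_
  rw [Finset.empty_union]
  refine Finset.sum_congr rfl fun Q hQ => ?_
  have hlen := EI_len hP
  have h2 : (P ++ Q).take (i + 1) = P := by
    rw [← hlen]
    exact List.take_left
  have h3 : (P ++ Q).drop (i + 1) = Q := by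
    rw [← hlen]
    exact List.drop_left
  rw [h2, h3, hd_append χ (EI_ne hP (by omega)), ls_append ψ P (EI_ne hQ (by omega))]
  ring

theorem cc_fun (μ : V → V → ℝ) (χ : V → ℝ) (e : V → V → ℝ) (ψ : V → ℝ) (l : ℕ) :
    CC μ χ e ψ (l + 1) = ∑ i : Fin l, ∑ g : Fin (l + 1) → V, if Function.Injective g then
      χ (g 0) * (∏ j : Fin l, if j = i then e (g i.castSucc) (g i.succ)
        else μ (g j.castSucc) (g j.succ)) * ψ (g (Fin.last l)) else 0 := by
  rw [← TSC_sum_J, sum_NL_fun, sum_comm]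
  refine sum_congr rfl fun g _ => ?_
  split_ifs with hg
  · rw [TSC_eij, hd_ofFn, ls_ofFn, mul_sum, sum_mul]
  · simp

/-- The tuple of `(u, g, w)`. -/
def TSC_f {l : ℕ} (i : Fin l) (t : V × (Fin (l + 1) → V) × V) : Fin (l + 1) → V × V := fun j =>
  if j.val ≤ i.val then ((Fin.cons t.1 (fun k : Fin l => t.2.1 k.castSucc) : Fin (l + 1) → V) j,
    t.2.1 j)
  else (t.2.1 j, (Fin.snoc (fun k : Fin l => t.2.1 k.succ) t.2.2 : Fin (l + 1) → V) j)

/-- The triple of a tuple. -/
def TSC_b {l : ℕ} (i : Fin l) (φ : Fin (l + 1) → V × V) : V × (Fin (l + 1) → V) × V :=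
  ((φ 0).1, fun j => if j.val ≤ i.val then (φ j).2 else (φ j).1, (φ (Fin.last l)).2)

theorem TSC_f_le {l : ℕ} (i : Fin l) (t : V × (Fin (l + 1) → V) × V) {j : Fin (l + 1)}
    (hj : j.val ≤ i.val) : TSC_f i t j
      = ((Fin.cons t.1 (fun k : Fin l => t.2.1 k.castSucc) : Fin (l + 1) → V) j, t.2.1 j) :=
  if_pos hj

theorem TSC_f_gt {l : ℕ} (i : Fin l) (t : V × (Fin (l + 1) → V) × V) {j : Fin (l + 1)}
    (hj : ¬ j.val ≤ i.val) : TSC_f i t j
      = (t.2.1 j, (Fin.snoc (fun k : Fin l => t.2.1 k.succ) t.2.2 : Fin (l + 1) → V) j) :=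
  if_neg hj

theorem TSC_g {l : ℕ} (i : Fin l) (t : V × (Fin (l + 1) → V) × V) :
    (fun j : Fin (l + 1) => if j.val ≤ i.val then (TSC_f i t j).2 else (TSC_f i t j).1) = t.2.1 := by
  funext j
  by_cases hj : j.val ≤ i.val
  · rw [if_pos hj, TSC_f_le i t hj]
  · rw [if_neg hj, TSC_f_gt i t hj]

theorem TSC_link {l : ℕ} (i : Fin l) (t : V × (Fin (l + 1) → V) × V) {j : Fin l} (hj : j ≠ i) :
    (TSC_f i t j.castSucc).2 = (TSC_f i t j.succ).1 := by
  have hv : j.val ≠ i.val := fun he => hj (Fin.ext he)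
  by_cases h1 : j.val ≤ i.val
  · have h2 : j.val + 1 ≤ i.val := by omega
    rw [TSC_f_le i t (by simpa using h1), TSC_f_le i t (by simpa using h2)]
    simp only [Fin.cons_succ]
  · rw [TSC_f_gt i t (by simpa using h1), TSC_f_gt i t (j := j.succ) (by
      simp only [Fin.val_succ]
      omega)]
    simp only [Fin.snoc_castSucc]

theorem TSC_bf {l : ℕ} (i : Fin l) (t : V × (Fin (l + 1) → V) × V) : TSC_b i (TSC_f i t) = t := by
  have h0 : (TSC_f i t 0).1 = t.1 := by
    rw [TSC_f_le i t (by simp)]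
    simp only [Fin.cons_zero]
  have h1 : (TSC_f i t (Fin.last l)).2 = t.2.2 := by
    rw [TSC_f_gt i t (by
      simp only [Fin.val_last, not_le]
      exact i.2)]
    simp only [Fin.snoc_last]
  unfold TSC_b
  rw [h0, h1, TSC_g]

theorem TSC_fb {l : ℕ} (i : Fin l) (φ : Fin (l + 1) → V × V)
    (hφ : ∀ j : Fin l, j ≠ i → (φ j.castSucc).2 = (φ j.succ).1) : TSC_f i (TSC_b i φ) = φ := by
  funext j
  by_cases hj : j.val ≤ i.val
  · rw [TSC_f_le i _ hj]
    refine Prod.ext ?_ ?_
    · rcases Fin.eq_zero_or_eq_succ j with rfl | ⟨k, rfl⟩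
      · rfl
      · rw [Fin.val_succ] at hj
        simp only [Fin.cons_succ]
        change (if (k.castSucc).val ≤ i.val then (φ k.castSucc).2 else (φ k.castSucc).1) = _
        rw [if_pos (by
          rw [Fin.val_castSucc]
          omega)]
        exact hφ k fun he => by
          rw [he] at hj
          omega
    · change (if j.val ≤ i.val then (φ j).2 else (φ j).1) = (φ j).2
      rw [if_pos hj]
  · rw [TSC_f_gt i _ hj]
    refine Prod.ext ?_ ?_
    · change (if j.val ≤ i.val then (φ j).2 else (φ j).1) = (φ j).1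
      rw [if_neg hj]
    · rcases Fin.eq_castSucc_or_eq_last j with ⟨k, rfl⟩ | rfl
      · rw [Fin.val_castSucc] at hj
        simp only [Fin.snoc_castSucc]
        change (if (k.succ).val ≤ i.val then (φ k.succ).2 else (φ k.succ).1) = _
        rw [if_neg (by
          rw [Fin.val_succ]
          omega)]
        exact (hφ k fun he => by
          rw [he] at hj
          omega).symm
      · simp only [Fin.snoc_last]
        rfl

theorem TSC_pt (μ : V → V → ℝ) {l : ℕ} (i : Fin l) (t : V × (Fin (l + 1) → V) × V) :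
    pt μ (TSC_f i t) = μ t.1 (t.2.1 0) * (∏ j : Fin l, if j = i then 1
      else μ (t.2.1 j.castSucc) (t.2.1 j.succ)) * μ (t.2.1 (Fin.last l)) t.2.2 := by
  have h1 : pt μ (TSC_f i t) = ∏ j : Fin (l + 1),
      ((if j.val ≤ i.val then μ ((Fin.cons t.1 (fun k : Fin l => t.2.1 k.castSucc) :
          Fin (l + 1) → V) j) (t.2.1 j) else 1)
        * (if j.val ≤ i.val then 1 else μ (t.2.1 j) ((Fin.snoc (fun k : Fin l => t.2.1 k.succ)
          t.2.2 : Fin (l + 1) → V) j))) := by
    unfold pt
    refine prod_congr rfl fun j _ => ?_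
    by_cases hj : j.val ≤ i.val
    · rw [TSC_f_le i t hj, if_pos hj, if_pos hj, mul_one]
    · rw [TSC_f_gt i t hj, if_neg hj, if_neg hj, one_mul]
  rw [h1, prod_mul_distrib, Fin.prod_univ_succ, Fin.prod_univ_castSucc (n := l)
    (f := fun j : Fin (l + 1) => if j.val ≤ i.val then 1 else μ (t.2.1 j)
      ((Fin.snoc (fun k : Fin l => t.2.1 k.succ) t.2.2 : Fin (l + 1) → V) j))]
  rw [if_pos (by simp), if_neg (by
    rw [Fin.val_last, not_le]
    exact i.2)]
  simp only [Fin.cons_zero, Fin.cons_succ, Fin.snoc_last, Fin.snoc_castSucc, Fin.val_succ,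
    Fin.val_castSucc]
  have h2 : ∀ j : Fin l, (if j = i then (1 : ℝ) else μ (t.2.1 j.castSucc) (t.2.1 j.succ))
      = (if j.val + 1 ≤ i.val then μ (t.2.1 j.castSucc) (t.2.1 j.succ) else 1)
        * (if j.val ≤ i.val then 1 else μ (t.2.1 j.castSucc) (t.2.1 j.succ)) := by
    intro j
    by_cases h3 : j = i
    · rw [if_pos h3, if_neg (by rw [h3]; omega), if_pos (by rw [h3]), one_mul]
    · have h4 : j.val ≠ i.val := fun he => h3 (Fin.ext he)
      rw [if_neg h3]
      by_cases h5 : j.val ≤ i.val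
      · rw [if_pos (by omega), if_pos h5, mul_one]
      · rw [if_neg (by omega), if_neg h5, one_mul]
  rw [prod_congr rfl fun j _ => h2 j, prod_mul_distrib]
  ring

theorem ts_C {μ : V → V → ℝ} (h : Wt μ) (l : ℕ) :
    ∑ i : Fin l, TS (l + 1) (fC l i) μ = CC μ (dg μ) e1 (dg μ) (l + 1) := by
  rw [cc_fun]
  refine sum_congr rfl fun i _ => ?_
  have hL : TS (l + 1) (fC l i) μ = ∑ φ ∈ univ.filter (fun φ : Fin (l + 1) → V × V =>
      (∀ j : Fin l, j ≠ i → (φ j.castSucc).2 = (φ j.succ).1) ∧
        Function.Injective (fun j : Fin (l + 1) => if j.val ≤ i.val then (φ j).2 else (φ j).1)),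
      pt μ φ := by
    rw [sum_filter]
    unfold TS
    refine sum_congr rfl fun φ _ => ?_
    unfold fC
    split_ifs
    · rw [one_mul]
    · rw [zero_mul]
  have hR : (∑ g : Fin (l + 1) → V, if Function.Injective g then
      dg μ (g 0) * (∏ j : Fin l, if j = i then e1 (g i.castSucc) (g i.succ)
        else μ (g j.castSucc) (g j.succ)) * dg μ (g (Fin.last l)) else 0)
      = ∑ t ∈ univ.filter (fun t : V × (Fin (l + 1) → V) × V => Function.Injective t.2.1),
        pt μ (TSC_f i t) := by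
    rw [sum_filter]
    have hc : ∀ F : V × (Fin (l + 1) → V) × V → ℝ, ∑ t, F t = ∑ g, ∑ u, ∑ w, F (u, g, w) := by
      intro F
      rw [Fintype.sum_prod_type, sum_congr rfl fun u _ => Fintype.sum_prod_type _]
      exact sum_comm
    rw [hc]
    refine sum_congr rfl fun g _ => ?_
    by_cases hg : Function.Injective g
    · rw [if_pos hg]
      have h1 : ∀ u w : V, (if Function.Injective (u, g, w).2.1 then pt μ (TSC_f i (u, g, w))
          else 0) = μ (g 0) u * (∏ j : Fin l, if j = i then (1 : ℝ)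
            else μ (g j.castSucc) (g j.succ)) * μ (g (Fin.last l)) w := by
        intro u w
        rw [if_pos hg, TSC_pt, h.symm u (g 0)]
      rw [sum_congr rfl fun u _ => sum_congr rfl fun w _ => h1 u w]
      have h2 : ∀ j : Fin l, (if j = i then e1 (g i.castSucc) (g i.succ)
          else μ (g j.castSucc) (g j.succ)) = if j = i then 1
            else μ (g j.castSucc) (g j.succ) := by
        intro j
        have h3 : e1 (g i.castSucc) (g i.succ) = 1 := by
          unfold e1
          rw [if_neg]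
          intro he
          have := congrArg Fin.val (hg he)
          rw [Fin.val_castSucc, Fin.val_succ] at this
          omega
        rw [h3]
      rw [prod_congr rfl fun j _ => h2 j]
      unfold dg
      rw [sum_mul, sum_mul]
      refine sum_congr rfl fun u _ => ?_
      rw [mul_sum]
    · rw [if_neg hg]
      symm
      refine sum_eq_zero fun u _ => sum_eq_zero fun w _ => ?_
      exact if_neg hg
  rw [hL, hR]
  refine sum_nbij' (TSC_b i) (TSC_f i) (fun φ hφ => ?_) (fun t ht => ?_) (fun φ hφ => ?_)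
    (fun t _ => TSC_bf i t) (fun φ hφ => ?_)
  · rw [mem_filter] at hφ ⊢
    exact ⟨mem_univ _, hφ.2.2⟩
  · rw [mem_filter] at ht ⊢
    refine ⟨mem_univ _, fun j hj => TSC_link i t hj, ?_⟩
    rw [TSC_g]
    exact ht.2
  · rw [mem_filter] at hφ
    exact TSC_fb i φ hφ.2.1
  · rw [mem_filter] at hφ
    rw [TSC_fb i φ hφ.2.1]

end

end Pool.Agent.Lib.MP_009d13_co.SP
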