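import Pool.Agent.Lib.MP_009d13_co.SP.NLF

/-!
# SP.TSW: the paths with `l` hubs as a sum over tuples
-/

set_option autoImplicit false

namespace Pool.Agent.Lib.MP_009d13_co.SP

open Finset Classical
open Pool.Agent.Lib.MP_009d13_co.OD

noncomputable section

variable {V : Type} [Fintype V]

/-- A sum over tuples of pairs as a sum over the first and the second entries. -/
theorem tsw_pairs (n : ℕ) (F : (Fin n → V × V) → ℝ) :
    ∑ φ : Fin n → V × V, F φ = ∑ a : Fin n → V, ∑ b : Fin n → V, F (fun i => (a i, b i)) := by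
  rw [← Fintype.sum_prod_type' (f := fun a b : Fin n → V => F (fun i => (a i, b i)))]
  exact Fintype.sum_equiv (Equiv.arrowProdEquivProdArrow (Fin n) (fun _ => V) (fun _ => V)) _ _
    (fun φ => rfl)

/-- A sum over functions, first value apart. -/
theorem tsw_cons (n : ℕ) (F : (Fin (n + 1) → V) → ℝ) :
    ∑ a : Fin (n + 1) → V, F a = ∑ u : V, ∑ a : Fin n → V, F (Fin.cons u a) := by
  rw [← Fintype.sum_prod_type' (f := fun (u : V) (a : Fin n → V) => F (Fin.cons u a))]
  exact (Fintype.sum_equiv (Fin.consEquiv (fun _ : Fin (n + 1) => V)) _ _ (fun φ => rfl)).symm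

/-- A sum over functions, last value apart. -/
theorem tsw_snoc (n : ℕ) (F : (Fin (n + 1) → V) → ℝ) :
    ∑ a : Fin (n + 1) → V, F a = ∑ u : V, ∑ a : Fin n → V, F (Fin.snoc a u) := by
  rw [← Fintype.sum_prod_type' (f := fun (u : V) (a : Fin n → V) =>
    F (Fin.snoc (α := fun _ => V) a u))]
  exact (Fintype.sum_equiv (Fin.snocEquiv (fun _ : Fin (n + 1) => V)) _ _ (fun φ => rfl)).symm

omit [Fintype V] in
theorem tsw_prod (μ : V → V → ℝ) (k : ℕ) (g : Fin (k + 1) → V) (u w : V) :
    ∏ i : Fin (k + 2), μ (Fin.cons (α := fun _ => V) u g i) (Fin.snoc (α := fun _ => V) g w i) =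
      μ u (g 0) * (∏ i : Fin k, μ (g i.castSucc) (g i.succ)) * μ (g (Fin.last k)) w := by
  rw [Fin.prod_univ_succ, Fin.prod_univ_castSucc]
  have e0 : Fin.snoc (α := fun _ => V) g w (0 : Fin (k + 2)) = g 0 := by
    rw [← Fin.castSucc_zero, Fin.snoc_castSucc]
  rw [e0, Fin.cons_zero, mul_assoc]
  congr 1
  congr 1
  · refine Finset.prod_congr rfl fun i _ => ?_
    rw [Fin.cons_succ, Fin.succ_castSucc, Fin.snoc_castSucc]
  · rw [Fin.cons_succ, Fin.succ_last, Fin.snoc_last]

theorem ts_W {μ : V → V → ℝ} (h : Wt μ) {l : ℕ} (hl : 1 ≤ l) :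
    TS (l + 1) (fW l) μ = Wo μ (dg μ) l := by
  obtain ⟨k, rfl⟩ : ∃ k, l = k + 1 := ⟨l - 1, by omega⟩
  unfold TS Wo
  rw [sum_NL_fun, tsw_pairs, tsw_cons]
  have e1 : ∀ u : V, ∀ a : Fin (k + 1) → V, (∑ b : Fin (k + 1 + 1) → V,
      fW (k + 1) (fun i => (Fin.cons (α := fun _ => V) u a i, b i)) *
        pt μ (fun i => (Fin.cons (α := fun _ => V) u a i, b i))) =
      ∑ w : V, if Function.Injective a then μ u (a 0) *
        (∏ i : Fin k, μ (a i.castSucc) (a i.succ)) * μ (a (Fin.last k)) w else 0 := by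
    intro u a
    rw [tsw_snoc]
    refine Finset.sum_congr rfl fun w _ => ?_
    rw [Finset.sum_eq_single a]
    · unfold fW pt
      simp only [Fin.snoc_castSucc, Fin.cons_succ, implies_true, true_and]
      rw [tsw_prod]
      split_ifs
      · rw [one_mul]
      · rw [zero_mul]
    · intro b _ hb
      unfold fW
      rw [if_neg, zero_mul]
      rintro ⟨hc, -⟩
      refine hb (funext fun i => ?_)
      have := hc i
      simpa only [Fin.snoc_castSucc, Fin.cons_succ] using this
    · intro hc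
      exact absurd (mem_univ _) hc
  simp_rw [e1]
  rw [Finset.sum_comm]
  refine Finset.sum_congr rfl fun a _ => ?_
  by_cases ha : Function.Injective a
  · simp only [if_pos ha]
    rw [hd_ofFn, pw_ofFn, ls_ofFn]
    unfold dg
    simp_rw [← Finset.mul_sum]
    rw [← Finset.sum_mul, ← Finset.sum_mul]
    congr 2
    exact Finset.sum_congr rfl fun u _ => h.symm _ _
  · simp [ha]

end

end Pool.Agent.Lib.MP_009d13_co.SP
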