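import Pool.Agent.Lib.MP_009d13_co.OD.KA
import Pool.Agent.Lib.MP_009d13_co.SP.TSW
import Pool.Agent.Lib.MP_009d13_co.SP.TSA
import Pool.Agent.Lib.MP_009d13_co.SP.TSC

/-!
# SP.FOT (30 min): the functional as a sum over tuples; monotonicity in `e`

`fo_ts`: linearity of `TS` in `f` (`ts_add`, `ts_smul`, `ts_sum`) and `ts_W`, `ts_A`, `ts_C`.
`fo_le_e1`: `e a b ≤ e1 a b` for all `a`, `b` (`Sp.diag`, `Sp.le_one`); `CC` is monotone in `e`
(termwise; `ls_nonneg`, `pw_nonneg`, or via `cc_fun`).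
-/

set_option autoImplicit false

namespace Pool.Agent.Lib.MP_009d13_co.SP

open Finset Classical
open Pool.Agent.Lib.MP_009d13_co.OD

noncomputable section

variable {V : Type} [Fintype V]

theorem fo_ts {μ : V → V → ℝ} (h : Wt μ) {l : ℕ} (hl : 1 ≤ l) :
    TS (l + 1) (fF l) μ = Fo μ e1 l := by
  have h1 : TS (l + 1) (fF l) μ = 2 * (l + 1) * TS (l + 1) (fW l) μ + 2 * TS (l + 1) (fA l) μ
      + ∑ i : Fin l, TS (l + 1) (fC l i) μ := by
    unfold TS fF
    rw [Finset.sum_comm, Finset.mul_sum, Finset.mul_sum, ← Finset.sum_add_distrib,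
      ← Finset.sum_add_distrib]
    apply Finset.sum_congr rfl
    intro φ _
    rw [add_mul, add_mul, Finset.sum_mul]
    ring
  rw [h1, ts_W h hl, ts_A, ts_C h l]
  rfl

omit [Fintype V] in
private theorem fot_hd_mono {f g : V → ℝ} (hfg : ∀ a, f a ≤ g a) (L : List V) :
    hd f L ≤ hd g L := by
  cases L with
  | nil => exact le_refl _
  | cons a t => exact hfg a

private theorem fot_ls_mono {f g : V → ℝ} (hfg : ∀ a, f a ≤ g a) (L : List V) :
    ls f L ≤ ls g L := fot_hd_mono hfg L.reverse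

theorem fo_le_e1 {μ e : V → V → ℝ} (h : Wt μ) (he : Sp e) (l : ℕ) : Fo μ e l ≤ Fo μ e1 l := by
  have hd0 : ∀ v, 0 ≤ dg μ v := fun v => Finset.sum_nonneg fun b _ => h.nonneg v b
  have hle : ∀ a b, e a b ≤ e1 a b := by
    intro a b
    unfold e1
    split_ifs with hab
    · rw [hab, he.diag]
    · exact he.le_one a b
  have hc : CC μ (dg μ) e (dg μ) (l + 1) ≤ CC μ (dg μ) e1 (dg μ) (l + 1) := by
    unfold CC
    refine Finset.sum_le_sum fun i _ => Finset.sum_le_sum fun P _ => Finset.sum_le_sum fun Q _ => ?_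
    refine mul_le_mul_of_nonneg_right (mul_le_mul_of_nonneg_right
      (mul_le_mul_of_nonneg_left ?_ ?_) (pw_nonneg μ h.nonneg Q)) (ls_nonneg hd0 Q)
    · exact fot_ls_mono (fun a => fot_hd_mono (hle a) Q) P
    · exact mul_nonneg (hd_nonneg hd0 P) (pw_nonneg μ h.nonneg P)
  unfold Fo Fd
  linarith

end

end Pool.Agent.Lib.MP_009d13_co.SP
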