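import Pool.Agent.Lib.MP_009d13_co.OD.Defs2
import Pool.Agent.Lib.MP_009d13_co.OD.MW
import Pool.Agent.Lib.MP_009d13_co.OD.ENR
import Pool.Agent.Lib.MP_009d13_co.OD.KB
import Pool.Agent.Lib.MP_009d13_co.OD.LS1
import Pool.Agent.Lib.MP_009d13_co.OD.OPA
import Pool.Agent.Lib.MP_009d13_co.OD.EM
import Pool.Agent.Lib.MP_009d13_co.OD.PTA

/-!
# SP.Lit: the lemmas of OD.STB and OD.FAS that hold for every `l`

Copied here so that the small cases do not import the long argument for large `l`.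
-/

set_option autoImplicit false

namespace Pool.Agent.Lib.MP_009d13_co.SP

open Finset Classical
open Pool.Agent.Lib.MP_009d13_co.OD
open Pool.Agent.Lib.MP_009d13_co.P5 (nb kk)

noncomputable section

variable {V : Type} [Fintype V]

theorem stb_nl {l : ℕ} (hV : Fintype.card V < l) : NL (∅ : Finset V) l = ∅ := by
  apply NL_eq_empty
  rw [compl_empty, card_univ]
  exact hV

theorem stb_cc {N : ℕ} (hV : Fintype.card V < N) (μ : V → V → ℝ) (χ : V → ℝ) (e : V → V → ℝ)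
    (ψ : V → ℝ) : CC μ χ e ψ N = 0 := by
  unfold CC
  refine sum_eq_zero fun i hi => sum_eq_zero fun P hP => ?_
  rw [NL_eq_empty, sum_empty]
  rw [card_compl, List.toFinset_card_of_nodup (mem_NL.1 hP).2.1, (mem_NL.1 hP).1]
  have := mem_range.1 hi
  omega

/-- With less than `l` hubs the functional vanishes. -/
theorem stb_small {l : ℕ} (hV : Fintype.card V < l) (μ e : V → V → ℝ) (ν : V → ℝ) (ρ : ℝ) :
    FG μ ν ρ e l = 0 := by
  have hWo : ∀ d : V → ℝ, Wo μ d l = 0 := fun d => by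
    unfold Wo
    rw [stb_nl hV, sum_empty]
  have hAo : ∀ d : V → ℝ, Ao μ d l = 0 := fun d => by
    unfold Ao
    rw [stb_nl (l := l + 1) (by omega), sum_empty]
  have hEn : ∀ (d : V → ℝ) (a : V), En μ d l a = 0 := fun d a => by
    unfold En
    rw [stb_nl hV, sum_empty]
  have hSo : ∀ (d : V → ℝ) (a b : V), So μ d l a b = 0 := fun d a b => stb_cc hV _ _ _ _
  have hgm : ∀ (d : V → ℝ) (a : V), gm μ d l a = 0 := fun d a => by
    unfold gm
    simp only [hSo, hEn, add_zero, ite_self]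
    exact Real.iSup_const_zero
  have hem : ∀ d : V → ℝ, OD.em μ d l = 0 := fun d => by
    unfold OD.em
    simp only [hEn, add_zero, ite_self]
    exact Real.iSup_const_zero
  unfold FG Fd
  rw [hWo, hAo, stb_cc (N := l + 1) (by omega), hem]
  simp only [hgm, mul_zero, sum_const_zero, add_zero]

theorem stb_zero {l : ℕ} {μ e : V → V → ℝ} {ν : V → ℝ} {ρ : ℝ} (hν : ∀ v, 0 ≤ ν v)
    (hρ : 0 ≤ ρ) (hs : ∑ v, ν v + ρ = 0) : FG μ ν ρ e l = Fo μ e l := by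
  have h1 : 0 ≤ ∑ v, ν v := sum_nonneg fun v _ => hν v
  have h2 : ρ = 0 := by linarith
  have h3 : ∑ v, ν v = 0 := by linarith
  have h4 : ∀ v, ν v = 0 := fun v =>
    (sum_eq_zero_iff_of_nonneg fun v _ => hν v).1 h3 v (mem_univ v)
  have h5 : dn μ ν = dg μ := by
    funext v
    unfold dn
    rw [h4, add_zero]
  unfold FG Fo
  rw [h5, h2]
  simp only [h4, zero_mul, sum_const_zero, mul_zero, add_zero]

theorem stb_entry {μ μ' : V → V → ℝ} (h : Wt μ) (h' : Wt μ') (hle : ∀ a b, μ a b ≤ μ' a b)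
    (a b : V) : μ' a b - μ a b ≤ ms μ' ∅ - ms μ ∅ := by
  have hg : Wt (fun a b => μ' a b - μ a b) :=
    ⟨fun a b => by rw [h.symm a b, h'.symm a b], fun a => by rw [h.diag, h'.diag, sub_zero],
      fun a b => sub_nonneg.2 (hle a b)⟩
  have h1 := le_un hg (A := (∅ : Finset V)) (v := a) (b := b) (notMem_empty b)
  have h2 := un_le_ms hg (A := (∅ : Finset V)) (v := a) (notMem_empty a)
  have h3 : ms (fun a b => μ' a b - μ a b) ∅ = ms μ' ∅ - ms μ ∅ := by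
    unfold ms
    simp only [sum_sub_distrib]
    ring
  rw [h3] at h2
  exact h1.trans h2

/-- All private mass is moved, with a lower bound for `En`. -/
theorem stb_move {l : ℕ} (hl : 2 ≤ l) {μ e : V → V → ℝ} {ν : V → ℝ} {ρ : ℝ} (h : Wt μ)
    (he : Sp e) (hν : ∀ v, 0 ≤ ν v) (hρ : 0 ≤ ρ) (hm : ms μ ∅ + ∑ v, ν v + ρ = l)
    (hV : 2 ≤ Fintype.card V) {E2 : ℝ} (hE : ∀ a, ∃ b, b ≠ a ∧ E2 ≤ En μ (dn μ ν) l b) :
    ∃ μ' : V → V → ℝ, Wt μ' ∧ ms μ' ∅ = l ∧ (∀ a b, μ' a b ≤ μ a b + (∑ v, ν v + ρ)) ∧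
      FG μ ν ρ e l + 4 * (l - 1) * (∑ v, ν v + ρ) * E2 ≤ Fo μ' e l := by
  have hs : 0 ≤ ∑ v, ν v + ρ := add_nonneg (sum_nonneg fun v _ => hν v) hρ
  obtain ⟨μ', ν', ρ', h1, h2, h3, h4, h5, h6, h7⟩ :=
    move_all h hν hρ he.nonneg hl hV hE le_rfl hs
  refine ⟨μ', h1, by linarith, fun a b => ?_, ?_⟩
  · have := stb_entry h h1 h4 a b
    linarith
  · rw [stb_zero h2 h3 h5, sub_zero] at h7
    exact h7

theorem stb_E0 {l : ℕ} {μ : V → V → ℝ} {ν : V → ℝ} (h : Wt μ) (hν : ∀ v, 0 ≤ ν v)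
    (hV : 2 ≤ Fintype.card V) (a : V) : ∃ b, b ≠ a ∧ 0 ≤ En μ (dn μ ν) l b := by
  obtain ⟨b, hb⟩ := Fintype.exists_ne_of_one_lt_card (by omega) a
  exact ⟨b, hb, (so_nonneg h.nonneg (mv_dn_nonneg h hν) l b b).2.1⟩

theorem stb_ring {l : ℕ} {δ1 lam : ℝ} (hlam : 0 < lam) {μ e : V → V → ℝ}
    (hb : Fo μ e l + lam * max 0 (ze l μ - δ1) ≤ 16 * l * (l + 1))
    (hV : l ≤ Fintype.card V) (hF : 16 * l * (l + 1) - lam * δ1 ≤ Fo μ e l) :
    ∃ h : Fin l ↪ V, ∀ j, 1 - 2 * δ1 ≤ μ (h j) (h (finRotate l j)) := by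
  have h1 : lam * max 0 (ze l μ - δ1) ≤ lam * δ1 := by linarith
  have h2 : max 0 (ze l μ - δ1) ≤ δ1 := le_of_mul_le_mul_left h1 hlam
  have h3 : ze l μ - δ1 ≤ δ1 := (le_max_right _ _).trans h2
  obtain ⟨h, hh⟩ := ze_attained l μ hV
  refine ⟨h, fun j => ?_⟩
  have h4 : |μ (h j) (h (finRotate l j)) - 1| ≤ rs l μ h := by
    unfold rs
    exact single_le_sum (f := fun j => |μ (h j) (h (finRotate l j)) - 1|)
      (fun i _ => abs_nonneg _) (mem_univ j)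
  have h5 := (abs_le.1 (h4.trans (hh.le.trans (by linarith : ze l μ ≤ 2 * δ1)))).1
  linarith

section

variable (G : SimpleGraph V) (H : Finset V)

omit [Fintype V] in
theorem fas_pw_le_one : ∀ L : List V, 0 ≤ pw (aj G) L ∧ pw (aj G) L ≤ 1
  | [] => ⟨zero_le_one, le_refl _⟩
  | [_] => ⟨zero_le_one, le_refl _⟩
  | a :: b :: t => by
    obtain ⟨h1, h2⟩ := fas_pw_le_one (b :: t)
    have h3 : pw (aj G) (a :: b :: t) = aj G a b * pw (aj G) (b :: t) := rfl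
    have h4 : 0 ≤ aj G a b ∧ aj G a b ≤ 1 := by
      unfold aj
      split_ifs <;> norm_num
    rw [h3]
    exact ⟨mul_nonneg h4.1 h1, mul_le_one₀ h4.2 h1 h2⟩

theorem fas_sum_one (k : ℕ) : ∀ A : Finset V,
    ∑ _L ∈ NL A k, (1 : ℝ) ≤ (Fintype.card V : ℝ) ^ k := by
  induction k with
  | zero => intro A; simp [NL]
  | succ k ih =>
    intro A
    rw [sum_NL_succ]
    calc ∑ a ∈ Aᶜ, ∑ _T ∈ NL (insert a A) k, (1 : ℝ)
        ≤ ∑ _a ∈ Aᶜ, (Fintype.card V : ℝ) ^ k := Finset.sum_le_sum fun a _ => ih (insert a A)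
      _ = (Aᶜ.card : ℝ) * (Fintype.card V : ℝ) ^ k := by
        rw [Finset.sum_const, nsmul_eq_mul]
      _ ≤ (Fintype.card V : ℝ) * (Fintype.card V : ℝ) ^ k := by
        refine mul_le_mul_of_nonneg_right ?_ (by positivity)
        exact_mod_cast Finset.card_le_univ _
      _ = (Fintype.card V : ℝ) ^ (k + 1) := by ring

theorem fas_crude (k : ℕ) : Tk G k ≤ (Fintype.card V : ℝ) ^ k := by
  unfold Tk
  exact (Finset.sum_le_sum fun L _ => (fas_pw_le_one G L).2).trans (fas_sum_one k ∅)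

theorem fas_pow (x : ℝ) (h0 : 0 ≤ x) (h1 : x ≤ 1) (N : ℕ) :
    (1 + x) ^ N ≤ 1 + x * 2 ^ N := by
  have key : (1 + x) ^ N ≤ 1 + x * (2 ^ N - 1) := by
    induction N with
    | zero => simp
    | succ N ih =>
      have h2 : (1 : ℝ) ≤ 2 ^ N := one_le_pow₀ (by norm_num)
      calc (1 + x) ^ (N + 1) = (1 + x) ^ N * (1 + x) := by ring
        _ ≤ (1 + x * (2 ^ N - 1)) * (1 + x) := mul_le_mul_of_nonneg_right ih (by linarith)
        _ = 1 + x * (1 + (2 ^ N - 1) + x * (2 ^ N - 1)) := by ring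
        _ ≤ 1 + x * (1 + (2 ^ N - 1) + 1 * (2 ^ N - 1)) := by
          have h3 : x * (2 ^ N - 1) ≤ 1 * (2 ^ N - 1) :=
            mul_le_mul_of_nonneg_right h1 (by linarith)
          have h4 := mul_le_mul_of_nonneg_left h3 h0
          linarith
        _ = 1 + x * (2 ^ (N + 1) - 1) := by ring
  linarith

theorem fas_eps (b1 b2 b3 b4 a2 a3 a4 : ℝ) (h1 : 0 < b1) (h2 : 0 < b2) (h3 : 0 < b3) (h4 : 0 < b4)
    (k2 : 0 < a2) (k3 : 0 < a3) (k4 : 0 < a4) :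
    ∃ ε : ℝ, 0 < ε ∧ ε ≤ b1 ∧ ε * a2 ≤ b2 ∧ ε * a3 ≤ b3 ∧ ε * a4 ≤ b4 := by
  refine ⟨min b1 (min (b2 / a2) (min (b3 / a3) (b4 / a4))), ?_, min_le_left _ _, ?_, ?_, ?_⟩
  · have := div_pos h2 k2
    have := div_pos h3 k3
    have := div_pos h4 k4
    simp only [lt_min_iff]
    exact ⟨h1, by assumption, by assumption, by assumption⟩
  · rw [← le_div_iff₀ k2]
    exact (min_le_right _ _).trans (min_le_left _ _)
  · rw [← le_div_iff₀ k3]
    exact (min_le_right _ _).trans ((min_le_right _ _).trans (min_le_left _ _))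
  · rw [← le_div_iff₀ k4]
    exact (min_le_right _ _).trans ((min_le_right _ _).trans (min_le_right _ _))

omit [Fintype V] in
theorem fas_wt_smul {μ : V → V → ℝ} (h : Wt μ) {c : ℝ} (hc : 0 ≤ c) :
    Wt (fun a b => c * μ a b) where
  symm a b := by simp only [h.symm a b]
  diag a := by simp only [h.diag a, mul_zero]
  nonneg a b := mul_nonneg hc (h.nonneg a b)

theorem fas_ms_nonneg {μ : V → V → ℝ} (h : Wt μ) : 0 ≤ ms μ ∅ := by
  unfold ms
  have : 0 ≤ ∑ a ∈ (∅ : Finset V)ᶜ, ∑ b ∈ (∅ : Finset V)ᶜ, μ a b :=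
    Finset.sum_nonneg fun a _ => Finset.sum_nonneg fun b _ => h.nonneg a b
  linarith

theorem fas_ms_smul (μ : V → V → ℝ) (c : ℝ) : ms (fun a b => c * μ a b) ∅ = c * ms μ ∅ := by
  unfold ms
  simp only [← Finset.mul_sum]
  ring

/-- Nothing is left if the total mass is zero. -/
theorem fas_zero {μ : V → V → ℝ} (h : Wt μ) {ν : V → ℝ} (hν : ∀ v, 0 ≤ ν v) {ρ : ℝ} (hρ : 0 ≤ ρ)
    (e : V → V → ℝ) {l : ℕ} (hl : 1 ≤ l) (hm : ms μ ∅ + ∑ v, ν v + ρ = 0) : FG μ ν ρ e l = 0 := by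
  have h1 := fas_ms_nonneg h
  have h2 : 0 ≤ ∑ v, ν v := Finset.sum_nonneg fun v _ => hν v
  have h3 : ms μ ∅ = 0 := by linarith
  have h4 : ∑ v, ν v = 0 := by linarith
  have h5 : ρ = 0 := by linarith
  have h6 : ∀ v, ν v = 0 := fun v =>
    (Finset.sum_eq_zero_iff_of_nonneg fun v _ => hν v).mp h4 v (Finset.mem_univ v)
  have h7 : ∀ a b, μ a b = 0 := by
    intro a b
    unfold ms at h3
    have h8 : ∑ a ∈ (∅ : Finset V)ᶜ, ∑ b ∈ (∅ : Finset V)ᶜ, μ a b = 0 := by linarith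
    have h9 := (Finset.sum_eq_zero_iff_of_nonneg fun a _ =>
      Finset.sum_nonneg fun b _ => h.nonneg a b).mp h8 a (by simp)
    exact (Finset.sum_eq_zero_iff_of_nonneg fun b _ => h.nonneg a b).mp h9 b (by simp)
  have h8 : μ = fun a b => 0 * μ a b := by
    funext a b
    rw [h7 a b, zero_mul]
  have h9 : ν = fun a => 0 * ν a := by
    funext a
    rw [h6 a, zero_mul]
  have h10 : ρ = 0 * ρ := by rw [h5, zero_mul]
  have h11 := fg_smul μ ν ρ e hl (le_refl (0 : ℝ))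
  rw [← h8, ← h9, ← h10] at h11
  rw [h11, zero_pow (by omega), zero_mul]

end

end

end Pool.Agent.Lib.MP_009d13_co.SP
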