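import Pool.Agent.Lib.MP_009d13_co.OD.MW
import Pool.Agent.Lib.MP_009d13_co.OD.ENR
import Pool.Agent.Lib.MP_009d13_co.OD.KB
import Pool.Agent.Lib.MP_009d13_co.OD.LS1
import Pool.Agent.Lib.MP_009d13_co.OD.OPA
import Pool.Agent.Lib.MP_009d13_co.OD.EM
import Pool.Agent.Lib.MP_009d13_co.SP.Defs
import Pool.Agent.Lib.MP_009d13_co.SP.Lit

/-!
# SP.Stb: stability with private classes from `ST l` (as in OD.STB)
-/

set_option autoImplicit false

namespace Pool.Agent.Lib.MP_009d13_co.SP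

open Finset Classical
open Pool.Agent.Lib.MP_009d13_co.OD

noncomputable section

theorem stab {l : ℕ} (hl3 : 3 ≤ l) (hst : ST l) {δ : ℝ} (hδ : 0 < δ) : ∃ ε : ℝ, 0 < ε ∧
    ∀ (V : Type) [Fintype V] (μ e : V → V → ℝ) (ν : V → ℝ) (ρ : ℝ), Wt μ → Sp e →
      (∀ v, 0 ≤ ν v) → 0 ≤ ρ → ms μ ∅ + ∑ v, ν v + ρ = l →
      16 * l * (l + 1) - ε ≤ FG μ ν ρ e l →
      ∃ h : Fin l ↪ V, ∀ j, 1 - δ ≤ μ (h j) (h (finRotate l j)) := by
  have hl2 : 2 ≤ l := by omega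
  have hlR : (3 : ℝ) ≤ l := by exact_mod_cast hl3
  have hl0 : (0 : ℝ) < l := by linarith
  obtain ⟨δ1, hδ1⟩ : ∃ δ1 : ℝ, δ1 = min (δ / 4) (1 / (100 * l)) := ⟨_, rfl⟩
  have hd0 : 0 < δ1 := by
    rw [hδ1]
    exact lt_min (by linarith) (by positivity)
  have hd1 : δ1 ≤ δ / 4 := hδ1 ▸ min_le_left _ _
  have hd2 : δ1 * (100 * l) ≤ 1 := by
    have : δ1 ≤ 1 / (100 * l) := hδ1 ▸ min_le_right _ _
    rwa [le_div_iff₀ (by positivity)] at this
  have hd3 : δ1 ≤ 1 / 100 := by nlinarith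
  obtain ⟨lam, hlam, hlam1, hb⟩ := hst _ hd0
  have hε : lam * δ1 ≤ δ1 := by nlinarith
  refine ⟨lam * δ1, mul_pos hlam hd0, ?_⟩
  intro V _ μ e ν ρ hW he hν hρ hm hF
  rcases Nat.lt_or_ge (Fintype.card V) l with hV | hV
  · exfalso
    rw [stb_small hV] at hF
    nlinarith
  have hV2 : 2 ≤ Fintype.card V := by omega
  have hs : 0 ≤ ∑ v, ν v + ρ := add_nonneg (sum_nonneg fun v _ => hν v) hρ
  rcases le_or_gt (∑ v, ν v + ρ) δ1 with hT | hT
  · obtain ⟨μ2, h1, h2, h3, h4⟩ :=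
      stb_move (e := e) hl2 hW he hν hρ hm hV2 (stb_E0 hW hν hV2)
    rw [mul_zero, add_zero] at h4
    obtain ⟨h, hh⟩ := stb_ring hlam (hb V μ2 e h1 he h2) hV (hF.trans h4)
    refine ⟨h, fun j => ?_⟩
    have h5 := hh j
    have h6 := h3 (h j) (h (finRotate l j))
    linarith
  · exfalso
    obtain ⟨μ1, ν1, ρ1, h1, h2, h3, h4, h5, h6, h7⟩ :=
      move_all hW hν hρ he.nonneg hl2 hV2 (stb_E0 hW hν hV2) hd0.le hT.le
    rw [mul_zero, add_zero] at h7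
    have hm1 : ms μ1 ∅ + ∑ v, ν1 v + ρ1 = l := by linarith
    obtain ⟨μ2, g1, g2, g3, g4⟩ :=
      stb_move (e := e) hl2 h1 he h2 h3 hm1 hV2 (stb_E0 h1 h2 hV2)
    rw [mul_zero, add_zero] at g4
    obtain ⟨h, hh⟩ := stb_ring hlam (hb V μ2 e g1 he g2) hV (hF.trans (h7.trans g4))
    have hr : ∀ j, 1 - 3 * δ1 ≤ μ1 (h j) (h (finRotate l j)) := fun j => by
      have k1 := hh j
      have k2 := g3 (h j) (h (finRotate l j))
      rw [h5] at k2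
      linarith
    have hpow : 1 / 2 ≤ (1 - 3 * δ1) ^ l := by
      have k1 := one_add_mul_le_pow (a := -(3 * δ1)) (by linarith) l
      have k2 : (1 : ℝ) + -(3 * δ1) = 1 - 3 * δ1 := by ring
      rw [k2] at k1
      nlinarith
    have hEn : ∀ j, 1 / 2 ≤ En μ1 (dn μ1 ν1) l (h j) := fun j =>
      hpow.trans (en_ring h1.nonneg hl3 (fun v => by
        unfold dn
        linarith [h2 v]) h (by linarith) hr j)
    have hE : ∀ a, ∃ b, b ≠ a ∧ 1 / 2 ≤ En μ1 (dn μ1 ν1) l b := fun a => by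
      by_cases ha : h ⟨0, by omega⟩ = a
      · refine ⟨h ⟨1, by omega⟩, ?_, hEn _⟩
        rw [← ha]
        intro hc
        have := h.injective hc
        simp at this
      · exact ⟨_, ha, hEn _⟩
    obtain ⟨μ3, f1, f2, f3, f4⟩ := stb_move (e := e) hl2 h1 he h2 h3 hm1 hV2 hE
    have hb3 := hb V μ3 e f1 he f2
    have hp : 0 ≤ lam * max 0 (ze l μ3 - δ1) := mul_nonneg hlam.le (le_max_left _ _)
    rw [h5] at f4
    nlinarith

theorem fg_le {l : ℕ} (hl3 : 3 ≤ l) (hst : ST l)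
    {V : Type} [Fintype V] {μ e : V → V → ℝ} {ν : V → ℝ} {ρ : ℝ} (h : Wt μ) (he : Sp e)
    (hν : ∀ v, 0 ≤ ν v) (hρ : 0 ≤ ρ) (hm : ms μ ∅ + ∑ v, ν v + ρ = l) :
    FG μ ν ρ e l ≤ 16 * l * (l + 1) := by
  have hl2 : 2 ≤ l := by omega
  rcases Nat.lt_or_ge (Fintype.card V) l with hV | hV
  · rw [stb_small hV]
    positivity
  · obtain ⟨lam, hlam, hlam1, hb⟩ := hst _ one_pos
    obtain ⟨μ2, h1, h2, h3, h4⟩ :=
      stb_move (e := e) hl2 h he hν hρ hm (by omega) (stb_E0 h hν (by omega))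
    rw [mul_zero, add_zero] at h4
    have h5 := hb V μ2 e h1 he h2
    have hp : 0 ≤ lam * max 0 (ze l μ2 - 1) := mul_nonneg hlam.le (le_max_left _ _)
    linarith

end

end Pool.Agent.Lib.MP_009d13_co.SP
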