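import Pool.Agent.Lib.MP_009d13_co.SP.Lit
import Pool.Agent.Lib.MP_009d13_co.OD.CPY
import Pool.Agent.Lib.MP_009d13_co.P5.MAD4
import Pool.Agent.Lib.MP_009d13_co.P5.K33
import Pool.Agent.Lib.MP_009d13_co.SP.Stb

/-!
# SP.Asm: the upper bound from `ST l` and `NE l` (as in OD.FAS, OD.RES)
-/

set_option autoImplicit false

namespace Pool.Agent.Lib.MP_009d13_co.SP

open Finset Classical
open Pool.Agent.Lib.MP_009d13_co.OD
open Pool.Agent.Lib.MP_009d13_co.P5 (nb kk)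

noncomputable section

variable {V : Type} [Fintype V]
variable (G : SimpleGraph V)

/-- The main estimate for a given graph. -/
theorem fas_main {l : ℕ} (hl : 3 ≤ l) (hst : ST l) {δ δ' ε0 ε1 ε K1 : ℝ} (hδ' : 0 < δ')
    (hδ1 : δ' ≤ 1 / 4) (hδ4 : 4 * δ' ≤ δ) (hε1 : 0 < ε1) (hε11 : ε1 ≤ 1) (hε10 : ε1 ≤ ε0)
    (hε : 0 < ε) (e1 : ε ≤ 1) (e2 : ε * (l : ℝ) ^ (l + 1) ≤ 16 * l * (l + 1) * δ')
    (e3 : ε * (16 * l * (l + 1) * 2 ^ (l + 1) + (l : ℝ) ^ (l + 1)) ≤ ε1)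
    (e4 : ε * (l : ℝ) ≤ δ')
    (hstab : ∀ (V : Type) [Fintype V] (μ e : V → V → ℝ) (ν : V → ℝ) (ρ : ℝ), Wt μ → Sp e →
      (∀ v, 0 ≤ ν v) → 0 ≤ ρ → ms μ ∅ + ∑ v, ν v + ρ = l →
      16 * l * (l + 1) - ε0 ≤ FG μ ν ρ e l →
      ∃ h : Fin l ↪ V, ∀ j, 1 - δ' ≤ μ (h j) (h (finRotate l j)))
    (hnear : ∀ (V : Type) [Fintype V]
      (G : SimpleGraph V) (h : Fin l ↪ V), P5.Sparse6 G → P5.NoK33m G →
      (∀ j, (1 - δ) * ((Fintype.card V : ℝ) / l)
        ≤ ((nb G (h j) ∩ nb G (h (finRotate l j))).card : ℝ)) →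
      Tk G (2 * l + 2) ≤ 16 * l * (l + 1) * ((Fintype.card V : ℝ) / l) ^ (l + 1)
        + K1 * (Fintype.card V : ℝ) ^ l)
    (hS : P5.Sparse6 G) (hN : P5.NoK33m G)
    {μ : V → V → ℝ} {ν : V → ℝ} {ρ : ℝ} (hμ : Wt μ) (hν : ∀ v, 0 ≤ ν v) (hρ : 0 ≤ ρ)
    (hm : ms μ ∅ + ∑ v, ν v + ρ ≤ (1 + ε) * (Fintype.card V : ℝ))
    (hcl : ∀ a b, a ≠ b → μ a b ≤ ((nb G a ∩ nb G b).card : ℝ) + ε * (Fintype.card V : ℝ))
    (hT : Tk G (2 * l + 2) ≤ FG μ ν ρ (aj G) l + ε * (Fintype.card V : ℝ) ^ (l + 1)) :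
    Tk G (2 * l + 2) ≤ 16 * l * (l + 1) * ((Fintype.card V : ℝ) / l) ^ (l + 1)
        + |K1| * (Fintype.card V : ℝ) ^ l := by
  have hl1 : 1 ≤ l := by omega
  have hL : (1 : ℝ) ≤ (l : ℝ) := by exact_mod_cast hl1
  have hL0 : (0 : ℝ) < (l : ℝ) := by linarith
  have hn0 : (0 : ℝ) ≤ (Fintype.card V : ℝ) := Nat.cast_nonneg _
  generalize hn : (Fintype.card V : ℝ) = n at hm hcl hT hn0 ⊢
  set T : ℝ := 16 * l * (l + 1) with hTd
  have hT1 : 1 ≤ T := by
    rw [hTd]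
    nlinarith
  set y : ℝ := n / l with hy
  have hy0 : 0 ≤ y := div_nonneg hn0 hL0.le
  have hny : n = l * y := by
    rw [hy]
    field_simp
  have hyp : 0 ≤ y ^ (l + 1) := pow_nonneg hy0 _
  have hK : 0 ≤ |K1| * n ^ l := mul_nonneg (abs_nonneg _) (pow_nonneg hn0 _)
  have hen : ε * n ^ (l + 1) = ε * (l : ℝ) ^ (l + 1) * y ^ (l + 1) := by
    rw [hny, mul_pow, mul_assoc]
  set m : ℝ := ms μ ∅ + ∑ v, ν v + ρ with hmd
  have hm0 : 0 ≤ m := by
    have h1 := fas_ms_nonneg hμ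
    have h2 : 0 ≤ ∑ v, ν v := Finset.sum_nonneg fun v _ => hν v
    rw [hmd]
    linarith
  rcases hm0.eq_or_lt with hmz | hmp
  · have h1 := fas_zero hμ hν hρ (aj G) hl1 hmz.symm
    rw [h1, zero_add, hen] at hT
    have h2 : ε * (l : ℝ) ^ (l + 1) ≤ T := by
      calc ε * (l : ℝ) ^ (l + 1) ≤ T * δ' := e2
        _ ≤ T * 1 := mul_le_mul_of_nonneg_left (by linarith) (by linarith)
        _ = T := mul_one T
    have h3 := mul_le_mul_of_nonneg_right h2 hyp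
    linarith
  -- scaling
  set c : ℝ := l / m with hc
  have hc0 : 0 < c := div_pos hL0 hmp
  have hcm : c * m = l := by
    rw [hc]
    field_simp
  set X : ℝ := FG (fun a b => c * μ a b) (fun a => c * ν a) (c * ρ) (aj G) l with hX
  have hXe : X = c ^ (l + 1) * FG μ ν ρ (aj G) l := fg_smul μ ν ρ (aj G) hl1 hc0.le
  have hFG : FG μ ν ρ (aj G) l = (m / l) ^ (l + 1) * X := by
    rw [hXe, ← mul_assoc, ← mul_pow]
    have h1 : m / l * c = 1 := by
      rw [hc]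
      field_simp
    rw [h1, one_pow, one_mul]
  have htot : ms (fun a b => c * μ a b) ∅ + ∑ v, c * ν v + c * ρ = l := by
    rw [fas_ms_smul, ← Finset.mul_sum, ← hcm, hmd]
    ring
  have hsp := sp_aj G hS
  have hXT : X ≤ T := fg_le hl hst (fas_wt_smul hμ hc0.le) hsp
    (fun v => mul_nonneg hc0.le (hν v)) (mul_nonneg hc0.le hρ) htot
  have hml0 : 0 ≤ m / l := div_nonneg hm0 hL0.le
  by_cases hA : m ≤ (1 - δ') * n
  · -- the mass is small
    have h1 : m / l ≤ (1 - δ') * y := by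
      rw [hy, ← mul_div_assoc]
      exact div_le_div_of_nonneg_right hA hL0.le
    have h2 : (m / l) ^ (l + 1) ≤ (1 - δ') * y ^ (l + 1) := by
      calc (m / l) ^ (l + 1) ≤ ((1 - δ') * y) ^ (l + 1) := pow_le_pow_left₀ hml0 h1 _
        _ = (1 - δ') ^ (l + 1) * y ^ (l + 1) := mul_pow _ _ _
        _ ≤ (1 - δ') * y ^ (l + 1) := by
          refine mul_le_mul_of_nonneg_right ?_ hyp
          exact pow_le_of_le_one (by linarith) (by linarith) (by omega)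
    have h3 : FG μ ν ρ (aj G) l ≤ (1 - δ') * y ^ (l + 1) * T := by
      rw [hFG]
      calc (m / l) ^ (l + 1) * X ≤ (m / l) ^ (l + 1) * T :=
            mul_le_mul_of_nonneg_left hXT (pow_nonneg hml0 _)
        _ ≤ (1 - δ') * y ^ (l + 1) * T := mul_le_mul_of_nonneg_right h2 (by linarith)
    have h4 := mul_le_mul_of_nonneg_right e2 hyp
    rw [← hen] at h4
    calc Tk G (2 * l + 2) ≤ (1 - δ') * y ^ (l + 1) * T + T * δ' * y ^ (l + 1) := by linarith
      _ = T * y ^ (l + 1) := by ring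
      _ ≤ T * y ^ (l + 1) + |K1| * n ^ l := by linarith
  push Not at hA
  by_cases hB : X ≤ T - ε1
  · have h1 : m / l ≤ (1 + ε) * y := by
      rw [hy, ← mul_div_assoc]
      exact div_le_div_of_nonneg_right hm hL0.le
    have h2 : (m / l) ^ (l + 1) ≤ (1 + ε * 2 ^ (l + 1)) * y ^ (l + 1) := by
      calc (m / l) ^ (l + 1) ≤ ((1 + ε) * y) ^ (l + 1) := pow_le_pow_left₀ hml0 h1 _
        _ = (1 + ε) ^ (l + 1) * y ^ (l + 1) := mul_pow _ _ _
        _ ≤ (1 + ε * 2 ^ (l + 1)) * y ^ (l + 1) :=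
          mul_le_mul_of_nonneg_right (fas_pow ε hε.le e1 _) hyp
    have h3 : FG μ ν ρ (aj G) l ≤ (1 + ε * 2 ^ (l + 1)) * y ^ (l + 1) * (T - ε1) := by
      rw [hFG]
      calc (m / l) ^ (l + 1) * X ≤ (m / l) ^ (l + 1) * (T - ε1) :=
            mul_le_mul_of_nonneg_left hB (pow_nonneg hml0 _)
        _ ≤ (1 + ε * 2 ^ (l + 1)) * y ^ (l + 1) * (T - ε1) :=
          mul_le_mul_of_nonneg_right h2 (by linarith)
    have h4 : (1 + ε * 2 ^ (l + 1)) * (T - ε1) + ε * (l : ℝ) ^ (l + 1) ≤ T := by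
      have h5 : 0 ≤ ε * 2 ^ (l + 1) * ε1 := by positivity
      have h6 : (1 + ε * 2 ^ (l + 1)) * (T - ε1) + ε * (l : ℝ) ^ (l + 1)
          = T - ε1 - ε * 2 ^ (l + 1) * ε1 + ε * (T * 2 ^ (l + 1) + (l : ℝ) ^ (l + 1)) := by ring
      rw [h6]
      linarith
    have h5 := mul_le_mul_of_nonneg_right h4 hyp
    calc Tk G (2 * l + 2) ≤ (1 + ε * 2 ^ (l + 1)) * y ^ (l + 1) * (T - ε1)
          + ε * (l : ℝ) ^ (l + 1) * y ^ (l + 1) := by
            rw [← hen]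
            linarith
      _ = ((1 + ε * 2 ^ (l + 1)) * (T - ε1) + ε * (l : ℝ) ^ (l + 1)) * y ^ (l + 1) := by ring
      _ ≤ T * y ^ (l + 1) := h5
      _ ≤ T * y ^ (l + 1) + |K1| * n ^ l := by linarith
  push Not at hB
  obtain ⟨h, hh⟩ := hstab V (fun a b => c * μ a b) (aj G) (fun a => c * ν a) (c * ρ)
    (fas_wt_smul hμ hc0.le) hsp (fun v => mul_nonneg hc0.le (hν v)) (mul_nonneg hc0.le hρ) htot
    (by
      have : T - ε0 ≤ X := by linarith
      exact this)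
  have hfin := hnear V G h hS hN (fun j => by
    have h1 := hh j
    have h2 : h j ≠ h (finRotate l j) := by
      intro h3
      rw [← h3] at h1
      simp only [hμ.diag, mul_zero] at h1
      linarith
    have h3 := hcl _ _ h2
    have h4 : (1 - δ') * (m / l) ≤ μ (h j) (h (finRotate l j)) := by
      have h5 : μ (h j) (h (finRotate l j)) = (m / l) * (c * μ (h j) (h (finRotate l j))) := by
        rw [← mul_assoc]
        have h6 : m / l * c = 1 := by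
          rw [hc]
          field_simp
        rw [h6, one_mul]
      rw [h5, mul_comm]
      exact mul_le_mul_of_nonneg_left h1 hml0
    have h5 : (1 - δ') * y ≤ m / l := by
      rw [hy, ← mul_div_assoc]
      exact div_le_div_of_nonneg_right hA.le hL0.le
    have h6 : (1 - δ') * ((1 - δ') * y) ≤ (1 - δ') * (m / l) :=
      mul_le_mul_of_nonneg_left h5 (by linarith)
    have h7 : ε * n ≤ δ' * y := by
      rw [hny, ← mul_assoc]
      exact mul_le_mul_of_nonneg_right e4 hy0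
    rw [hn]
    have h8 : 0 ≤ δ' * δ' * y := by positivity
    have h9 : (1 - δ) * y ≤ (1 - 3 * δ') * y := by
      refine mul_le_mul_of_nonneg_right ?_ hy0
      linarith
    change (1 - δ) * y ≤ _
    have h10 : (1 - δ') * ((1 - δ') * y) = (1 - 2 * δ') * y + δ' * δ' * y := by ring
    have h11 : (1 - 3 * δ') * y = (1 - 2 * δ') * y - δ' * y := by ring
    linarith)
  rw [hn] at hfin
  have h1 : K1 * n ^ l ≤ |K1| * n ^ l := mul_le_mul_of_nonneg_right (le_abs_self _)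
    (pow_nonneg hn0 _)
  linarith

theorem tk_upper {l : ℕ} (hl : 3 ≤ l) (hst : ST l) (hne : NE l) : ∃ K : ℝ, ∀ (V : Type) [Fintype V]
    (G : SimpleGraph V), P5.Sparse6 G → P5.NoK33m G →
    Tk G (2 * l + 2) ≤ 16 * l * (l + 1) * ((Fintype.card V : ℝ) / l) ^ (l + 1)
      + K * (Fintype.card V : ℝ) ^ l := by
  have hl1 : 1 ≤ l := by omega
  have hl2 : 2 ≤ l := by omega
  have hL : (1 : ℝ) ≤ (l : ℝ) := by exact_mod_cast hl1
  have hL0 : (0 : ℝ) < (l : ℝ) := by linarith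
  obtain ⟨δ, K1, hδ, hnear⟩ := hne
  have hδ' : 0 < min δ 1 / 4 := by
    have := lt_min hδ one_pos
    linarith
  obtain ⟨ε0, hε0, hstab⟩ := stab hl hst hδ'
  have hT0 : (0 : ℝ) < 16 * l * (l + 1) := by positivity
  obtain ⟨ε, hε, q1, q2, q3, q4⟩ := fas_eps 1 (16 * l * (l + 1) * (min δ 1 / 4)) (min ε0 1)
    (min δ 1 / 4) ((l : ℝ) ^ (l + 1)) (16 * l * (l + 1) * 2 ^ (l + 1) + (l : ℝ) ^ (l + 1)) l
    one_pos (mul_pos hT0 hδ') (lt_min hε0 one_pos) hδ' (by positivity) (by positivity) hL0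
  obtain ⟨K2, hK2⟩ := part_a hl2 hε
  refine ⟨|K1| + |K2| ^ (l + 2), fun V _ G hS hN => ?_⟩
  have hn0 : (0 : ℝ) ≤ (Fintype.card V : ℝ) := Nat.cast_nonneg _
  by_cases hn : K2 ≤ (Fintype.card V : ℝ)
  · obtain ⟨μ, ν, ρ, hμ, hν, hρ, hm, hcl, hT⟩ := hK2 V G hS hN hn
    have h1 := fas_main G hl hst (δ := δ) (δ' := min δ 1 / 4) (ε0 := ε0) (ε1 := min ε0 1) (ε := ε)
      (K1 := K1) hδ' (by have := min_le_right δ 1; linarith)
      (by have := min_le_left δ 1; linarith) (lt_min hε0 one_pos) (min_le_right _ _)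
      (min_le_left _ _) hε q1 q2 q3 q4 hstab hnear hS hN hμ hν hρ hm hcl hT
    have h2 : 0 ≤ |K2| ^ (l + 2) * (Fintype.card V : ℝ) ^ l := by positivity
    rw [add_mul]
    linarith
  · push Not at hn
    have h1 := fas_crude G (2 * l + 2)
    have h2 : (Fintype.card V : ℝ) ^ (2 * l + 2)
        = (Fintype.card V : ℝ) ^ (l + 2) * (Fintype.card V : ℝ) ^ l := by
      rw [← pow_add]
      congr 1
      ring
    have h3 : (Fintype.card V : ℝ) ^ (l + 2) ≤ |K2| ^ (l + 2) :=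
      pow_le_pow_left₀ hn0 (hn.le.trans (le_abs_self _)) _
    have h4 := mul_le_mul_of_nonneg_right h3 (pow_nonneg hn0 l)
    have h5 : 0 ≤ |K1| * (Fintype.card V : ℝ) ^ l := by positivity
    have h6 : 0 ≤ 16 * (l : ℝ) * (l + 1) * ((Fintype.card V : ℝ) / l) ^ (l + 1) := by positivity
    rw [add_mul]
    linarith


theorem upper {l : ℕ} (hl : 3 ≤ l) (hst : ST l) (hne : NE l) : ∃ K : ℝ, ∀ (V : Type) [Fintype V]
    (G : SimpleGraph V), P5.IsPlanar G →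
    (G.copyCount (SimpleGraph.pathGraph (2 * l + 2)) : ℝ)
      ≤ 8 * l * (l + 1) * ((Fintype.card V : ℝ) / l) ^ (l + 1)
        + K * (Fintype.card V : ℝ) ^ l := by
  obtain ⟨K, hK⟩ := tk_upper hl hst hne
  refine ⟨K / 2, fun V _ G hG => ?_⟩
  have h1 := hK V G (P5.sparse6_of_planar G hG) (P5.noK33m_of_planar G hG)
  have h2 := copy_le G (2 * l + 2) (by omega)
  have h3 : 2 * (G.copyCount (SimpleGraph.pathGraph (2 * l + 2)) : ℝ)
      ≤ 2 * (8 * l * (l + 1) * ((Fintype.card V : ℝ) / l) ^ (l + 1)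
        + K / 2 * (Fintype.card V : ℝ) ^ l) := by
    calc 2 * (G.copyCount (SimpleGraph.pathGraph (2 * l + 2)) : ℝ) ≤ Tk G (2 * l + 2) := h2
      _ ≤ 16 * l * (l + 1) * ((Fintype.card V : ℝ) / l) ^ (l + 1)
          + K * (Fintype.card V : ℝ) ^ l := h1
      _ = _ := by ring
  linarith

end

end Pool.Agent.Lib.MP_009d13_co.SP
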