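import Pool.Agent.Lib.MP_009d13_co.SP.NLF

/-!
# SP.BDW (60 min): paths and two further pairs

`l = k + 1`, `k ≥ 1`. For `g : Fin l → V` injective and pairs `p`, `q` let
`Φ (g, p, q) = ((g 0, g 1), ..., (g (l-2), g (l-1)), p, q)` (a tuple of `l + 1 = k + 2` pairs:
`Fin.snoc (Fin.snoc (fun i : Fin k => (g i.castSucc, g i.succ)) p) q`). `Φ` is injective (the pairs
determine `g` as `k ≥ 1`), `pt μ (Φ ..) = pw μ (ofFn g) * μ p * μ q`, and `vs (Φ ..)` contains the `l`
values of `g`; so it has at least `l + 1` elements unless both `p` and `q` have their ends in the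
range of `g`. The sum over all `(p, q)` of `μ p μ q` is `(2 ms μ ∅) ^ 2`, the sum over the pairs inside
is `(∑ a ∈ S, ∑ b ∈ S, μ a b) ^ 2`. All other tuples contribute `≥ 0` to `BAD`.
-/

set_option autoImplicit false

namespace Pool.Agent.Lib.MP_009d13_co.SP

open Finset Classical
open Pool.Agent.Lib.MP_009d13_co.OD

noncomputable section

variable {V : Type} [Fintype V]

/-- The tuple of a path and two further pairs. -/
private def bdwΦ {m : ℕ} (g : Fin (m + 2) → V) (p q : V × V) : Fin (m + 2 + 1) → V × V :=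
  Fin.snoc (α := fun _ => V × V) (Fin.snoc (α := fun _ => V × V)
    (fun i : Fin (m + 1) => (g i.castSucc, g i.succ)) p) q

private theorem bdw_inj {m : ℕ} {g g' : Fin (m + 2) → V} {p p' q q' : V × V}
    (h : bdwΦ g p q = bdwΦ g' p' q') : g = g' ∧ p = p' ∧ q = q' := by
  unfold bdwΦ at h
  obtain ⟨h1, h2⟩ := Fin.snoc_injective2 h
  obtain ⟨h3, h4⟩ := Fin.snoc_injective2 h1
  refine ⟨?_, h4, h2⟩
  funext j
  refine Fin.lastCases ?_ (fun i => ?_) j
  · have := congrFun h3 (Fin.last m)
    simp only [Prod.mk.injEq] at this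
    rw [← Fin.succ_last]
    exact this.2
  · have := congrFun h3 i
    simp only [Prod.mk.injEq] at this
    exact this.1

private theorem bdw_pt (μ : V → V → ℝ) {m : ℕ} (g : Fin (m + 2) → V) (p q : V × V) :
    pt μ (bdwΦ g p q) = pw μ (List.ofFn g) * μ p.1 p.2 * μ q.1 q.2 := by
  unfold pt bdwΦ
  rw [Fin.prod_univ_castSucc, Fin.prod_univ_castSucc, pw_ofFn μ (m + 1) g]
  simp only [Fin.snoc_castSucc, Fin.snoc_last]

private theorem bdw_vs {m : ℕ} (g : Fin (m + 2) → V) (p q : V × V) :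
    (∀ j, g j ∈ vs (bdwΦ g p q)) ∧ p.1 ∈ vs (bdwΦ g p q) ∧ p.2 ∈ vs (bdwΦ g p q) ∧
      q.1 ∈ vs (bdwΦ g p q) ∧ q.2 ∈ vs (bdwΦ g p q) := by
  have m1 : ∀ j, (bdwΦ g p q j).1 ∈ vs (bdwΦ g p q) := fun j => by
    unfold vs
    exact Finset.mem_union_left _
      (Finset.mem_image_of_mem (fun i => (bdwΦ g p q i).1) (Finset.mem_univ j))
  have m2 : ∀ j, (bdwΦ g p q j).2 ∈ vs (bdwΦ g p q) := fun j => by
    unfold vs
    exact Finset.mem_union_right _
      (Finset.mem_image_of_mem (fun i => (bdwΦ g p q i).2) (Finset.mem_univ j))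
  have e1 : ∀ i : Fin (m + 1), bdwΦ g p q i.castSucc.castSucc = (g i.castSucc, g i.succ) := by
    intro i
    unfold bdwΦ
    rw [Fin.snoc_castSucc, Fin.snoc_castSucc]
  have e2 : bdwΦ g p q (Fin.last (m + 1)).castSucc = p := by
    unfold bdwΦ
    rw [Fin.snoc_castSucc, Fin.snoc_last]
  have e3 : bdwΦ g p q (Fin.last (m + 2)) = q := by
    unfold bdwΦ
    rw [Fin.snoc_last]
  refine ⟨fun j => ?_, ?_, ?_, ?_, ?_⟩
  · refine Fin.lastCases ?_ (fun i => ?_) j
    · have := m2 (Fin.last m).castSucc.castSucc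
      rw [e1, Fin.succ_last] at this
      exact this
    · have := m1 i.castSucc.castSucc
      rw [e1] at this
      exact this
  · have := m1 (Fin.last (m + 1)).castSucc
    rw [e2] at this
    exact this
  · have := m2 (Fin.last (m + 1)).castSucc
    rw [e2] at this
    exact this
  · have := m1 (Fin.last (m + 2))
    rw [e3] at this
    exact this
  · have := m2 (Fin.last (m + 2))
    rw [e3] at this
    exact this

private theorem bdw_card {m : ℕ} (g : Fin (m + 2) → V) (hg : Function.Injective g) (p q : V × V)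
    (x : V) (hx : x ∈ vs (bdwΦ g p q)) (hxS : x ∉ Finset.univ.image g) :
    m + 2 + 1 ≤ (vs (bdwΦ g p q)).card := by
  calc m + 2 + 1 = (insert x (Finset.univ.image g)).card := by
        rw [Finset.card_insert_of_notMem hxS, Finset.card_image_of_injective _ hg,
          Finset.card_univ, Fintype.card_fin]
    _ ≤ _ := by
        apply Finset.card_le_card
        intro y hy
        rcases Finset.mem_insert.1 hy with rfl | hy
        · exact hx
        · obtain ⟨j, -, rfl⟩ := Finset.mem_image.1 hy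
          exact (bdw_vs g p q).1 j

theorem paths_le_bad {μ : V → V → ℝ} (h : Wt μ) {l : ℕ} (hl : 2 ≤ l) :
    ∑ L ∈ NL (∅ : Finset V) l, pw μ L *
      ((2 * ms μ ∅) ^ 2 - (∑ a ∈ L.toFinset, ∑ b ∈ L.toFinset, μ a b) ^ 2) ≤ BAD l μ := by
  obtain ⟨m, rfl⟩ : ∃ m, l = m + 2 := ⟨l - 2, by omega⟩
  rw [sum_NL_fun]
  set bad : (Fin (m + 2 + 1) → V × V) → ℝ :=
    fun φ => (if m + 2 + 1 ≤ (vs φ).card then 1 else 0) * pt μ φ with hbad
  have hbad0 : ∀ φ, 0 ≤ bad φ := by
    intro φ
    simp only [hbad]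
    apply mul_nonneg
    · split_ifs <;> norm_num
    · exact Finset.prod_nonneg fun i _ => h.nonneg _ _
  have hA : 2 * ms μ ∅ = ∑ p : V × V, μ p.1 p.2 := by
    unfold ms
    rw [Finset.compl_empty, Fintype.sum_prod_type]
    ring
  have hpw : ∀ g : Fin (m + 2) → V, 0 ≤ pw μ (List.ofFn g) := by
    intro g
    rw [pw_ofFn μ (m + 1) g]
    exact Finset.prod_nonneg fun i _ => h.nonneg _ _
  have hstep : ∀ g : Fin (m + 2) → V, (if Function.Injective g then pw μ (List.ofFn g) *
      ((2 * ms μ ∅) ^ 2 - (∑ a ∈ (List.ofFn g).toFinset, ∑ b ∈ (List.ofFn g).toFinset,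
        μ a b) ^ 2) else 0) ≤ ∑ p : V × V, ∑ q : V × V, bad (bdwΦ g p q) := by
    intro g
    by_cases hg : Function.Injective g
    · rw [if_pos hg]
      set S := (List.ofFn g).toFinset with hS
      have hSi : ∀ x, x ∈ S ↔ x ∈ Finset.univ.image g := by
        intro x
        rw [hS, List.mem_toFinset, List.mem_ofFn, Finset.mem_image]
        constructor
        · rintro ⟨i, rfl⟩
          exact ⟨i, Finset.mem_univ _, rfl⟩
        · rintro ⟨i, -, rfl⟩
          exact ⟨i, rfl⟩
      set ι : V × V → ℝ := fun p => if p.1 ∈ S ∧ p.2 ∈ S then μ p.1 p.2 else 0 with hι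
      have hB : ∑ a ∈ S, ∑ b ∈ S, μ a b = ∑ p : V × V, ι p := by
        rw [Fintype.sum_prod_type]
        simp only [hι]
        have e1 : ∀ a : V, (∑ b : V, if a ∈ S ∧ b ∈ S then μ a b else 0) =
            if a ∈ S then ∑ b ∈ S, μ a b else 0 := by
          intro a
          by_cases ha : a ∈ S
          · simp only [ha, true_and, if_true]
            rw [← Finset.sum_filter, Finset.filter_mem_eq_inter, Finset.univ_inter]
          · simp [ha]
        simp only [e1]
        rw [← Finset.sum_filter, Finset.filter_mem_eq_inter, Finset.univ_inter]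
      rw [hA, hB, sq, sq, Finset.sum_mul_sum, Finset.sum_mul_sum, ← Finset.sum_sub_distrib,
        Finset.mul_sum]
      apply Finset.sum_le_sum
      intro p _
      rw [← Finset.sum_sub_distrib, Finset.mul_sum]
      apply Finset.sum_le_sum
      intro q _
      by_cases hc : (p.1 ∈ S ∧ p.2 ∈ S) ∧ (q.1 ∈ S ∧ q.2 ∈ S)
      · simp only [hι]
        rw [if_pos hc.1, if_pos hc.2, sub_self, mul_zero]
        exact hbad0 _
      · have hz : ι p * ι q = 0 := by
          simp only [hι]
          by_cases c1 : p.1 ∈ S ∧ p.2 ∈ S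
          · have c2 : ¬ (q.1 ∈ S ∧ q.2 ∈ S) := fun c2 => hc ⟨c1, c2⟩
            rw [if_neg c2, mul_zero]
          · rw [if_neg c1, zero_mul]
        have hcard : m + 2 + 1 ≤ (vs (bdwΦ g p q)).card := by
          obtain ⟨-, v1, v2, v3, v4⟩ := bdw_vs g p q
          by_cases c1 : p.1 ∈ S
          · by_cases c2 : p.2 ∈ S
            · by_cases c3 : q.1 ∈ S
              · have c4 : q.2 ∉ S := fun c4 => hc ⟨⟨c1, c2⟩, ⟨c3, c4⟩⟩
                exact bdw_card g hg p q _ v4 (fun hx => c4 ((hSi _).2 hx))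
              · exact bdw_card g hg p q _ v3 (fun hx => c3 ((hSi _).2 hx))
            · exact bdw_card g hg p q _ v2 (fun hx => c2 ((hSi _).2 hx))
          · exact bdw_card g hg p q _ v1 (fun hx => c1 ((hSi _).2 hx))
        simp only [hbad]
        rw [if_pos hcard, one_mul, bdw_pt, hz, sub_zero, mul_assoc]
    · rw [if_neg hg]
      exact Finset.sum_nonneg fun p _ => Finset.sum_nonneg fun q _ => hbad0 _
  refine (Finset.sum_le_sum fun g _ => hstep g).trans ?_
  have hinj : Function.Injective (fun x : (Fin (m + 2) → V) × (V × V) × (V × V) =>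
      bdwΦ x.1 x.2.1 x.2.2) := by
    intro x y hxy
    obtain ⟨h1, h2, h3⟩ := bdw_inj hxy
    exact Prod.ext h1 (Prod.ext h2 h3)
  have hsum : ∑ g : Fin (m + 2) → V, ∑ p : V × V, ∑ q : V × V, bad (bdwΦ g p q) =
      ∑ x : (Fin (m + 2) → V) × (V × V) × (V × V), bad (bdwΦ x.1 x.2.1 x.2.2) := by
    rw [Fintype.sum_prod_type]
    apply Finset.sum_congr rfl
    intro g _
    exact (Fintype.sum_prod_type (fun y : (V × V) × (V × V) => bad (bdwΦ g y.1 y.2))).symm
  rw [hsum]
  have himg : ∑ x : (Fin (m + 2) → V) × (V × V) × (V × V), bad (bdwΦ x.1 x.2.1 x.2.2) =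
      ∑ φ ∈ Finset.univ.image (fun x : (Fin (m + 2) → V) × (V × V) × (V × V) =>
        bdwΦ x.1 x.2.1 x.2.2), bad φ := by
    rw [Finset.sum_image]
    intro x _ y _ hxy
    exact hinj hxy
  rw [himg]
  unfold BAD TS
  exact Finset.sum_le_sum_of_subset_of_nonneg (Finset.subset_univ _) (fun φ _ _ => hbad0 φ)

end

end Pool.Agent.Lib.MP_009d13_co.SP
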