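import Pool.Agent.Lib.MP_009d13_co.OD.RD
import Pool.Agent.Lib.MP_009d13_co.OD.KA
import Pool.Agent.Lib.MP_009d13_co.SP.Defs

/-!
# SP.RST (50 min): restriction of a weight to a set of `l` hubs

`rr S μ` is the restriction. `rr_wt`, `rr_le`, `rr_ms`: immediate (`ms` with `A = ∅`, `compl_empty`).
`rr_hubs`: a hub with positive degree lies in `S`.
`rr_entry`: `μ a b - rr S μ a b ≤ ms μ ∅ - ms (rr S μ) ∅` (as `stb_entry` of OD.STB: the difference
is a weight, `le_un`, `un_le_ms`).
`rr_ze`: with `c = l / m0`, `m0 = ms (rr S μ) ∅`: `|μ a b - c rr S μ a b| ≤ (μ a b - rr S μ a b) +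
(c - 1) rr S μ a b ≤ (l - m0) + (c - 1) m0 = 2 (l - m0)` (`rr S μ a b ≤ m0`); for every embedding `h`:
`|rs l μ h - rs l (c rr S μ) h| ≤ l * 2 (l - m0)`; pass to the infimum (`ze`; if there is no embedding both
are `0`, `Real.iInf_of_isEmpty`; else `ze_attained` needs `l ≤ card V`, or `ciInf_le` with `kb_bdd` and
`le_ciInf`).
-/

set_option autoImplicit false

namespace Pool.Agent.Lib.MP_009d13_co.SP

open Finset Classical
open Pool.Agent.Lib.MP_009d13_co.OD

noncomputable section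

variable {V : Type} [Fintype V]

/-- Restriction of a weight to the pairs inside `S`. -/
def rr (S : Finset V) (μ : V → V → ℝ) (a b : V) : ℝ := if a ∈ S ∧ b ∈ S then μ a b else 0

theorem rr_wt (S : Finset V) {μ : V → V → ℝ} (h : Wt μ) : Wt (rr S μ) where
  symm a b := by
    unfold rr
    rw [h.symm a b]
    simp only [and_comm]
  diag a := by
    unfold rr
    rw [h.diag a, ite_self]
  nonneg a b := by
    unfold rr
    split_ifs
    · exact h.nonneg a b
    · exact le_rfl

theorem rr_le (S : Finset V) {μ : V → V → ℝ} (h : Wt μ) (a b : V) : rr S μ a b ≤ μ a b := by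
  unfold rr
  split_ifs
  · exact le_rfl
  · exact h.nonneg a b

theorem rr_sum (S : Finset V) (μ : V → V → ℝ) (a : V) :
    ∑ b, rr S μ a b = if a ∈ S then ∑ b ∈ S, μ a b else 0 := by
  unfold rr
  by_cases ha : a ∈ S
  · simp only [ha, true_and, if_true]
    rw [← Finset.sum_filter]
    congr 1
    ext b
    simp
  · simp [ha]

theorem rr_ms (S : Finset V) (μ : V → V → ℝ) :
    ms (rr S μ) ∅ = (∑ a ∈ S, ∑ b ∈ S, μ a b) / 2 := by
  rw [ka_ms]
  congr 1
  simp only [rr_sum]
  rw [← Finset.sum_filter]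
  congr 1
  ext b
  simp

theorem rr_hubs (S : Finset V) {μ : V → V → ℝ} (h : Wt μ) (c : ℝ) :
    (univ.filter fun v => 0 < dg (fun a b => c * rr S μ a b) v).card ≤ S.card := by
  refine Finset.card_le_card fun v hv => ?_
  have h1 := (Finset.mem_filter.1 hv).2
  by_contra hS
  have h2 : dg (fun a b => c * rr S μ a b) v = 0 := by
    unfold dg
    rw [← Finset.mul_sum, rr_sum, if_neg hS, mul_zero]
  rw [h2] at h1
  exact lt_irrefl _ h1

theorem rr_ms_le (S : Finset V) {μ : V → V → ℝ} (h : Wt μ) : ms (rr S μ) ∅ ≤ ms μ ∅ := by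
  rw [ka_ms, ka_ms]
  have h1 : ∑ a, ∑ b, rr S μ a b ≤ ∑ a, ∑ b, μ a b :=
    Finset.sum_le_sum fun a _ => Finset.sum_le_sum fun b _ => rr_le S h a b
  linarith

theorem rr_ze (S : Finset V) {μ : V → V → ℝ} (h : Wt μ) {l : ℕ} (hl : 1 ≤ l) (hm : ms μ ∅ = l)
    (h0 : 0 < ms (rr S μ) ∅) :
    ze l μ ≤ ze l (fun a b => l / ms (rr S μ) ∅ * rr S μ a b) +
      l * (2 * (l - ms (rr S μ) ∅)) := by
  have hle := rr_ms_le S h
  rw [hm] at hle
  rcases Nat.eq_or_lt_of_le hl with h1 | h2
  · subst h1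
    have h3 : ∀ μ' : V → V → ℝ, (∀ a, μ' a a = 0) → ∀ g : Fin 1 ↪ V, rs 1 μ' g = 1 := by
      intro μ' hμ' g
      unfold rs
      simp only [Finset.univ_unique, Fin.default_eq_zero, Finset.sum_singleton]
      have h4 : finRotate 1 0 = 0 := Subsingleton.elim _ _
      rw [h4, hμ']
      norm_num
    have h5 : ze 1 μ = ze 1 (fun a b => ((1 : ℕ) : ℝ) / ms (rr S μ) ∅ * rr S μ a b) := by
      unfold ze
      congr 1
      funext g
      rw [h3 μ h.diag g, h3 _ (fun a => by rw [(rr_wt S h).diag a, mul_zero]) g]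
    rw [← h5]
    have h6 : (0 : ℝ) ≤ ((1 : ℕ) : ℝ) * (2 * (((1 : ℕ) : ℝ) - ms (rr S μ) ∅)) := by
      push_cast at hle ⊢
      nlinarith
    linarith
  · set m0 := ms (rr S μ) ∅ with hm0
    have h3 := (abs_le.1 (ze_lip l μ (fun a b => l / m0 * rr S μ a b))).2
    have hc : (1 : ℝ) ≤ l / m0 := by
      rw [le_div_iff₀ h0]
      linarith
    have h4 : ∑ a, ∑ b, |μ a b - l / m0 * rr S μ a b| ≤
        ∑ a, ∑ b, ((μ a b - rr S μ a b) + (l / m0 - 1) * rr S μ a b) := by
      refine Finset.sum_le_sum fun a _ => Finset.sum_le_sum fun b _ => ?_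
      have h5 := rr_le S h a b
      have h6 := (rr_wt S h).nonneg a b
      have h7 : 0 ≤ (l / m0 - 1) * rr S μ a b := mul_nonneg (by linarith) h6
      rw [abs_le]
      constructor <;> nlinarith
    have h5 : ∑ a, ∑ b, ((μ a b - rr S μ a b) + (l / m0 - 1) * rr S μ a b) =
        2 * (l - m0) + (l / m0 - 1) * (2 * m0) := by
      have h6 : ∑ a, ∑ b, μ a b = 2 * l := by
        have := ka_ms μ
        rw [hm] at this
        linarith
      have h7 : ∑ a, ∑ b, rr S μ a b = 2 * m0 := by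
        have := ka_ms (rr S μ)
        rw [← hm0] at this
        linarith
      simp only [Finset.sum_add_distrib, Finset.sum_sub_distrib, ← Finset.mul_sum]
      rw [h6, h7]
      ring
    have h6 : (l / m0 - 1) * (2 * m0) = 2 * (l - m0) := by
      field_simp
    have h7 : (2 : ℝ) ≤ l := by
      exact_mod_cast h2
    have h8 : 4 * (l - m0) ≤ l * (2 * (l - m0)) := by nlinarith
    linarith

end

end Pool.Agent.Lib.MP_009d13_co.SP
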