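import Pool.Agent.Lib.MP_009d13_co.OD.RA
import Pool.Agent.Lib.MP_009d13_co.OD.EI
import Pool.Agent.Lib.MP_009d13_co.OD.NRW

/-!
# SP.SPWO: `Wo` near a ring, first order

For `R ≤ μ` and `D ≤ d` one has the exact inequality
`Wo μ d l ≤ Wo R D l + 2 ∑ (d - D) v * En μ d l v + ∑ (μ - R) a b * So μ d l a b`.
Applied with `R` = the links of the ring and `D = dg R`; `Wo R (dg R) l ≤ 8 l (M / l) ^ (l + 1)` by
`ra_le` and homogeneity.
-/

set_option autoImplicit false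

namespace Pool.Agent.Lib.MP_009d13_co.SP

open Finset Classical
open Pool.Agent.Lib.MP_009d13_co.OD

noncomputable section

variable {V : Type} [Fintype V]

/-! ### Comparison of two weights -/

theorem spwo_pw {R μ : V → V → ℝ} (hR : ∀ a b, 0 ≤ R a b) (hRμ : ∀ a b, R a b ≤ μ a b)
    (L : List V) : pw μ L ≤ pw R L + EIJ μ (fun a b => μ a b - R a b) L := by
  have hμ : ∀ a b, 0 ≤ μ a b := fun a b => (hR a b).trans (hRμ a b)
  have hκ : ∀ a b, 0 ≤ μ a b - R a b := fun a b => sub_nonneg.2 (hRμ a b)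
  induction L with
  | nil => simp [EIJ, pw]
  | cons a t ih =>
    cases t with
    | nil => simp [EIJ, pw]
    | cons b t =>
      rw [EIJ_cons]
      have h1 : pw μ (a :: b :: t) = μ a b * pw μ (b :: t) := rfl
      have h2 : pw R (a :: b :: t) = R a b * pw R (b :: t) := rfl
      rw [h1, h2]
      have h4 := EIJ_nonneg hμ hκ (b :: t)
      have h5 := mul_le_mul_of_nonneg_left ih (hR a b)
      have h6 := mul_le_mul_of_nonneg_right (hRμ a b) h4
      have h7 : μ a b * pw μ (b :: t) = R a b * pw μ (b :: t)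
          + (μ a b - R a b) * pw μ (b :: t) := by ring
      have h8 : R a b * (pw R (b :: t) + EIJ μ (fun a b => μ a b - R a b) (b :: t))
          = R a b * pw R (b :: t) + R a b * EIJ μ (fun a b => μ a b - R a b) (b :: t) := by ring
      rw [h8] at h5
      linarith

theorem spwo_cmp {R μ : V → V → ℝ} (hμs : Wt μ) (hR : ∀ a b, 0 ≤ R a b)
    (hRμ : ∀ a b, R a b ≤ μ a b) {D d : V → ℝ} (hD : ∀ v, 0 ≤ D v) (hDd : ∀ v, D v ≤ d v) {l : ℕ}
    (hl : 1 ≤ l) :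
    Wo μ d l ≤ Wo R D l + 2 * ∑ v, (d v - D v) * En μ d l v
      + ∑ a, ∑ b, (μ a b - R a b) * So μ d l a b := by
  have hμ : ∀ a b, 0 ≤ μ a b := fun a b => (hR a b).trans (hRμ a b)
  have hκ : ∀ a b, 0 ≤ μ a b - R a b := fun a b => sub_nonneg.2 (hRμ a b)
  have hd0 : ∀ v, 0 ≤ d v := fun v => (hD v).trans (hDd v)
  have hx0 : ∀ v, 0 ≤ d v - D v := fun v => sub_nonneg.2 (hDd v)
  have hA : ∑ v, (d v - D v) * En μ d l v
      = ∑ L ∈ NL (∅ : Finset V) l, hd (fun v => d v - D v) L * pw μ L * ls d L :=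
    EI_en μ (fun v => d v - D v) d hl
  have hB : ∑ L ∈ NL (∅ : Finset V) l, hd d L * pw μ L * ls (fun v => d v - D v) L
      = ∑ L ∈ NL (∅ : Finset V) l, hd (fun v => d v - D v) L * pw μ L * ls d L :=
    wo_rev hμs d (fun v => d v - D v) l
  have hC : ∑ a, ∑ b, (μ a b - R a b) * So μ d l a b
      = ∑ L ∈ NL (∅ : Finset V) l, hd d L * EIJ μ (fun a b => μ a b - R a b) L * ls d L := by
    rw [EI_sum_J, EI_cc]
    rfl
  have hsum : Wo R D l + 2 * ∑ v, (d v - D v) * En μ d l v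
      + ∑ a, ∑ b, (μ a b - R a b) * So μ d l a b
      = ∑ L ∈ NL (∅ : Finset V) l, (hd D L * pw R L * ls D L
        + hd (fun v => d v - D v) L * pw μ L * ls d L
        + hd d L * pw μ L * ls (fun v => d v - D v) L
        + hd d L * EIJ μ (fun a b => μ a b - R a b) L * ls d L) := by
    rw [sum_add_distrib, sum_add_distrib, sum_add_distrib, hC, hB, hA, Wo]
    ring
  rw [hsum, Wo]
  refine sum_le_sum fun L hL => ?_
  have hne := EI_ne hL hl
  have e1 : hd d L = hd D L + hd (fun v => d v - D v) L := by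
    rw [← EI_hd_add D (fun v => d v - D v) hne]
    congr 1
    funext v
    ring
  have e2 : ls d L = ls D L + ls (fun v => d v - D v) L := by
    rw [← EI_ls_add D (fun v => d v - D v) hne]
    congr 1
    funext v
    ring
  have p1 : 0 ≤ hd D L := hd_nonneg hD L
  have p2 : 0 ≤ ls D L := ls_nonneg hD L
  have p3 : 0 ≤ hd (fun v => d v - D v) L := hd_nonneg hx0 L
  have p4 : 0 ≤ ls (fun v => d v - D v) L := ls_nonneg hx0 L
  have p5 : 0 ≤ pw R L := pw_nonneg R hR L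
  have p6 : pw R L ≤ pw μ L := pw_mono hR hRμ L
  have p7 : 0 ≤ EIJ μ (fun a b => μ a b - R a b) L := EIJ_nonneg hμ hκ L
  have p8 := spwo_pw hR hRμ L
  have q1 : hd d L * pw μ L * ls d L
      ≤ hd d L * pw R L * ls d L + hd d L * EIJ μ (fun a b => μ a b - R a b) L * ls d L := by
    have := mul_le_mul_of_nonneg_left p8 (mul_nonneg (hd_nonneg hd0 L) (ls_nonneg hd0 L))
    nlinarith
  refine q1.trans ?_
  rw [e1, e2]
  obtain ⟨x, hx⟩ : ∃ x, x = hd (fun v => d v - D v) L := ⟨_, rfl⟩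
  obtain ⟨y, hy⟩ : ∃ y, y = ls (fun v => d v - D v) L := ⟨_, rfl⟩
  obtain ⟨X, hX⟩ : ∃ X, X = hd D L := ⟨_, rfl⟩
  obtain ⟨Y, hY⟩ : ∃ Y, Y = ls D L := ⟨_, rfl⟩
  obtain ⟨r, hr⟩ : ∃ r, r = pw R L := ⟨_, rfl⟩
  obtain ⟨m, hm⟩ : ∃ m, m = pw μ L := ⟨_, rfl⟩
  rw [← hx] at p3 ⊢
  rw [← hy] at p4 ⊢
  rw [← hX] at p1 ⊢
  rw [← hY] at p2 ⊢
  rw [← hr] at p5 p6 ⊢
  rw [← hm] at p6 ⊢
  have m0 : 0 ≤ m := p5.trans p6
  have k1 : x * r * (Y + y) ≤ x * m * (Y + y) :=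
    mul_le_mul_of_nonneg_right (mul_le_mul_of_nonneg_left p6 p3) (add_nonneg p2 p4)
  have k2 : X * r * y ≤ (X + x) * m * y := by
    refine mul_le_mul_of_nonneg_right ?_ p4
    exact mul_le_mul (by linarith) p6 p5 (by linarith)
  have k3 : (X + x) * r * (Y + y) = X * r * Y + x * r * (Y + y) + X * r * y := by ring
  linarith

/-! ### The ring inequality for every mass -/

theorem spwo_mass {R : V → V → ℝ} (hR : Wt R) {l : ℕ} (hl : 2 ≤ l) :
    Wo R (dg R) l ≤ 8 * l * (ms R ∅ / l) ^ (l + 1) := by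
  have hl0 : (0 : ℝ) < l := by exact_mod_cast (show 0 < l by omega)
  have hM0 : 0 ≤ ms R ∅ := ms_nonneg hR ∅
  rcases hM0.lt_or_eq with hM | hM
  · have hc0 : 0 < (l : ℝ) / ms R ∅ := div_pos hl0 hM
    have hcW : Wt (fun a b => (l : ℝ) / ms R ∅ * R a b) :=
      ⟨fun a b => by rw [hR.symm], fun a => by rw [hR.diag, mul_zero],
        fun a b => mul_nonneg hc0.le (hR.nonneg a b)⟩
    have hdg : dg (fun a b => (l : ℝ) / ms R ∅ * R a b) = fun a => (l : ℝ) / ms R ∅ * dg R a := by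
      funext a
      unfold dg
      rw [mul_sum]
    have hms : ms (fun a b => (l : ℝ) / ms R ∅ * R a b) ∅ = l := by
      have h1 : ms (fun a b => (l : ℝ) / ms R ∅ * R a b) ∅ = (l : ℝ) / ms R ∅ * ms R ∅ := by
        unfold ms
        rw [mul_div_assoc', mul_sum]
        congr 1
        refine sum_congr rfl fun a _ => ?_
        rw [mul_sum]
      rw [h1]
      exact div_mul_cancel₀ _ hM.ne'
    have h2 := ra_le hcW hl hms
    rw [hdg, EI_wo_smul R (dg R) _ (by omega : 1 ≤ l)] at h2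
    have h3 : (ms R ∅ / l) ^ (l + 1) * ((l : ℝ) / ms R ∅) ^ (l + 1) = 1 := by
      rw [← mul_pow]
      have : ms R ∅ / l * ((l : ℝ) / ms R ∅) = 1 := by
        field_simp
      rw [this, one_pow]
    have h4 : 0 ≤ (ms R ∅ / l) ^ (l + 1) := by positivity
    calc Wo R (dg R) l = (ms R ∅ / l) ^ (l + 1) * (((l : ℝ) / ms R ∅) ^ (l + 1) * Wo R (dg R) l) := by
          rw [← mul_assoc, h3, one_mul]
      _ ≤ (ms R ∅ / l) ^ (l + 1) * (8 * l) := mul_le_mul_of_nonneg_left h2 h4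
      _ = 8 * l * (ms R ∅ / l) ^ (l + 1) := by ring
  · have h1 : ∑ z, dg R z = 0 := by rw [sum_dg, ← hM]; ring
    have h2 : ∀ z, dg R z = 0 := fun z => by
      have := (sum_eq_zero_iff_of_nonneg (fun z _ => ra_dg_nonneg hR z)).1 h1 z (mem_univ z)
      exact this
    have h3 : Wo R (dg R) l = 0 := by
      unfold Wo
      refine sum_eq_zero fun L hL => ?_
      obtain ⟨y, L', rfl⟩ := EI_cons (EI_ne hL (by omega))
      have : hd (dg R) (y :: L') = 0 := h2 y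
      rw [this]
      ring
    rw [h3, ← hM]
    positivity

/-! ### The ring part of a weight -/

/-- The links of the ring. -/
def spR {l : ℕ} (h : Fin l ↪ V) (μ : V → V → ℝ) (a b : V) : ℝ :=
  if ∃ j, (a = h j ∧ b = h (finRotate l j)) ∨ (b = h j ∧ a = h (finRotate l j)) then μ a b else 0

theorem spR_wt {l : ℕ} (h : Fin l ↪ V) {μ : V → V → ℝ} (hμ : Wt μ) : Wt (spR h μ) := by
  refine ⟨fun a b => ?_, fun a => ?_, fun a b => ?_⟩
  · unfold spR
    rw [hμ.symm a b]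
    congr 1
    refine propext ⟨fun ⟨j, hj⟩ => ⟨j, hj.symm⟩, fun ⟨j, hj⟩ => ⟨j, hj.symm⟩⟩
  · unfold spR
    rw [hμ.diag]
    simp
  · unfold spR
    split_ifs
    · exact hμ.nonneg a b
    · exact le_refl _

theorem spR_le {l : ℕ} (h : Fin l ↪ V) {μ : V → V → ℝ} (hμ : Wt μ) (a b : V) :
    spR h μ a b ≤ μ a b := by
  unfold spR
  split_ifs
  · exact le_refl _
  · exact hμ.nonneg a b

theorem spR_iff {l : ℕ} (h : Fin l ↪ V) (μ : V → V → ℝ) (i j : Fin l) :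
    spR h μ (h i) (h j) = if j = finRotate l i ∨ i = finRotate l j then μ (h i) (h j) else 0 := by
  unfold spR
  congr 1
  refine propext ⟨?_, ?_⟩
  · rintro ⟨k, ⟨h1, h2⟩ | ⟨h1, h2⟩⟩
    · left
      rw [h.injective h1, h.injective h2]
    · right
      rw [h.injective h1, h.injective h2]
  · rintro (h1 | h1)
    · exact ⟨i, Or.inl ⟨rfl, by rw [h1]⟩⟩
    · exact ⟨j, Or.inr ⟨rfl, by rw [h1]⟩⟩

theorem spR_out {l : ℕ} (h : Fin l ↪ V) {μ : V → V → ℝ}
    (hout : ∀ a b, (∀ i, h i ≠ a) → μ a b = 0) (a b : V) (ha : ∀ i, h i ≠ a) :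
    spR h μ a b = 0 := by
  unfold spR
  rw [hout a b ha]
  simp

theorem spR_ch {l : ℕ} (h : Fin l ↪ V) (μ : V → V → ℝ) (i : Fin l) : ch h (spR h μ) i = 0 := by
  unfold ch
  refine sum_eq_zero fun j hj => ?_
  rw [mem_filter] at hj
  rw [spR_iff, if_neg]
  rintro (h1 | h1)
  · exact hj.2.2.1 h1
  · exact hj.2.2.2 h1

theorem spR_deg {μ : V → V → ℝ} (hμ : Wt μ) {l : ℕ} (hl : 3 ≤ l) (h : Fin l ↪ V)
    (hout : ∀ a b, (∀ i, h i ≠ a) → μ a b = 0) (i : Fin l) :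
    dg (spR h μ) (h i) + ch h μ i = dg μ (h i) := by
  rw [nrw_deg hμ hl h hout i, nrw_deg (spR_wt h hμ) hl h (spR_out h hout) i, spR_ch, spR_iff,
    spR_iff, if_pos (Or.inl rfl), if_pos (Or.inl rfl), add_zero]

theorem spR_ms {μ : V → V → ℝ} (hμ : Wt μ) {l : ℕ} (hl : 3 ≤ l) (h : Fin l ↪ V)
    (hout : ∀ a b, (∀ i, h i ≠ a) → μ a b = 0) :
    ms (spR h μ) ∅ = ∑ j, μ (h j) (h (finRotate l j)) := by
  have h1 := sum_dg (spR h μ)
  rw [rc_sum_range h (dg (spR h μ)) (fun a ha => by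
    unfold dg
    exact sum_eq_zero fun b _ => spR_out h hout a b ha)] at h1
  have h2 : ∑ i, dg (spR h μ) (h i) = 2 * ∑ j, μ (h j) (h (finRotate l j)) := by
    have h3 : ∀ i, dg (spR h μ) (h i) = μ (h i) (h (finRotate l i))
        + μ (h ((finRotate l).symm i)) (h (finRotate l ((finRotate l).symm i))) := fun i => by
      rw [nrw_deg (spR_wt h hμ) hl h (spR_out h hout) i, spR_ch, spR_iff, spR_iff,
        if_pos (Or.inl rfl), if_pos (Or.inl rfl), add_zero]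
    rw [sum_congr rfl fun i _ => h3 i, sum_add_distrib,
      Equiv.sum_comp (finRotate l).symm fun j => μ (h j) (h (finRotate l j))]
    ring
  linarith

/-! ### The bound with the values of `En` and `So` -/

theorem spwo_main {μ : V → V → ℝ} (hμ : Wt μ) {ν : V → ℝ} (hν : ∀ v, 0 ≤ ν v) {l : ℕ}
    (hl : 3 ≤ l) (h : Fin l ↪ V) (hout : ∀ a b, (∀ i, h i ≠ a) → μ a b = 0)
    (hνo : ∀ a, (∀ i, h i ≠ a) → ν a = 0) {E S : ℝ}
    (hE : ∀ i, En μ (dn μ ν) l (h i) ≤ E)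
    (hS : ∀ i j, i ≠ j → j ≠ finRotate l i → i ≠ finRotate l j →
      So μ (dn μ ν) l (h i) (h j) ≤ S) :
    Wo μ (dn μ ν) l ≤ 8 * l * ((∑ j, μ (h j) (h (finRotate l j))) / l) ^ (l + 1)
      + 2 * E * (∑ i, ch h μ i + ∑ v, ν v) + S * ∑ i, ch h μ i := by
  have hch0 : ∀ i, 0 ≤ ch h μ i := fun i => by
    unfold ch
    exact sum_nonneg fun j _ => hμ.nonneg _ _
  have hdgout : ∀ a, (∀ i, h i ≠ a) → dg μ a = 0 := fun a ha => by
    unfold dg
    exact sum_eq_zero fun b _ => hout a b ha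
  have hdRout : ∀ a, (∀ i, h i ≠ a) → dg (spR h μ) a = 0 := fun a ha => by
    unfold dg
    exact sum_eq_zero fun b _ => spR_out h hout a b ha
  have hDd : ∀ v, dg (spR h μ) v ≤ dn μ ν v := fun v => by
    have h1 : dg (spR h μ) v ≤ dg μ v := by
      unfold dg
      exact sum_le_sum fun b _ => spR_le h hμ v b
    have := hν v
    unfold dn
    linarith
  have h1 := spwo_cmp hμ (spR_wt h hμ).nonneg (spR_le h hμ)
    (fun v => ra_dg_nonneg (spR_wt h hμ) v) hDd (by omega : 1 ≤ l)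
  have h2 := spwo_mass (spR_wt h hμ) (by omega : 2 ≤ l)
  rw [spR_ms hμ hl h hout] at h2
  have h3 : ∑ v, (dn μ ν v - dg (spR h μ) v) * En μ (dn μ ν) l v
      ≤ E * (∑ i, ch h μ i + ∑ v, ν v) := by
    rw [rc_sum_range h (fun v => (dn μ ν v - dg (spR h μ) v) * En μ (dn μ ν) l v) (fun a ha => by
      unfold dn
      rw [hdgout a ha, hdRout a ha, hνo a ha]
      ring), rc_sum_range h ν hνo, ← sum_add_distrib, mul_sum]
    refine sum_le_sum fun i _ => ?_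
    have e1 : dn μ ν (h i) - dg (spR h μ) (h i) = ch h μ i + ν (h i) := by
      unfold dn
      rw [← spR_deg hμ hl h hout i]
      ring
    rw [e1, mul_comm]
    exact mul_le_mul_of_nonneg_right (hE i) (add_nonneg (hch0 i) (hν _))
  have h4 : ∑ a, ∑ b, (μ a b - spR h μ a b) * So μ (dn μ ν) l a b ≤ S * ∑ i, ch h μ i := by
    rw [rc_sum_range h (fun a => ∑ b, (μ a b - spR h μ a b) * So μ (dn μ ν) l a b) (fun a ha => by
      refine sum_eq_zero fun b _ => ?_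
      rw [hout a b ha, spR_out h hout a b ha]
      ring), mul_sum]
    refine sum_le_sum fun i _ => ?_
    rw [rc_sum_range h (fun b => (μ (h i) b - spR h μ (h i) b) * So μ (dn μ ν) l (h i) b)
      (fun b hb => by
        rw [hμ.symm, hout b _ hb, (spR_wt h hμ).symm, spR_out h hout b _ hb]
        ring)]
    unfold ch
    rw [mul_sum, ← sum_filter_add_sum_filter_not univ
      (fun j => j ≠ i ∧ j ≠ finRotate l i ∧ i ≠ finRotate l j)]
    have e2 : ∑ j ∈ univ.filter (fun j => ¬ (j ≠ i ∧ j ≠ finRotate l i ∧ i ≠ finRotate l j)),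
        (μ (h i) (h j) - spR h μ (h i) (h j)) * So μ (dn μ ν) l (h i) (h j) = 0 := by
      refine sum_eq_zero fun j hj => ?_
      rw [mem_filter] at hj
      have e3 : μ (h i) (h j) - spR h μ (h i) (h j) = 0 := by
        rw [spR_iff]
        split_ifs with h5
        · ring
        · by_cases h6 : j = i
          · rw [h6, hμ.diag, sub_zero]
          · exfalso
            rw [not_or] at h5
            exact hj.2 ⟨h6, h5.1, h5.2⟩
      rw [e3, zero_mul]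
    rw [e2, add_zero]
    refine sum_le_sum fun j hj => ?_
    rw [mem_filter] at hj
    rw [spR_iff, if_neg (by
      rintro (h5 | h5)
      · exact hj.2.2.1 h5
      · exact hj.2.2.2 h5), sub_zero, mul_comm]
    exact mul_le_mul_of_nonneg_right (hS i j hj.2.1.symm hj.2.2.1 hj.2.2.2) (hμ.nonneg _ _)
  linarith

/-! ### First order -/

/-- `(1 - x) ^ n ≤ 1 - n x + n ^ 2 x ^ 2`. -/
theorem spwo_pow {x : ℝ} (h0 : 0 ≤ x) (h1 : x ≤ 1) (n : ℕ) :
    (1 - x) ^ n ≤ 1 - n * x + n ^ 2 * x ^ 2 := by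
  induction n with
  | zero => simp
  | succ n ih =>
    rw [pow_succ]
    have h2 : (1 - x) ^ n * (1 - x) ≤ (1 - n * x + n ^ 2 * x ^ 2) * (1 - x) :=
      mul_le_mul_of_nonneg_right ih (by linarith)
    refine h2.trans ?_
    push_cast
    have h3 : 0 ≤ (n : ℝ) := Nat.cast_nonneg n
    have h4 : 0 ≤ (n : ℝ) * x ^ 2 := by positivity
    have h5 : 0 ≤ (n : ℝ) ^ 2 * x ^ 2 * x := by positivity
    have h6 : 0 ≤ x ^ 2 := sq_nonneg x
    nlinarith

theorem spwo_pow3 {x : ℝ} (h0 : 0 ≤ x) (h1 : x ≤ 1) (n : ℕ) : (1 + x) ^ n ≤ 1 + 3 ^ n * x := by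
  induction n with
  | zero => simp; exact h0
  | succ n ih =>
    rw [pow_succ]
    have h2 : (1 + x) ^ n * (1 + x) ≤ (1 + 3 ^ n * x) * (1 + x) :=
      mul_le_mul_of_nonneg_right ih (by linarith)
    refine h2.trans ?_
    have h3 : (1 : ℝ) ≤ 3 ^ n := one_le_pow₀ (by norm_num)
    have h4 : 0 ≤ (3 : ℝ) ^ n * x := by positivity
    have h5 : (3 : ℝ) ^ n * x * x ≤ 3 ^ n * x * 1 := mul_le_mul_of_nonneg_left h1 h4
    have h6 : 1 * x ≤ (3 : ℝ) ^ n * x := mul_le_mul_of_nonneg_right h3 h0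
    rw [pow_succ]
    nlinarith

/-- The exact values of `En` and of `So` at a chord, up to first order. -/
def SpRB (l : ℕ) : Prop := ∃ C : ℝ, 0 ≤ C ∧ ∀ (V : Type) [Fintype V]
    (h : Fin l ↪ V) (μ : V → V → ℝ) (d : V → ℝ) (Y τ : ℝ), Wt μ → 0 ≤ τ → τ ≤ Y →
    (∀ j, μ (h j) (h (finRotate l j)) ≤ Y) →
    (∀ i j, i ≠ j → j ≠ finRotate l i → i ≠ finRotate l j → μ (h i) (h j) ≤ τ) →
    (∀ a b, (∀ i, h i ≠ a) → μ a b = 0) → (∀ a, 0 ≤ d a) → (∀ i, d (h i) ≤ 2 * Y + τ) →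
    (∀ a, (∀ i, h i ≠ a) → d a = 0) →
    (∀ i, En μ d l (h i) ≤ 4 * Y ^ l + C * τ * Y ^ (l - 1)) ∧
    (∀ i j, i ≠ j → j ≠ finRotate l i → i ≠ finRotate l j →
      So μ d l (h i) (h j) ≤ 8 * Y ^ l + C * τ * Y ^ (l - 1))

/-- `Wo` near a ring: the loss is `8 (l + 1)` per unit of mass outside the ring classes, a chord of
mass `c` gives back `32 c` (it is counted twice in `∑ i, ch h μ i`), a private class `8`. -/
theorem wo_ring_s {l : ℕ} (hl : 3 ≤ l) (hRB : SpRB l) {η : ℝ} (hη : 0 < η) :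
    ∃ δ : ℝ, 0 < δ ∧ δ ≤ 1 / 10 ∧ ∀ (V : Type) [Fintype V] (μ : V → V → ℝ) (ν : V → ℝ) (ρ : ℝ)
      (h : Fin l ↪ V), Wt μ → (∀ v, 0 ≤ ν v) → 0 ≤ ρ →
      (∀ j, μ (h j) (h (finRotate l j)) ≤ 1 + δ) →
      (∀ a b, (∀ i, h i ≠ a) → μ a b = 0) → (∀ a, (∀ i, h i ≠ a) → ν a = 0) →
      ms μ ∅ + ∑ v, ν v + ρ = l → l - ∑ j, μ (h j) (h (finRotate l j)) ≤ δ →
      Wo μ (dn μ ν) l ≤ 8 * l - (8 * (l + 1) - η) * (l - ∑ j, μ (h j) (h (finRotate l j)))
        + 16 * ∑ i, ch h μ i + 8 * ∑ v, ν v := by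
  obtain ⟨C0, hC0, hRB⟩ := hRB
  have hl0 : (3 : ℝ) ≤ l := by exact_mod_cast hl
  obtain ⟨K, hK⟩ : ∃ K : ℝ, K = 4 * 3 ^ l + 2 * C0 * 2 ^ l := ⟨_, rfl⟩
  have hK0 : 0 ≤ K := by rw [hK]; positivity
  have hden : 0 < 10 * K + 8 * ((l : ℝ) + 1) ^ 2 := by positivity
  refine ⟨min (1 / 10) (η / (10 * K + 8 * ((l : ℝ) + 1) ^ 2)), by positivity, min_le_left _ _, ?_⟩
  obtain ⟨δ, hδ⟩ : ∃ δ, δ = min (1 / 10) (η / (10 * K + 8 * ((l : ℝ) + 1) ^ 2)) := ⟨_, rfl⟩
  rw [← hδ]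
  have hδ0 : 0 < δ := by rw [hδ]; positivity
  have hδ1 : δ ≤ 1 / 10 := hδ ▸ min_le_left _ _
  have hδ2 : δ * (10 * K + 8 * ((l : ℝ) + 1) ^ 2) ≤ η := by
    have h1 : δ ≤ η / (10 * K + 8 * ((l : ℝ) + 1) ^ 2) := hδ ▸ min_le_right _ _
    exact (le_div_iff₀ hden).1 h1
  intro V _ μ ν ρ h hμ hν hρ hY hout hνo hm hoff
  obtain ⟨M, hM⟩ : ∃ M : ℝ, M = ∑ j, μ (h j) (h (finRotate l j)) := ⟨_, rfl⟩
  obtain ⟨N, hN⟩ : ∃ N : ℝ, N = ∑ v, ν v := ⟨_, rfl⟩
  obtain ⟨X, hX⟩ : ∃ X : ℝ, X = ∑ i, ch h μ i := ⟨_, rfl⟩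
  have hN0 : 0 ≤ N := hN ▸ sum_nonneg fun v _ => hν v
  have hch0 : ∀ i, 0 ≤ ch h μ i := fun i => by
    unfold ch
    exact sum_nonneg fun j _ => hμ.nonneg _ _
  have hX0 : 0 ≤ X := hX ▸ sum_nonneg fun i _ => hch0 i
  have hchX : ∀ i, ch h μ i ≤ X := fun i => by
    rw [hX]
    exact single_le_sum (fun i _ => hch0 i) (mem_univ i)
  have hνN : ∀ v, ν v ≤ N := fun v => by
    rw [hN]
    exact single_le_sum (fun i _ => hν i) (mem_univ v)
  have hdout : ∀ a, (∀ i, h i ≠ a) → dg μ a = 0 := fun a ha => by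
    unfold dg
    exact sum_eq_zero fun b _ => hout a b ha
  have hD : ∑ i, dg μ (h i) = 2 * ms μ ∅ := by
    rw [← sum_dg, rc_sum_range h (dg μ) hdout]
  have hS : ∑ i, dg μ (h i) = 2 * M + X := by
    rw [sum_congr rfl fun i _ => nrw_deg hμ hl h hout i, sum_add_distrib, sum_add_distrib,
      Equiv.sum_comp (finRotate l).symm fun j => μ (h j) (h (finRotate l j)), ← hM, ← hX]
    ring
  rw [← hM] at hoff ⊢
  rw [← hN] at hm ⊢
  rw [← hX]
  have hoff' : (l : ℝ) - M = X / 2 + N + ρ := by linarith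
  obtain ⟨o, ho⟩ : ∃ o : ℝ, o = l - M := ⟨_, rfl⟩
  rw [← ho] at hoff hoff' ⊢
  have ho0 : 0 ≤ o := by rw [hoff']; positivity
  have hXo : X ≤ 2 * o := by linarith
  have hNo : N ≤ o := by linarith
  have hXN : X + N ≤ 2 * o := by linarith
  -- the values
  have hdn0 : ∀ a, 0 ≤ dn μ ν a := fun a => add_nonneg (ra_dg_nonneg hμ a) (hν a)
  obtain ⟨hE, hSo⟩ := hRB V h μ (dn μ ν) (1 + δ) (2 * δ) hμ (by linarith) (by linarith) hY
    (fun i j h1 h2 h3 => by
      have e1 : μ (h i) (h j) ≤ ch h μ i := by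
        unfold ch
        exact single_le_sum (f := fun j => μ (h i) (h j)) (fun j _ => hμ.nonneg _ _)
          (mem_filter.2 ⟨mem_univ j, h1.symm, h2, h3⟩)
      have := hchX i
      linarith)
    hout hdn0
    (fun i => by
      unfold dn
      rw [nrw_deg hμ hl h hout i]
      have := hY i
      have := hY ((finRotate l).symm i)
      have := hchX i
      have := hνN (h i)
      linarith)
    (fun a ha => by
      unfold dn
      rw [hdout a ha, hνo a ha, add_zero])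
  have hp3 := spwo_pow3 hδ0.le (by linarith) l
  have hp2 : (1 + δ) ^ (l - 1) ≤ 2 ^ l := by
    calc (1 + δ) ^ (l - 1) ≤ 2 ^ (l - 1) := pow_le_pow_left₀ (by linarith) (by linarith) _
      _ ≤ 2 ^ l := pow_le_pow_right₀ (by norm_num) (by omega)
  have hCδ : C0 * (2 * δ) * (1 + δ) ^ (l - 1) ≤ 2 * C0 * 2 ^ l * δ := by
    have := mul_le_mul_of_nonneg_left hp2 (by positivity : 0 ≤ C0 * (2 * δ))
    linarith
  have hEK : ∀ i, En μ (dn μ ν) l (h i) ≤ 4 + K * δ := fun i => by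
    refine (hE i).trans ?_
    rw [hK]
    linarith
  have hSK : ∀ i j, i ≠ j → j ≠ finRotate l i → i ≠ finRotate l j →
      So μ (dn μ ν) l (h i) (h j) ≤ 8 + 2 * K * δ := fun i j h1 h2 h3 => by
    refine (hSo i j h1 h2 h3).trans ?_
    have e1 : 0 ≤ 2 * C0 * 2 ^ l * δ := by positivity
    rw [hK]
    linarith
  have hmain := spwo_main hμ hν hl h hout hνo hEK hSK
  rw [← hM, ← hX, ← hN] at hmain
  refine hmain.trans ?_
  -- the power
  have hMl : M / l = 1 - o / l := by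
    rw [ho]
    field_simp
    ring
  have hol0 : 0 ≤ o / l := by positivity
  have hol1 : o / l ≤ 1 := by
    rw [div_le_one (by linarith)]
    linarith
  have hpow := spwo_pow hol0 hol1 (l + 1)
  rw [hMl]
  push_cast at hpow
  have h8l : 0 ≤ 8 * (l : ℝ) := by positivity
  have hpow2 := mul_le_mul_of_nonneg_left hpow h8l
  have e1 : 8 * (l : ℝ) * (1 - (l + 1) * (o / l) + (l + 1) ^ 2 * (o / l) ^ 2)
      = 8 * l - 8 * (l + 1) * o + 8 * (l + 1) ^ 2 * (o ^ 2 / l) := by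
    field_simp
  rw [e1] at hpow2
  have e2 : o ^ 2 / l ≤ δ * o := by
    rw [div_le_iff₀ (by linarith)]
    have : o * o ≤ δ * o := mul_le_mul_of_nonneg_right hoff ho0
    have h3 : δ * o * 1 ≤ δ * o * l := mul_le_mul_of_nonneg_left (by linarith) (by positivity)
    nlinarith
  have e3 : 8 * ((l : ℝ) + 1) ^ 2 * (o ^ 2 / l) ≤ 8 * (l + 1) ^ 2 * (δ * o) :=
    mul_le_mul_of_nonneg_left e2 (by positivity)
  have e4 : δ * (10 * K + 8 * ((l : ℝ) + 1) ^ 2) * o ≤ η * o :=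
    mul_le_mul_of_nonneg_right hδ2 ho0
  have e5 : K * δ * X ≤ K * δ * (2 * o) := mul_le_mul_of_nonneg_left hXo (by positivity)
  have e6 : K * δ * N ≤ K * δ * o := mul_le_mul_of_nonneg_left hNo (by positivity)
  nlinarith

end

end Pool.Agent.Lib.MP_009d13_co.SP
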