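import Pool.Agent.Lib.MP_009d13_co.SP.SPRB
import Pool.Agent.Lib.MP_009d13_co.SP.SPWO

/-! SPA: `Wo` near a ring, first order with exact constants. -/

set_option autoImplicit false

namespace Pool.Agent.Lib.MP_009d13_co.SP

open Finset Classical
open Pool.Agent.Lib.MP_009d13_co.OD

noncomputable section

/-- The chords at one hub are counted twice in the sum over all hubs. -/
theorem spa_ch {V : Type} [Fintype V] {l : ℕ} (h : Fin l ↪ V) {μ : V → V → ℝ} (hμ : Wt μ)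
    (i : Fin l) : 2 * ch h μ i ≤ ∑ k, ch h μ k := by
  have h0 : ∀ k, 0 ≤ ch h μ k := fun k => by
    unfold ch
    exact sum_nonneg fun j _ => hμ.nonneg _ _
  have h1 : ∑ k, ch h μ k = ch h μ i + ∑ k ∈ univ.erase i, ch h μ k :=
    (add_sum_erase univ (fun k => ch h μ k) (mem_univ i)).symm
  have h2 : ch h μ i ≤ ∑ k ∈ univ.erase i, ch h μ k := by
    have h3 : ch h μ i = ∑ j ∈ univ.filter (fun j => j ≠ i ∧ j ≠ finRotate l i ∧
        i ≠ finRotate l j), μ (h j) (h i) := by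
      unfold ch
      exact sum_congr rfl fun j _ => hμ.symm _ _
    rw [h3]
    refine (sum_le_sum fun j hj => ?_).trans (sum_le_sum_of_subset_of_nonneg (fun j hj => ?_)
      fun k _ _ => h0 k)
    · rw [mem_filter] at hj
      unfold ch
      exact single_le_sum (f := fun i => μ (h j) (h i)) (fun j _ => hμ.nonneg _ _)
        (mem_filter.2 ⟨mem_univ i, hj.2.1.symm, hj.2.2.2, hj.2.2.1⟩)
    · rw [mem_filter] at hj
      exact mem_erase.2 ⟨hj.2.1, mem_univ j⟩
  linarith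

theorem sp_wo_ring {l : ℕ} (hl : 3 ≤ l) : ∃ C : ℝ, 0 ≤ C ∧ ∀ (V : Type) [Fintype V]
    (h : Fin l ↪ V) (μ : V → V → ℝ) (ν : V → ℝ) (x Y τ c N : ℝ), Wt μ → (∀ v, 0 ≤ ν v) →
    (∀ a b, (∀ i, h i ≠ a) → μ a b = 0) → (∀ a, (∀ i, h i ≠ a) → ν a = 0) →
    0 ≤ x → τ ≤ Y → (∀ j, μ (h j) (h (finRotate l j)) ≤ Y) →
    ∑ j, μ (h j) (h (finRotate l j)) = l * x →
    (∀ j, |μ (h j) (h (finRotate l j)) - x| ≤ x / 50) →
    ∑ i, ch h μ i = 2 * c → ∑ v, ν v = N → c + N ≤ τ →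
    Wo μ (dn μ ν) l ≤ 8 * l * x ^ (l + 1) + (32 * c + 8 * N) * Y ^ l
      + C * τ * (c + N) * Y ^ (l - 1) := by
  obtain ⟨C0, hC0, hRB⟩ := sp_ring_bounds hl
  refine ⟨6 * C0, by positivity, ?_⟩
  intro V _ h μ ν x Y τ c N hμ hν hout hνo hx hτY hY hsum _ hc hN hcN
  have hl0 : (3 : ℝ) ≤ l := by exact_mod_cast hl
  have hch0 : ∀ i, 0 ≤ ch h μ i := fun i => by
    unfold ch
    exact sum_nonneg fun j _ => hμ.nonneg _ _
  have hc0 : 0 ≤ c := by
    have := sum_nonneg fun i (_ : i ∈ univ) => hch0 i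
    linarith
  have hN0 : 0 ≤ N := hN ▸ sum_nonneg fun v _ => hν v
  have hτ0 : 0 ≤ τ := by linarith
  have hY0 : 0 ≤ Y := by linarith
  have hchc : ∀ i, ch h μ i ≤ c := fun i => by
    have := spa_ch h hμ i
    linarith
  have hνN : ∀ v, ν v ≤ N := fun v => by
    rw [← hN]
    exact single_le_sum (fun i _ => hν i) (mem_univ v)
  have hdout : ∀ a, (∀ i, h i ≠ a) → dg μ a = 0 := fun a ha => by
    unfold dg
    exact sum_eq_zero fun b _ => hout a b ha
  have hdn0 : ∀ a, 0 ≤ dn μ ν a := fun a => add_nonneg (ra_dg_nonneg hμ a) (hν a)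
  obtain ⟨hE, -, hSo⟩ := hRB V h μ (dn μ ν) Y τ hμ hτ0 hτY hY
    (fun i j h1 h2 h3 => by
      have e1 : μ (h i) (h j) ≤ ch h μ i := by
        unfold ch
        exact single_le_sum (f := fun j => μ (h i) (h j)) (fun j _ => hμ.nonneg _ _)
          (mem_filter.2 ⟨mem_univ j, h1.symm, h2, h3⟩)
      have := hchc i
      linarith)
    hout hdn0
    (fun i => by
      unfold dn
      rw [nrw_deg hμ hl h hout i]
      have := hY i
      have := hY ((finRotate l).symm i)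
      have := hchc i
      have := hνN (h i)
      linarith)
    (fun a ha => by
      unfold dn
      rw [hdout a ha, hνo a ha, add_zero])
  have hmain := spwo_main hμ hν hl h hout hνo hE hSo
  have hx2 : (l : ℝ) * x / l = x := by
    field_simp
  rw [hsum, hc, hN, hx2] at hmain
  refine hmain.trans ?_
  have hP : 0 ≤ Y ^ (l - 1) := pow_nonneg hY0 _
  have e1 : 0 ≤ C0 * τ * Y ^ (l - 1) := by positivity
  have e2 : 0 ≤ C0 * τ * Y ^ (l - 1) * N := mul_nonneg e1 hN0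
  nlinarith

end

end Pool.Agent.Lib.MP_009d13_co.SP
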