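import Pool.Agent.Lib.MP_009d13_co.SP.SPRB

/-!
# The values near a ring for all hubs

Hubs outside the ring have value `0`; the suprema `gm` and `em`.
-/

set_option autoImplicit false

namespace Pool.Agent.Lib.MP_009d13_co.SP

open Finset Classical
open Pool.Agent.Lib.MP_009d13_co.OD

noncomputable section

theorem spg_En_out {V : Type} [Fintype V] {l : ℕ} (h : Fin l ↪ V) {μ : V → V → ℝ} (hμ : Wt μ)
    {d : V → ℝ} (hz : ∀ a b, (∀ i, h i ≠ a) → μ a b = 0) (hd0 : ∀ a, (∀ i, h i ≠ a) → d a = 0)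
    (hl : 1 ≤ l) {a : V} (ha : ∀ i, h i ≠ a) : En μ d l a = 0 := by
  unfold En
  refine Finset.sum_eq_zero fun L hL => ?_
  rw [mem_NL] at hL
  obtain ⟨hlen, -, -⟩ := hL
  cases L with
  | nil => simp at hlen; omega
  | cons x T =>
    change (if x = a then (1 : ℝ) else 0) * pw μ (x :: T) * ls d (x :: T) = 0
    by_cases hx : x = a
    · rw [mul_assoc, (nrs_offd hμ h hz hd0 (x :: T) ⟨x, by simp, by rw [hx]; exact ha⟩).2,
        mul_zero]
    · rw [if_neg hx]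
      ring

theorem spg_So_out {V : Type} [Fintype V] {l : ℕ} (h : Fin l ↪ V) {μ : V → V → ℝ} (hμ : Wt μ)
    {d : V → ℝ} (hz : ∀ a b, (∀ i, h i ≠ a) → μ a b = 0) (hd0 : ∀ a, (∀ i, h i ≠ a) → d a = 0)
    {a b : V} (hab : (∀ i, h i ≠ a) ∨ (∀ i, h i ≠ b)) : So μ d l a b = 0 := by
  unfold So CC
  refine Finset.sum_eq_zero fun i hi => Finset.sum_eq_zero fun P hP =>
    Finset.sum_eq_zero fun Q hQ => ?_
  rw [mem_range] at hi
  rw [mem_NL] at hP hQ
  obtain ⟨hlP, -, -⟩ := hP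
  obtain ⟨hlQ, -, -⟩ := hQ
  cases hr : P.reverse with
  | nil =>
    rw [List.reverse_eq_nil_iff] at hr
    rw [hr] at hlP
    simp at hlP
  | cons x T =>
    cases Q with
    | nil => simp at hlQ; omega
    | cons y T' =>
      have e1 : ls (fun u => hd (fun w => if u = a ∧ w = b then (1 : ℝ) else 0) (y :: T')) P =
          if x = a ∧ y = b then 1 else 0 := by
        unfold ls
        rw [hr]
        rfl
      rw [e1]
      by_cases hxy : x = a ∧ y = b
      · rcases hab with ha | hb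
        · have hx : x ∈ P := by
            rw [← List.mem_reverse, hr]
            simp
          rw [(nrs_offd hμ h hz hd0 P ⟨x, hx, by rw [hxy.1]; exact ha⟩).1]
          ring
        · have h2 := (nrs_offd hμ h hz hd0 (y :: T') ⟨y, by simp, by rw [hxy.2]; exact hb⟩).2
          rw [mul_assoc, h2, mul_zero]
      · rw [if_neg hxy]
        ring

theorem sp_values {l : ℕ} (hl : 3 ≤ l) : ∃ C : ℝ, 0 ≤ C ∧ ∀ (V : Type) [Fintype V]
    (h : Fin l ↪ V) (μ : V → V → ℝ) (d : V → ℝ) (Y τ : ℝ), Wt μ → 0 ≤ τ → τ ≤ Y →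
    (∀ j, μ (h j) (h (finRotate l j)) ≤ Y) →
    (∀ i j, i ≠ j → j ≠ finRotate l i → i ≠ finRotate l j → μ (h i) (h j) ≤ τ) →
    (∀ a b, (∀ i, h i ≠ a) → μ a b = 0) → (∀ a, 0 ≤ d a) → (∀ i, d (h i) ≤ 2 * Y + τ) →
    (∀ a, (∀ i, h i ≠ a) → d a = 0) →
    (∀ a, En μ d l a ≤ 4 * Y ^ l + C * τ * Y ^ (l - 1)) ∧
    (∀ a b, So μ d l a b ≤ 4 * (l - 1) * Y ^ l + C * τ * Y ^ (l - 1)) ∧
    (∀ i j, i ≠ j → j ≠ finRotate l i → i ≠ finRotate l j →
      So μ d l (h i) (h j) ≤ 8 * Y ^ l + C * τ * Y ^ (l - 1)) ∧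
    (∀ a, gm μ d l a ≤ 4 * (l + 1) * Y ^ l + 3 * (C * τ * Y ^ (l - 1))) ∧
    em μ d l ≤ 8 * Y ^ l + 2 * (C * τ * Y ^ (l - 1)) := by
  obtain ⟨C, hC0, hC⟩ := sp_ring_bounds hl
  refine ⟨C, hC0, ?_⟩
  intro V _ h μ d Y τ hμ hτ hτY hr hn hz hd0 hd1 hdz
  obtain ⟨k1, k2, k3⟩ := hC V h μ d Y τ hμ hτ hτY hr hn hz hd0 hd1 hdz
  have hY : 0 ≤ Y := hτ.trans hτY
  have hPl : 0 ≤ Y ^ l := pow_nonneg hY _
  have hE0 : 0 ≤ C * τ * Y ^ (l - 1) := mul_nonneg (mul_nonneg hC0 hτ) (pow_nonneg hY _)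
  have hl1 : (3 : ℝ) ≤ l := by exact_mod_cast hl
  have hEn : ∀ a, En μ d l a ≤ 4 * Y ^ l + C * τ * Y ^ (l - 1) := by
    intro a
    by_cases ha : ∀ i, h i ≠ a
    · rw [spg_En_out h hμ hz hdz (by omega) ha]
      positivity
    · push Not at ha
      obtain ⟨i, rfl⟩ := ha
      exact k1 i
  have hB0 : 0 ≤ 4 * ((l : ℝ) - 1) * Y ^ l + C * τ * Y ^ (l - 1) :=
    add_nonneg (mul_nonneg (by linarith) hPl) hE0
  have hSo : ∀ a b, So μ d l a b ≤ 4 * (l - 1) * Y ^ l + C * τ * Y ^ (l - 1) := by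
    intro a b
    by_cases ha : ∀ i, h i ≠ a
    · rw [spg_So_out h hμ hz hdz (Or.inl ha)]
      exact hB0
    · by_cases hb : ∀ i, h i ≠ b
      · rw [spg_So_out h hμ hz hdz (Or.inr hb)]
        exact hB0
      · push Not at ha hb
        obtain ⟨i, rfl⟩ := ha
        obtain ⟨j, rfl⟩ := hb
        by_cases hij : i = j
        · rw [hij, sp_So_self]
          exact hB0
        · exact k2 i j hij
  refine ⟨hEn, hSo, k3, fun a => ?_, ?_⟩
  · unfold gm
    refine Real.iSup_le (fun b => ?_) ?_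
    · split_ifs with hb
      · have : 0 ≤ 4 * ((l : ℝ) + 1) * Y ^ l := by positivity
        linarith
      · have h1 := hSo a b
        have h2 := hEn a
        have h3 := hEn b
        linarith
    · have : 0 ≤ 4 * ((l : ℝ) + 1) * Y ^ l := by positivity
      linarith
  · unfold OD.em
    refine Real.iSup_le (fun p => ?_) ?_
    · split_ifs with hb
      · linarith
      · have h2 := hEn p.1
        have h3 := hEn p.2
        linarith
    · linarith

end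

end Pool.Agent.Lib.MP_009d13_co.SP
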