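import Pool.Agent.Lib.MP_009d13_co.OD.PTA
import Pool.Agent.Lib.MP_009d13_co.OD.NRPC

/-! SPP: the pairs of low vertices, the vertices of the cover treated exactly.
`Q` from `exists_cover`; pairs without an end in `Q` as in `bd_main`; a vertex `x` outside `H`, `Q` and a bounded set has at most
two neighbours in `H ∪ Q` (`card_exc` for `H ∪ Q`), so a pair `x y` with `y ∈ Q` has `|kk x| <= 1`, and there is at most one such
`y` if `|kk x| = 1`, at most two if `|kk x| = 0`. -/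

set_option autoImplicit false

namespace Pool.Agent.Lib.MP_009d13_co.SP

open Finset Classical
open Pool.Agent.Lib.MP_009d13_co.OD
open Pool.Agent.Lib.MP_009d13_co.P5 (nb kk)

noncomputable section

variable {V : Type} [Fintype V] (G : SimpleGraph V) (H : Finset V)

/-- The pairs without an end in the cover. -/
theorem spp_good (hS : P5.Sparse6 G) {l : ℕ} (hl : 2 ≤ l)
    (hm : ms (mH G H) ∅ ≤ 2 * (Fintype.card V : ℝ))
    (hd : ∑ a, dH G H a ≤ 6 * (Fintype.card V : ℝ)) {Q : Finset V}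
    (hQ : ∀ z z', z ∉ Q → z' ∉ Q → z ∉ H → z' ∉ H → (z = z' ∨ G.Adj z z') →
      (kk G H z ∪ kk G H z').card ≤ 2) :
    ∑ p ∈ (P5.pr G Hᶜ Hᶜ).filter (fun p => ¬ (p.1 ∈ Q ∨ p.2 ∈ Q)), ps G H l p.1 p.2
      ≤ (∑ a ∈ H, ∑ b ∈ H.erase a, (P5.n2 G H a b : ℝ)
          * (2 * So (mH G H) (dH G H) l a b + 2 * En (mH G H) (dH G H) l a
            + 2 * En (mH G H) (dH G H) l b))
        + 4 * (∑ a ∈ H, (P5.n1 G H a : ℝ)
          * (En (mH G H) (dH G H) l a + gm (mH G H) (dH G H) l a))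
        + 6 * ((P5.n0 G H : ℝ) * em (mH G H) (dH G H) l)
        + 6 * (H.card : ℝ) * (40 * l * 2 ^ l * (Fintype.card V : ℝ) ^ l) := by
  set C : ℝ := 40 * l * 2 ^ l * (Fintype.card V : ℝ) ^ l with hC
  have hC0 : 0 ≤ C := by positivity
  set W : Finset V := Hᶜ \ Q with hW
  have hWH : Disjoint W H := by
    rw [Finset.disjoint_left]
    intro z hz
    rw [hW, mem_sdiff, mem_compl] at hz
    exact hz.1
  have hW2 : ∀ z ∈ W, (kk G H z).card ≤ 2 := by
    intro z hz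
    rw [hW, mem_sdiff, mem_compl] at hz
    have := hQ z z hz.2 hz.2 hz.1 hz.1 (Or.inl rfl)
    rwa [union_self] at this
  have hR : ∀ p ∈ P5.pr G Hᶜ Hᶜ, p.1 ∉ H ∧ p.2 ∉ H ∧ G.Adj p.1 p.2 := by
    intro p hp
    simpa [P5.pr] using hp
  set R : Finset (V × V) := (P5.pr G Hᶜ Hᶜ).filter (fun p => ¬ (p.1 ∈ Q ∨ p.2 ∈ Q)) with hRdef
  have hRm : ∀ p ∈ R, p.1 ∈ W ∧ p.2 ∈ W ∧ G.Adj p.1 p.2 := by
    intro p hp
    rw [hRdef, mem_filter, not_or] at hp
    have h := hR p hp.1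
    rw [hW]
    simp only [mem_sdiff, mem_compl]
    exact ⟨⟨h.1, hp.2.1⟩, ⟨h.2.1, hp.2.2⟩, h.2.2⟩
  have hgood : ∑ p ∈ R, ps G H l p.1 p.2 ≤ ∑ p ∈ R, min (ff G H l p.1) (ff G H l p.2) := by
    refine Finset.sum_le_sum fun p hp => ?_
    obtain ⟨h1, h2, h3⟩ := hRm p hp
    rw [hW, mem_sdiff, mem_compl] at h1 h2
    have h4 := hQ p.1 p.2 h1.2 h2.2 h1.1 h2.1 (Or.inr h3)
    refine le_min (ps_le_ff G H l h4) ?_
    rw [ps_comm]
    rw [union_comm] at h4
    exact ps_le_ff G H l h4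
  have hlayer := layer_real R W (fun z => ((3 - (kk G H z).card : ℕ) : ℝ)) (ff G H l)
    (3 * H.card : ℝ) C (fun _ => Nat.cast_nonneg _) (by positivity) (ff_nonneg G H l) hC0
    (fun z hz => ff_crude G H hl hm hd (hW2 z hz))
    (fun p hp => ⟨(hRm p hp).1, (hRm p hp).2.1⟩) (by
      intro Z hZ
      have h1 : (R.filter fun p => p.1 ∈ Z ∧ p.2 ∈ Z).card
          ≤ 2 * (∑ z ∈ Z, (3 - (kk G H z).card) + 3 * H.card) := by
        refine le_trans (card_le_card ?_)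
          (P5.cap G hS H Z (Finset.disjoint_of_subset_left hZ hWH) fun z hz => hW2 z (hZ hz))
        intro p hp
        rw [mem_filter] at hp
        have := hRm p hp.1
        simp only [P5.pr, mem_filter, mem_univ, true_and]
        exact ⟨hp.2.1, hp.2.2, this.2.2⟩
      exact_mod_cast h1)
  have hff := sum_ff G H l W hWH hW2
  have hcast : ∑ z ∈ W, ((3 - (kk G H z).card : ℕ) : ℝ) * ff G H l z
      = ∑ z ∈ W, (3 - ((kk G H z).card : ℝ)) * ff G H l z := by
    refine sum_congr rfl fun z hz => ?_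
    have := hW2 z hz
    rw [Nat.cast_sub (by omega)]
    norm_num
  rw [hcast] at hlayer
  have h1 := hgood.trans hlayer
  have h2 : 6 * (H.card : ℝ) * C = 2 * (3 * H.card * C) := by ring
  rw [h2]
  linarith

theorem spp_kk_sub (z : V) : kk G H z ⊆ H := by
  unfold P5.kk
  exact inter_subset_right

/-- A vertex without hubs. -/
theorem spp_ps0 (l : ℕ) {x : V} (hx : kk G H x = ∅) (y : V) :
    ps G H l x y ≤ ∑ b ∈ H, En (mH G H) (dH G H) l b := by
  have h1 : ∑ b ∈ kk G H y, En (mH G H) (dH G H) l b ≤ ∑ b ∈ H, En (mH G H) (dH G H) l b :=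
    Finset.sum_le_sum_of_subset_of_nonneg (spp_kk_sub G H y) fun b _ _ => (bda_nn G H l b b).2.1
  unfold ps
  rw [hx]
  simp only [Finset.sum_empty, zero_add]
  exact h1

/-- A vertex with one hub. -/
theorem spp_ps1 (l : ℕ) {x a : V} (hx : kk G H x = {a}) (y : V) :
    ps G H l x y ≤ ∑ b ∈ H, So (mH G H) (dH G H) l a b + En (mH G H) (dH G H) l a
      + ∑ b ∈ H, En (mH G H) (dH G H) l b := by
  have h1 : ∑ b ∈ kk G H y, En (mH G H) (dH G H) l b ≤ ∑ b ∈ H, En (mH G H) (dH G H) l b :=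
    Finset.sum_le_sum_of_subset_of_nonneg (spp_kk_sub G H y) fun b _ _ => (bda_nn G H l b b).2.1
  have h2 : ∑ b ∈ kk G H y, So (mH G H) (dH G H) l a b ≤ ∑ b ∈ H, So (mH G H) (dH G H) l a b :=
    Finset.sum_le_sum_of_subset_of_nonneg (spp_kk_sub G H y) fun b _ _ => (bda_nn G H l a b).1
  unfold ps
  rw [hx]
  simp only [Finset.sum_singleton]
  linarith

/-- The exceptional vertices. -/
def sppB (Q : Finset V) : Finset V := (H ∪ Q)ᶜ.filter fun z => 3 ≤ (kk G (H ∪ Q) z).card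

theorem spp_B_card (hK : P5.NoK33m G) {Q : Finset V}
    (hQc : Q.card ≤ 4 * H.card ^ 3) : (sppB G H Q).card ≤ 250 * H.card ^ 9 := by
  have h1 : (sppB G H Q).card ≤ 2 * (H ∪ Q).card ^ 3 := P5.card_exc G hK (H ∪ Q)
  have h2 : (H ∪ Q).card ≤ 5 * H.card ^ 3 := by
    refine (card_union_le _ _).trans ?_
    have : H.card ≤ H.card ^ 3 := Nat.le_self_pow (by norm_num) _
    omega
  have h3 : (H ∪ Q).card ^ 3 ≤ (5 * H.card ^ 3) ^ 3 := Nat.pow_le_pow_left h2 3
  have h4 : (5 * H.card ^ 3) ^ 3 = 125 * H.card ^ 9 := by ring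
  omega

/-- The pairs of one vertex with an end in the cover. -/
theorem spp_one {l : ℕ} (hl : 2 ≤ l)
    (hm : ms (mH G H) ∅ ≤ 2 * (Fintype.card V : ℝ))
    (hd : ∑ a, dH G H a ≤ 6 * (Fintype.card V : ℝ)) {Q : Finset V} (hQH : Disjoint Q H)
    {x : V} (hx : x ∈ Hᶜ) :
    ∑ y ∈ nb G x ∩ Q, ps G H l x y ≤
      (if x ∈ Q ∪ sppB G H Q then (Q.card : ℝ) * (40 * l * 2 ^ l * (Fintype.card V : ℝ) ^ l)
        else 0)
      + ∑ a ∈ H, (if kk G H x = {a} then (1 : ℝ) else 0) * (∑ b ∈ H, So (mH G H) (dH G H) l a b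
          + En (mH G H) (dH G H) l a + ∑ b ∈ H, En (mH G H) (dH G H) l b)
      + 2 * ((if kk G H x = ∅ then (1 : ℝ) else 0) * ∑ b ∈ H, En (mH G H) (dH G H) l b) := by
  set C : ℝ := 40 * l * 2 ^ l * (Fintype.card V : ℝ) ^ l with hC
  have hC0 : 0 ≤ C := by positivity
  have hEn : ∀ a, 0 ≤ En (mH G H) (dH G H) l a := fun a => (bda_nn G H l a a).2.1
  have hSo : ∀ a b, 0 ≤ So (mH G H) (dH G H) l a b := fun a b => (bda_nn G H l a b).1
  have hE0 : 0 ≤ ∑ b ∈ H, En (mH G H) (dH G H) l b := Finset.sum_nonneg fun b _ => hEn b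
  have hBB : ∀ a, 0 ≤ ∑ b ∈ H, So (mH G H) (dH G H) l a b
          + En (mH G H) (dH G H) l a + ∑ b ∈ H, En (mH G H) (dH G H) l b := fun a => by
    have h1 : 0 ≤ ∑ b ∈ H, So (mH G H) (dH G H) l a b := Finset.sum_nonneg fun b _ => hSo a b
    have h2 := hEn a
    linarith
  have t1 : 0 ≤ ∑ a ∈ H, (if kk G H x = {a} then (1 : ℝ) else 0) *
      (∑ b ∈ H, So (mH G H) (dH G H) l a b
          + En (mH G H) (dH G H) l a + ∑ b ∈ H, En (mH G H) (dH G H) l b) := by
    refine Finset.sum_nonneg fun a _ => mul_nonneg ?_ (hBB a)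
    split_ifs <;> norm_num
  have t2 : 0 ≤ 2 * ((if kk G H x = ∅ then (1 : ℝ) else 0) *
      ∑ b ∈ H, En (mH G H) (dH G H) l b) := by
    refine mul_nonneg (by norm_num) (mul_nonneg ?_ hE0)
    split_ifs <;> norm_num
  by_cases hxB : x ∈ Q ∪ sppB G H Q
  · rw [if_pos hxB]
    have h1 : ∑ y ∈ nb G x ∩ Q, ps G H l x y ≤ (nb G x ∩ Q).card • C :=
      Finset.sum_le_card_nsmul _ _ C fun y _ => ps_crude G H hl hm hd x y
    rw [nsmul_eq_mul] at h1
    have h2 : ((nb G x ∩ Q).card : ℝ) ≤ Q.card := by exact_mod_cast card_le_card inter_subset_right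
    have h3 := mul_le_mul_of_nonneg_right h2 hC0
    linarith
  · rw [if_neg hxB, zero_add]
    rw [mem_union, not_or] at hxB
    rw [mem_compl] at hx
    have hc : (kk G (H ∪ Q) x).card ≤ 2 := by
      by_contra hcon
      refine hxB.2 ?_
      unfold sppB
      rw [mem_filter, mem_compl, mem_union, not_or]
      exact ⟨⟨hx, hxB.1⟩, by omega⟩
    have hcard : (kk G H x).card + (nb G x ∩ Q).card ≤ 2 := by
      have h1 : Disjoint (kk G H x) (nb G x ∩ Q) := by
        unfold P5.kk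
        exact (hQH.symm.mono inter_subset_right inter_subset_right)
      rw [← card_union_of_disjoint h1]
      refine le_trans (card_le_card ?_) hc
      unfold P5.kk
      intro z hz
      simp only [mem_union, mem_inter] at hz ⊢
      tauto
    rcases Nat.lt_or_ge 0 (nb G x ∩ Q).card with hp | hp
    · rcases Nat.lt_or_ge 0 (kk G H x).card with hk | hk
      · have hk1 : (kk G H x).card = 1 := by omega
        obtain ⟨a, ha⟩ := Finset.card_eq_one.mp hk1
        have haH : a ∈ H := spp_kk_sub G H x (by rw [ha]; exact mem_singleton_self a)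
        have h1 : ∑ y ∈ nb G x ∩ Q, ps G H l x y ≤ (nb G x ∩ Q).card •
            (∑ b ∈ H, So (mH G H) (dH G H) l a b
          + En (mH G H) (dH G H) l a + ∑ b ∈ H, En (mH G H) (dH G H) l b) :=
          Finset.sum_le_card_nsmul _ _ _ fun y _ => spp_ps1 G H l ha y
        have h2 : (nb G x ∩ Q).card = 1 := by omega
        rw [h2, one_nsmul] at h1
        have h3 := Finset.single_le_sum (f := fun a => (if kk G H x = {a} then (1 : ℝ) else 0) *
            (∑ b ∈ H, So (mH G H) (dH G H) l a b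
          + En (mH G H) (dH G H) l a + ∑ b ∈ H, En (mH G H) (dH G H) l b))
          (fun a _ => mul_nonneg (by split_ifs <;> norm_num) (hBB a)) haH
        rw [if_pos ha, one_mul] at h3
        linarith
      · have hk0 : kk G H x = ∅ := Finset.card_eq_zero.mp (by omega)
        have h1 : ∑ y ∈ nb G x ∩ Q, ps G H l x y ≤ (nb G x ∩ Q).card •
            ∑ b ∈ H, En (mH G H) (dH G H) l b :=
          Finset.sum_le_card_nsmul _ _ _ fun y _ => spp_ps0 G H l hk0 y
        rw [nsmul_eq_mul] at h1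
        have h2 : ((nb G x ∩ Q).card : ℝ) ≤ 2 := by exact_mod_cast (by omega)
        have h3 := mul_le_mul_of_nonneg_right h2 hE0
        rw [if_pos hk0, one_mul]
        linarith
    · have h1 : nb G x ∩ Q = ∅ := Finset.card_eq_zero.mp (by omega)
      rw [h1, Finset.sum_empty]
      linarith

theorem sp_pairs (hS : P5.Sparse6 G) (hK : P5.NoK33m G) {l : ℕ} (hl : 2 ≤ l) (hH : 1 ≤ H.card)
    (hm : ms (mH G H) ∅ ≤ 2 * (Fintype.card V : ℝ))
    (hd : ∑ a, dH G H a ≤ 6 * (Fintype.card V : ℝ)) :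
    ∑ p ∈ P5.pr G Hᶜ Hᶜ, ps G H l p.1 p.2
      ≤ (∑ a ∈ H, ∑ b ∈ H.erase a, (P5.n2 G H a b : ℝ)
          * (2 * So (mH G H) (dH G H) l a b + 2 * En (mH G H) (dH G H) l a
            + 2 * En (mH G H) (dH G H) l b))
        + 4 * (∑ a ∈ H, (P5.n1 G H a : ℝ)
          * (En (mH G H) (dH G H) l a + gm (mH G H) (dH G H) l a))
        + 6 * ((P5.n0 G H : ℝ) * em (mH G H) (dH G H) l)
        + 2 * (∑ a ∈ H, (P5.n1 G H a : ℝ)
          * (∑ b ∈ H, So (mH G H) (dH G H) l a b + En (mH G H) (dH G H) l a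
            + ∑ b ∈ H, En (mH G H) (dH G H) l b))
        + 4 * ((P5.n0 G H : ℝ) * ∑ b ∈ H, En (mH G H) (dH G H) l b)
        + 2100 * (H.card : ℝ) ^ 12 * (40 * l * 2 ^ l * (Fintype.card V : ℝ) ^ l) := by
  obtain ⟨Q, hQH, hQc, hQ⟩ := P5.exists_cover G hK H
  have hgood := spp_good G H hS hl hm hd hQ
  have hone := fun (x : V) (hx : x ∈ Hᶜ) => spp_one G H hl hm hd hQH hx
  have hBc := spp_B_card G H hK hQc
  set C : ℝ := 40 * l * 2 ^ l * (Fintype.card V : ℝ) ^ l with hC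
  have hC0 : 0 ≤ C := by positivity
  have hps := ps_nonneg G H l
  have hQc' : Q ⊆ Hᶜ := by
    intro z hz
    rw [mem_compl]
    exact fun h1 => Finset.disjoint_left.1 hQH hz h1
  have hbad : ∑ p ∈ (P5.pr G Hᶜ Hᶜ).filter (fun p => p.1 ∈ Q ∨ p.2 ∈ Q), ps G H l p.1 p.2
      ≤ 2 * ∑ x ∈ Hᶜ, ∑ y ∈ nb G x ∩ Q, ps G H l x y := by
    calc ∑ p ∈ (P5.pr G Hᶜ Hᶜ).filter (fun p => p.1 ∈ Q ∨ p.2 ∈ Q), ps G H l p.1 p.2
        ≤ ∑ p ∈ P5.pr G Q Hᶜ ∪ P5.pr G Hᶜ Q, ps G H l p.1 p.2 := by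
          refine sum_le_sum_of_subset_of_nonneg ?_ fun p _ _ => hps _ _
          intro p hp
          simp only [P5.pr, mem_filter, mem_univ, true_and, mem_union] at hp ⊢
          tauto
      _ ≤ ∑ p ∈ P5.pr G Q Hᶜ, ps G H l p.1 p.2 + ∑ p ∈ P5.pr G Hᶜ Q, ps G H l p.1 p.2 := by
          rw [← sum_union_inter]
          have : 0 ≤ ∑ p ∈ P5.pr G Q Hᶜ ∩ P5.pr G Hᶜ Q, ps G H l p.1 p.2 :=
            sum_nonneg fun p _ => hps _ _
          linarith
      _ = 2 * ∑ p ∈ P5.pr G Hᶜ Q, ps G H l p.1 p.2 := by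
          rw [nrpc_swap G Q Hᶜ (fun x y => ps G H l x y) (fun x y => ps_comm G H l x y)]
          ring
      _ = _ := by rw [nrpc_pr_sum G Hᶜ Q (fun x y => ps G H l x y)]
  have hsum := Finset.sum_le_sum hone
  rw [Finset.sum_add_distrib, Finset.sum_add_distrib] at hsum
  -- the three sums
  have e1 : ∑ x ∈ Hᶜ, (if x ∈ Q ∪ sppB G H Q then (Q.card : ℝ) * C else 0) ≤
      ((Q ∪ sppB G H Q).card : ℝ) * ((Q.card : ℝ) * C) := by
    rw [← Finset.sum_filter, Finset.sum_const, nsmul_eq_mul]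
    apply mul_le_mul_of_nonneg_right _ (by positivity)
    have : (Hᶜ.filter fun x => x ∈ Q ∪ sppB G H Q) ⊆ Q ∪ sppB G H Q := fun z hz =>
      (mem_filter.1 hz).2
    exact_mod_cast card_le_card this
  have e2 : ∑ x ∈ Hᶜ, ∑ a ∈ H, (if kk G H x = {a} then (1 : ℝ) else 0) *
      (∑ b ∈ H, So (mH G H) (dH G H) l a b
          + En (mH G H) (dH G H) l a + ∑ b ∈ H, En (mH G H) (dH G H) l b) =
      ∑ a ∈ H, (P5.n1 G H a : ℝ) * (∑ b ∈ H, So (mH G H) (dH G H) l a b
          + En (mH G H) (dH G H) l a + ∑ b ∈ H, En (mH G H) (dH G H) l b) := by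
    rw [Finset.sum_comm]
    refine Finset.sum_congr rfl fun a _ => ?_
    rw [← Finset.sum_mul]
    congr 1
    unfold P5.n1
    exact (bds_card Hᶜ fun z => kk G H z = {a}).symm
  have e3 : ∑ x ∈ Hᶜ, 2 * ((if kk G H x = ∅ then (1 : ℝ) else 0) *
      ∑ b ∈ H, En (mH G H) (dH G H) l b) =
      2 * ((P5.n0 G H : ℝ) * ∑ b ∈ H, En (mH G H) (dH G H) l b) := by
    rw [← Finset.mul_sum, ← Finset.sum_mul]
    congr 2
    unfold P5.n0
    exact (bds_card Hᶜ fun z => kk G H z = ∅).symm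
  rw [e2, e3] at hsum
  -- the constant
  have hh : (1 : ℝ) ≤ (H.card : ℝ) := by exact_mod_cast hH
  have c1 : ((Q ∪ sppB G H Q).card : ℝ) ≤ 254 * (H.card : ℝ) ^ 9 := by
    have h1 : (Q ∪ sppB G H Q).card ≤ 254 * H.card ^ 9 := by
      have h2 := card_union_le Q (sppB G H Q)
      have h3 : H.card ^ 3 ≤ H.card ^ 9 := Nat.pow_le_pow_right hH (by norm_num)
      omega
    exact_mod_cast h1
  have c2 : (Q.card : ℝ) ≤ 4 * (H.card : ℝ) ^ 3 := by exact_mod_cast hQc
  have c3 : ((Q ∪ sppB G H Q).card : ℝ) * ((Q.card : ℝ) * C) ≤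
      1016 * (H.card : ℝ) ^ 12 * C := by
    calc ((Q ∪ sppB G H Q).card : ℝ) * ((Q.card : ℝ) * C)
        ≤ (254 * (H.card : ℝ) ^ 9) * ((4 * (H.card : ℝ) ^ 3) * C) := by gcongr
      _ = _ := by ring
  have c4 : 6 * (H.card : ℝ) * C ≤ 6 * (H.card : ℝ) ^ 12 * C := by
    have : (H.card : ℝ) ≤ (H.card : ℝ) ^ 12 := le_self_pow₀ hh (by norm_num)
    gcongr
  rw [← Finset.sum_filter_add_sum_filter_not (P5.pr G Hᶜ Hᶜ) (fun p => p.1 ∈ Q ∨ p.2 ∈ Q)
    (fun p => ps G H l p.1 p.2)]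
  have c5 : 0 ≤ (H.card : ℝ) ^ 12 * C := by positivity
  have c6 : 2100 * (H.card : ℝ) ^ 12 * C = 2 * (1016 * (H.card : ℝ) ^ 12 * C)
      + 6 * (H.card : ℝ) ^ 12 * C + 62 * ((H.card : ℝ) ^ 12 * C) := by ring
  rw [c6]
  linarith

/-- The same bound with the increased classes. -/
theorem sp_pairs_fg (hS : P5.Sparse6 G) (hK : P5.NoK33m G) {l : ℕ} (hl : 2 ≤ l) (hH : 1 ≤ H.card)
    (hm : ms (mH G H) ∅ ≤ 2 * (Fintype.card V : ℝ))
    (hd : ∑ a, dH G H a ≤ 6 * (Fintype.card V : ℝ)) {κ : ℝ} (hκ : 0 ≤ κ)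
    (hW : Wt (muG G H κ)) (hmu : ∀ a b, mH G H a b ≤ muG G H κ a b)
    (hdd : ∀ a, dH G H a ≤ dn (muG G H κ) (nuG G H κ) a) :
    ∑ p ∈ P5.pr G Hᶜ Hᶜ, ps G H l p.1 p.2
      ≤ 2 * (l + 1) * Wo (muG G H κ) (dn (muG G H κ) (nuG G H κ)) l
        + 4 * (∑ a, nuG G H κ a * gm (muG G H κ) (dn (muG G H κ) (nuG G H κ)) l a)
        + 6 * ((P5.n0 G H : ℝ) * em (muG G H κ) (dn (muG G H κ) (nuG G H κ)) l)
        + 2 * (∑ a, nuG G H κ a
          * (∑ b ∈ H, So (muG G H κ) (dn (muG G H κ) (nuG G H κ)) l a b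
            + En (muG G H κ) (dn (muG G H κ) (nuG G H κ)) l a
            + ∑ b ∈ H, En (muG G H κ) (dn (muG G H κ) (nuG G H κ)) l b))
        + 4 * ((P5.n0 G H : ℝ)
          * ∑ b ∈ H, En (muG G H κ) (dn (muG G H κ) (nuG G H κ)) l b)
        + 2100 * (H.card : ℝ) ^ 12 * (40 * l * 2 ^ l * (Fintype.card V : ℝ) ^ l) := by
  have h0 := sp_pairs G H hS hK hl hH hm hd
  have m0 := CNF_mH_nonneg G H
  have d0 := CNF_dH_nonneg G H
  have d0' : ∀ a, 0 ≤ dn (muG G H κ) (nuG G H κ) a := fun a => (d0 a).trans (hdd a)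
  have so := so_mono m0 hmu d0 hdd l
  have so0 := so_nonneg m0 d0 l
  have so0' := so_nonneg hW.nonneg d0' l
  have gmm := gm_mono m0 hmu d0 hdd l
  have t1 : (∑ a ∈ H, ∑ b ∈ H.erase a, (P5.n2 G H a b : ℝ)
          * (2 * So (mH G H) (dH G H) l a b + 2 * En (mH G H) (dH G H) l a
            + 2 * En (mH G H) (dH G H) l b))
      ≤ ∑ a, ∑ b, muG G H κ a b * (2 * So (muG G H κ) (dn (muG G H κ) (nuG G H κ)) l a b
        + 2 * En (muG G H κ) (dn (muG G H κ) (nuG G H κ)) l a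
        + 2 * En (muG G H κ) (dn (muG G H κ) (nuG G H κ)) l b) := by
    have hnn : ∀ a b, 0 ≤ muG G H κ a b *
        (2 * So (muG G H κ) (dn (muG G H κ) (nuG G H κ)) l a b
        + 2 * En (muG G H κ) (dn (muG G H κ) (nuG G H κ)) l a
        + 2 * En (muG G H κ) (dn (muG G H κ) (nuG G H κ)) l b) := fun a b => by
      have h1 := (so0' a b).1
      have h2 := (so0' a b).2.1
      have h3 := (so0' b b).2.1
      exact mul_nonneg (hW.nonneg a b) (by linarith)
    refine le_trans ?_ (Finset.sum_le_sum_of_subset_of_nonneg (Finset.subset_univ H)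
      fun a _ _ => Finset.sum_nonneg fun b _ => hnn a b)
    refine Finset.sum_le_sum fun a ha => ?_
    refine le_trans ?_ (Finset.sum_le_sum_of_subset_of_nonneg (Finset.subset_univ (H.erase a))
      fun b _ _ => hnn a b)
    refine Finset.sum_le_sum fun b hb => ?_
    have hb1 : b ∈ H := Finset.mem_of_mem_erase hb
    have hb2 : a ≠ b := (Finset.ne_of_mem_erase hb).symm
    have e1 : muG G H κ a b = (P5.n2 G H a b : ℝ) + κ := by
      unfold muG
      rw [if_pos ⟨ha, hb1, hb2⟩]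
    rw [e1]
    have h1 := (so a b).1
    have h2 := (so a b).2
    have h3 := (so b b).2
    have g1 := (so0 a b).1
    have g2 := (so0 a b).2.1
    have g3 := (so0 b b).2.1
    refine mul_le_mul (by linarith) (by linarith) (by linarith) ?_
    exact add_nonneg (Nat.cast_nonneg _) hκ
  have hnu : ∀ a ∈ H, (P5.n1 G H a : ℝ) ≤ nuG G H κ a := by
    intro a ha
    unfold nuG
    rw [if_pos ha]
    linarith
  have t2 : (∑ a ∈ H, (P5.n1 G H a : ℝ)
          * (En (mH G H) (dH G H) l a + gm (mH G H) (dH G H) l a))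
      ≤ ∑ a, nuG G H κ a * (En (muG G H κ) (dn (muG G H κ) (nuG G H κ)) l a
        + gm (muG G H κ) (dn (muG G H κ) (nuG G H κ)) l a) := by
    refine le_trans ?_ (Finset.sum_le_sum_of_subset_of_nonneg (Finset.subset_univ H)
      fun a _ _ => ?_)
    · refine Finset.sum_le_sum fun a ha => ?_
      have h1 := (so a a).2
      have h2 := (gmm a).1
      have g1 := (so0 a a).2.1
      have g2 := (so0 a a).2.2.1
      exact mul_le_mul (hnu a ha) (by linarith) (by linarith) (PTA_nuG_nonneg G H hκ a)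
    · have g1 := (so0' a a).2.1
      have g2 := (so0' a a).2.2.1
      exact mul_nonneg (PTA_nuG_nonneg G H hκ a) (by linarith)
  have t3 : (P5.n0 G H : ℝ) * em (mH G H) (dH G H) l
      ≤ (P5.n0 G H : ℝ) * em (muG G H κ) (dn (muG G H κ) (nuG G H κ)) l := by
    by_cases hV : Nonempty V
    · obtain ⟨a⟩ := hV
      exact mul_le_mul_of_nonneg_left (gmm a).2 (Nat.cast_nonneg _)
    · have e0 : P5.n0 G H = 0 := by
        unfold P5.n0
        rw [Finset.card_eq_zero, Finset.eq_empty_iff_forall_notMem]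
        intro x
        exact absurd ⟨x⟩ hV
      rw [e0]
      simp
  have t4 : (∑ a ∈ H, (P5.n1 G H a : ℝ)
          * (∑ b ∈ H, So (mH G H) (dH G H) l a b + En (mH G H) (dH G H) l a
            + ∑ b ∈ H, En (mH G H) (dH G H) l b))
      ≤ ∑ a, nuG G H κ a
          * (∑ b ∈ H, So (muG G H κ) (dn (muG G H κ) (nuG G H κ)) l a b
            + En (muG G H κ) (dn (muG G H κ) (nuG G H κ)) l a
            + ∑ b ∈ H, En (muG G H κ) (dn (muG G H κ) (nuG G H κ)) l b) := by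
    refine le_trans ?_ (Finset.sum_le_sum_of_subset_of_nonneg (Finset.subset_univ H)
      fun a _ _ => ?_)
    · refine Finset.sum_le_sum fun a ha => ?_
      have h1 := Finset.sum_le_sum fun b (_ : b ∈ H) => (so a b).1
      have h2 := (so a a).2
      have h3 := Finset.sum_le_sum fun b (_ : b ∈ H) => (so b b).2
      have g1 : 0 ≤ ∑ b ∈ H, So (mH G H) (dH G H) l a b :=
        Finset.sum_nonneg fun b _ => (so0 a b).1
      have g2 := (so0 a a).2.1
      have g3 : 0 ≤ ∑ b ∈ H, En (mH G H) (dH G H) l b :=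
        Finset.sum_nonneg fun b _ => (so0 b b).2.1
      exact mul_le_mul (hnu a ha) (by linarith) (by linarith) (PTA_nuG_nonneg G H hκ a)
    · have g1 : 0 ≤ ∑ b ∈ H, So (muG G H κ) (dn (muG G H κ) (nuG G H κ)) l a b :=
        Finset.sum_nonneg fun b _ => (so0' a b).1
      have g2 := (so0' a a).2.1
      have g3 : 0 ≤ ∑ b ∈ H, En (muG G H κ) (dn (muG G H κ) (nuG G H κ)) l b :=
        Finset.sum_nonneg fun b _ => (so0' b b).2.1
      exact mul_nonneg (PTA_nuG_nonneg G H hκ a) (by linarith)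
  have t5 : (P5.n0 G H : ℝ) * ∑ b ∈ H, En (mH G H) (dH G H) l b
      ≤ (P5.n0 G H : ℝ) * ∑ b ∈ H, En (muG G H κ) (dn (muG G H κ) (nuG G H κ)) l b :=
    mul_le_mul_of_nonneg_left (Finset.sum_le_sum fun b _ => (so b b).2) (Nat.cast_nonneg _)
  have hid := fg_identity hW (nuG G H κ) (l := l) (by omega)
  have t6 : ∑ a, nuG G H κ a * (En (muG G H κ) (dn (muG G H κ) (nuG G H κ)) l a
        + gm (muG G H κ) (dn (muG G H κ) (nuG G H κ)) l a)
      = ∑ a, nuG G H κ a * En (muG G H κ) (dn (muG G H κ) (nuG G H κ)) l a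
        + ∑ a, nuG G H κ a * gm (muG G H κ) (dn (muG G H κ) (nuG G H κ)) l a := by
    rw [← Finset.sum_add_distrib]
    refine Finset.sum_congr rfl fun a _ => ?_
    ring
  rw [t6] at t2
  linarith

end

end Pool.Agent.Lib.MP_009d13_co.SP
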