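import Pool.Agent.Lib.MP_009d13_co.SP.Defs
import Pool.Agent.Lib.MP_009d13_co.SP.SPG
import Pool.Agent.Lib.MP_009d13_co.SP.SPP
import Pool.Agent.Lib.MP_009d13_co.SP.SPA
import Pool.Agent.Lib.MP_009d13_co.OD.NEA
import Pool.Agent.Lib.MP_009d13_co.SP.Lit
import Pool.Agent.Lib.MP_009d13_co.OD.NRW
import Pool.Agent.Lib.MP_009d13_co.OD.NRP

/-! SPM: the upper bound for graphs near a ring, all `l >= 3`. -/

set_option autoImplicit false

namespace Pool.Agent.Lib.MP_009d13_co.SP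

open Finset Classical
open Pool.Agent.Lib.MP_009d13_co.OD
open Pool.Agent.Lib.MP_009d13_co.P5 (nb kk)

noncomputable section

/-- bounds for the classes -/
theorem spm_y {V : Type} [Fintype V] (G : SimpleGraph V) {l : ℕ} (hl : 3 ≤ l) (h : Fin l ↪ V)
    {δ : ℝ} (hδ : 0 ≤ δ)
    (hy : ∀ j, (1 - δ) * ((Fintype.card V : ℝ) / l) ≤
      (Yj G h j).card + (l + 2 * (l : ℝ) ^ 3)) :
    ((Or G h).card : ℝ) ≤ δ * Fintype.card V + ((l : ℝ) ^ 2 + 2 * (l : ℝ) ^ 4) ∧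
    ∀ j, ((Yj G h j).card : ℝ) ≤ (Fintype.card V : ℝ) / l + δ * Fintype.card V +
      ((l : ℝ) ^ 2 + 2 * (l : ℝ) ^ 4) := by
  have hc := card_ring G hl h
  have hL : (3 : ℝ) ≤ l := by exact_mod_cast hl
  have hL0 : (0 : ℝ) < l := by linarith
  set n : ℝ := (Fintype.card V : ℝ) with hn
  have hn0 : 0 ≤ n := Nat.cast_nonneg _
  set L : ℝ := (l : ℝ) with hLdef
  have hc' : L + ∑ j, ((Yj G h j).card : ℝ) + ((Or G h).card : ℝ) = n := by
    rw [hn, ← hc]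
    push_cast
    rfl
  set q : ℝ := n / L with hq
  have hqL : L * q = n := by
    rw [hq]
    field_simp
  have hq0 : 0 ≤ q := by positivity
  have hY : L * ((1 - δ) * q) ≤ ∑ j, ((Yj G h j).card : ℝ) + L * (L + 2 * L ^ 3) := by
    have h1 := Finset.sum_le_sum fun j (_ : j ∈ univ) => hy j
    rw [Finset.sum_const, Finset.card_univ, Fintype.card_fin, nsmul_eq_mul,
      Finset.sum_add_distrib, Finset.sum_const, Finset.card_univ, Fintype.card_fin,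
      nsmul_eq_mul] at h1
    exact h1
  have e1 : L * ((1 - δ) * q) = (1 - δ) * n := by
    rw [← hqL]; ring
  have e2 : L * (L + 2 * L ^ 3) = L ^ 2 + 2 * L ^ 4 := by ring
  rw [e1, e2] at hY
  constructor
  · nlinarith
  · intro j
    have h1 := Finset.sum_le_sum fun i (_ : i ∈ univ.erase j) => hy i
    rw [Finset.sum_const, Finset.card_erase_of_mem (mem_univ j), Finset.card_univ,
      Fintype.card_fin, nsmul_eq_mul, Finset.sum_add_distrib, Finset.sum_const,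
      Finset.card_erase_of_mem (mem_univ j), Finset.card_univ, Fintype.card_fin,
      nsmul_eq_mul] at h1
    have h2 := Finset.add_sum_erase univ (fun i => ((Yj G h i).card : ℝ)) (mem_univ j)
    have h3 : (((l - 1 : ℕ)) : ℝ) = L - 1 := by
      rw [Nat.cast_sub (by omega)]
      push_cast
      rfl
    rw [h3] at h1
    have h4 : (L - 1) * ((1 - δ) * q) = (1 - δ) * n - (1 - δ) * q := by
      rw [← hqL]; ring
    have h5 : (L - 1) * (L + 2 * L ^ 3) ≤ L ^ 2 + 2 * L ^ 4 := by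
      rw [← e2]
      refine mul_le_mul_of_nonneg_right (by linarith) (by positivity)
    have h6 : 0 ≤ ((Or G h).card : ℝ) := Nat.cast_nonneg _
    have h7 : 0 ≤ δ * q := mul_nonneg hδ hq0
    have h8 : ((Yj G h j).card : ℝ) + ∑ i ∈ univ.erase j, ((Yj G h i).card : ℝ) =
        ∑ i, ((Yj G h i).card : ℝ) := h2
    rw [h4] at h1
    nlinarith

/-- Bernoulli -/
theorem spm_pow (k : ℕ) {a b : ℝ} (hb : 0 ≤ b) (hab : b ≤ a) :
    b ^ (k + 1) + (k + 1) * (a - b) * b ^ k ≤ a ^ (k + 1) := by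
  induction k with
  | zero => simp
  | succ k ih =>
    have h1 : a * (b ^ (k + 1) + (k + 1) * (a - b) * b ^ k) ≤ a * a ^ (k + 1) :=
      mul_le_mul_of_nonneg_left ih (hb.trans hab)
    have h2 : 0 ≤ (k + 1) * (a - b) * b ^ k * (a - b) := by
      have : 0 ≤ a - b := by linarith
      positivity
    have e1 : a * (b ^ (k + 1) + (k + 1) * (a - b) * b ^ k) =
        b ^ (k + 1 + 1) + ((k + 1 : ℕ) + 1) * (a - b) * b ^ (k + 1) +
        (k + 1) * (a - b) * b ^ k * (a - b) := by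
      push_cast
      rw [pow_succ b (k + 1), pow_succ b k]
      ring
    rw [pow_succ' a (k + 1)]
    rw [e1] at h1
    linarith

/-- the choice of the tolerance -/
theorem spm_eps (l : ℕ) (hl : 3 ≤ l) : ∃ η ε : ℝ, η = 1 / (100 * ((l : ℝ) + 1) ^ 2) ∧ 0 < η ∧
    0 < ε ∧ ε ≤ 1 / 1000 ∧ (1 + ε) ^ l ≤ 1 + η ∧ 1 - η ≤ (1 - ε) ^ l := by
  have hL : (3 : ℝ) ≤ l := by exact_mod_cast hl
  have h2 : (1 : ℝ) ≤ 2 ^ l := one_le_pow₀ (by norm_num)
  have hη : (0 : ℝ) < 1 / (100 * ((l : ℝ) + 1) ^ 2) := by positivity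
  have hη1 : 1 / (100 * ((l : ℝ) + 1) ^ 2) ≤ 1 / 1000 := by
    apply one_div_le_one_div_of_le (by norm_num)
    nlinarith
  refine ⟨_, 1 / (100 * ((l : ℝ) + 1) ^ 2) / 2 ^ l, rfl, hη, by positivity, ?_, ?_, ?_⟩
  · calc 1 / (100 * ((l : ℝ) + 1) ^ 2) / 2 ^ l ≤ 1 / (100 * ((l : ℝ) + 1) ^ 2) :=
        div_le_self hη.le h2
      _ ≤ _ := hη1
  · have h3 : 1 / (100 * ((l : ℝ) + 1) ^ 2) / 2 ^ l ≤ 1 :=
      (div_le_self hη.le h2).trans (hη1.trans (by norm_num))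
    refine (fas_pow _ (by positivity) h3 l).trans (le_of_eq ?_)
    rw [div_mul_cancel₀]
    positivity
  · have h3 : 1 / (100 * ((l : ℝ) + 1) ^ 2) / 2 ^ l ≤ 1 :=
      (div_le_self hη.le h2).trans (hη1.trans (by norm_num))
    have h4 := one_add_mul_le_pow
      (show (-2 : ℝ) ≤ -(1 / (100 * ((l : ℝ) + 1) ^ 2) / 2 ^ l) by linarith) l
    have h5 : (l : ℝ) * (1 / (100 * ((l : ℝ) + 1) ^ 2) / 2 ^ l) ≤
        1 / (100 * ((l : ℝ) + 1) ^ 2) := by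
      rw [← mul_div_assoc, div_le_iff₀ (by positivity), mul_comm]
      apply mul_le_mul_of_nonneg_left _ hη.le
      exact_mod_cast (Nat.lt_two_pow_self (n := l)).le
    have e1 : (1 : ℝ) + -(1 / (100 * ((l : ℝ) + 1) ^ 2) / 2 ^ l) =
        1 - 1 / (100 * ((l : ℝ) + 1) ^ 2) / 2 ^ l := by ring
    rw [e1] at h4
    linarith

/-- The coefficients. `A` is the gain and `B` the unit of the losses. -/
theorem spm_coeff {L η c N ρ P A B : ℝ} (hL : 3 ≤ L) (hc3 : L = 3 ∨ 4 ≤ L)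
    (hcz : L = 3 → c = 0)
    (hη : η = 1 / (100 * (L + 1) ^ 2)) (hc : 0 ≤ c) (hN : 0 ≤ N) (hρ : 0 ≤ ρ) (hP : 0 ≤ P)
    (hA : (1 - η) * P ≤ A) (hB : B ≤ (1 + η) * P) :
    64 * (L + 1) * c * B + (32 * (L + 1) + 8 * L ^ 2 + 8) * N * B + (48 + 16 * L) * ρ * B
      + (c + N + ρ) * P ≤ 16 * (L + 1) ^ 2 * ((c + N + ρ) * A) := by
  have h1 : η * (100 * (L + 1) ^ 2) = 1 := by
    rw [hη]
    field_simp
  have hη0 : 0 < η := by rw [hη]; positivity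
  have h2 : 16 * (L + 1) ^ 2 * η ≤ 1 := by nlinarith
  -- one unit
  have key : ∀ k : ℝ, 0 ≤ k → k * η ≤ 1 → k + 3 ≤ 16 * (L + 1) ^ 2 → ∀ u : ℝ, 0 ≤ u →
      k * u * B + u * P ≤ 16 * (L + 1) ^ 2 * (u * A) := by
    intro k hk hkη hk3 u hu
    have h3 : k * u * B ≤ k * u * ((1 + η) * P) := mul_le_mul_of_nonneg_left hB (by positivity)
    have h4 : 16 * (L + 1) ^ 2 * (u * ((1 - η) * P)) ≤ 16 * (L + 1) ^ 2 * (u * A) := by
      apply mul_le_mul_of_nonneg_left _ (by positivity)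
      exact mul_le_mul_of_nonneg_left hA hu
    have h5 : 0 ≤ u * P := mul_nonneg hu hP
    have h6 : k * u * ((1 + η) * P) + u * P = (k + k * η + 1) * (u * P) := by ring
    have h7 : 16 * (L + 1) ^ 2 * (u * ((1 - η) * P)) =
        (16 * (L + 1) ^ 2 - 16 * (L + 1) ^ 2 * η) * (u * P) := by ring
    have h8 : (k + k * η + 1) * (u * P) ≤
        (16 * (L + 1) ^ 2 - 16 * (L + 1) ^ 2 * η) * (u * P) := by
      apply mul_le_mul_of_nonneg_right _ h5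
      linarith
    linarith
  have kN := key (32 * (L + 1) + 8 * L ^ 2 + 8) (by positivity) (by nlinarith) (by nlinarith) N hN
  have kρ := key (48 + 16 * L) (by positivity) (by nlinarith) (by nlinarith) ρ hρ
  have kc : 64 * (L + 1) * c * B + c * P ≤ 16 * (L + 1) ^ 2 * (c * A) := by
    rcases hc3 with h3 | h4
    · rw [hcz h3]
      simp
    · exact key (64 * (L + 1)) (by positivity) (by nlinarith) (by nlinarith) c hc
  have e1 : 16 * (L + 1) ^ 2 * ((c + N + ρ) * A) = 16 * (L + 1) ^ 2 * (c * A)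
      + 16 * (L + 1) ^ 2 * (N * A) + 16 * (L + 1) ^ 2 * (ρ * A) := by ring
  have e2 : (c + N + ρ) * P = c * P + N * P + ρ * P := by ring
  rw [e1, e2]
  linarith

/-- The hypotheses of the bounds near a ring. -/
theorem spm_hyp {l : ℕ} (hl : 3 ≤ l) {V : Type} [Fintype V] (h : Fin l ↪ V) {μ : V → V → ℝ}
    {ν : V → ℝ} {Y τ c N : ℝ} (hμ : Wt μ) (hν : ∀ v, 0 ≤ ν v)
    (hout : ∀ a b, (∀ i, h i ≠ a) → μ a b = 0) (hνo : ∀ a, (∀ i, h i ≠ a) → ν a = 0)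
    (hY : ∀ j, μ (h j) (h (finRotate l j)) ≤ Y)
    (hc : ∑ i, ch h μ i = 2 * c) (hN : ∑ v, ν v = N) (hτ : 2 * c + N ≤ τ) :
    0 ≤ c ∧ 0 ≤ N ∧ 0 ≤ τ ∧
    (∀ i j, i ≠ j → j ≠ finRotate l i → i ≠ finRotate l j → μ (h i) (h j) ≤ τ) ∧
    (∀ a, 0 ≤ dn μ ν a) ∧ (∀ i, dn μ ν (h i) ≤ 2 * Y + τ) ∧
    (∀ a, (∀ i, h i ≠ a) → dn μ ν a = 0) := by
  have hch0 : ∀ i, 0 ≤ ch h μ i := fun i => by
    unfold ch
    exact sum_nonneg fun j _ => hμ.nonneg _ _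
  have hc0 : 0 ≤ c := by
    have : 0 ≤ ∑ i, ch h μ i := sum_nonneg fun i _ => hch0 i
    linarith
  have hN0 : 0 ≤ N := hN ▸ sum_nonneg fun v _ => hν v
  refine ⟨hc0, hN0, by linarith, ?_, ?_, ?_, ?_⟩
  · intro i j h1 h2 h3
    have h4 : μ (h i) (h j) ≤ ch h μ i := by
      unfold ch
      exact single_le_sum (f := fun j => μ (h i) (h j)) (fun j _ => hμ.nonneg _ _)
        (mem_filter.2 ⟨mem_univ j, h1.symm, h2, h3⟩)
    have h5 := single_le_sum (fun i _ => hch0 i) (mem_univ i)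
    rw [hc] at h5
    linarith
  · intro a
    unfold dn dg
    exact add_nonneg (sum_nonneg fun b _ => hμ.nonneg _ _) (hν a)
  · intro i
    unfold dn
    rw [nrw_deg hμ hl h hout i]
    have h1 := hY i
    have h2 := hY ((finRotate l).symm i)
    have h5 := single_le_sum (fun i _ => hch0 i) (mem_univ i)
    rw [hc] at h5
    have h6 := single_le_sum (fun v _ => hν v) (mem_univ (h i))
    rw [hN] at h6
    linarith
  · intro a ha
    unfold dn dg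
    rw [hνo a ha, add_zero]
    exact sum_eq_zero fun b _ => hout a b ha

/-- There are no chords on a ring of three hubs. -/
theorem spm_three {V : Type} [Fintype V] {l : ℕ} (hl : l = 3) (h : Fin l ↪ V) (μ : V → V → ℝ) :
    ∑ i, ch h μ i = 0 := by
  subst hl
  have h1 : ∀ i j : Fin 3, ¬ (j ≠ i ∧ j ≠ finRotate 3 i ∧ i ≠ finRotate 3 j) := by decide
  refine sum_eq_zero fun i _ => ?_
  unfold ch
  rw [filter_false_of_mem fun j _ => h1 i j, sum_empty]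

/-- The functional with all the corrections near a ring. -/
theorem spm_fg {l : ℕ} (hl : 3 ≤ l) : ∃ C : ℝ, 0 ≤ C ∧ ∀ (V : Type) [Fintype V]
    (h : Fin l ↪ V) (μ : V → V → ℝ) (ν : V → ℝ) (ρ q η ε τ : ℝ), Wt μ → (∀ v, 0 ≤ ν v) →
    (∀ a b, (∀ i, h i ≠ a) → μ a b = 0) → (∀ a, (∀ i, h i ≠ a) → ν a = 0) → 0 ≤ ρ → 0 ≤ q →
    η = 1 / (100 * ((l : ℝ) + 1) ^ 2) → 0 < ε → ε ≤ 1 / 1000 → (1 + ε) ^ l ≤ 1 + η →
    1 - η ≤ (1 - ε) ^ l → (∀ j, (1 - ε) * q ≤ μ (h j) (h (finRotate l j))) →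
    (∀ j, μ (h j) (h (finRotate l j)) ≤ (1 + ε) * q) →
    2 * (ms μ ∅ + ∑ v, ν v + ρ - ∑ j, μ (h j) (h (finRotate l j))) ≤ τ → τ ≤ q →
    2 * (l + 1) * Wo μ (dn μ ν) l
        + 4 * (∑ a, ν a * gm μ (dn μ ν) l a)
        + 6 * (ρ * em μ (dn μ ν) l)
        + 2 * (∑ a, ν a * (∑ b ∈ Hr h, So μ (dn μ ν) l a b + En μ (dn μ ν) l a
            + ∑ b ∈ Hr h, En μ (dn μ ν) l b))
        + 4 * (ρ * ∑ b ∈ Hr h, En μ (dn μ ν) l b)
      ≤ 16 * l * (l + 1) * ((ms μ ∅ + ∑ v, ν v + ρ) / l) ^ (l + 1)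
        - (ms μ ∅ + ∑ v, ν v + ρ - ∑ j, μ (h j) (h (finRotate l j))) * q ^ l
        + C * τ ^ 2 * ((1 + ε) * q) ^ (l - 1) := by
  obtain ⟨C0, hC00, hval⟩ := sp_values hl
  obtain ⟨C1, hC10, hwo⟩ := sp_wo_ring hl
  refine ⟨2 * (l + 1) * C1 + C0 * (26 + 8 * l), by positivity, ?_⟩
  intro V _ h μ ν ρ q η ε τ hμ hν hout hνo hρ hq hη hε hε1 hε2 hε3 hlo hup hτ hτq
  have hL : (3 : ℝ) ≤ l := by exact_mod_cast hl
  set L : ℝ := (l : ℝ) with hLdef
  have hL0 : 0 < L := by linarith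
  obtain ⟨M, hM⟩ : ∃ M, M = ∑ j, μ (h j) (h (finRotate l j)) := ⟨_, rfl⟩
  obtain ⟨N, hN⟩ : ∃ N, N = ∑ v, ν v := ⟨_, rfl⟩
  obtain ⟨c, hc⟩ : ∃ c, c = (∑ i, ch h μ i) / 2 := ⟨_, rfl⟩
  obtain ⟨Y, hYd⟩ : ∃ Y, Y = (1 + ε) * q := ⟨_, rfl⟩
  have hc2 : ∑ i, ch h μ i = 2 * c := by rw [hc]; ring
  -- the mass
  have hdout : ∀ a, (∀ i, h i ≠ a) → dg μ a = 0 := fun a ha => by
    unfold dg
    exact sum_eq_zero fun b _ => hout a b ha
  have hS : ∑ i, dg μ (h i) = 2 * M + 2 * c := by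
    rw [sum_congr rfl fun i _ => nrw_deg hμ hl h hout i, sum_add_distrib, sum_add_distrib,
      Equiv.sum_comp (finRotate l).symm fun j => μ (h j) (h (finRotate l j)), ← hM, hc2]
    ring
  have hD : ∑ i, dg μ (h i) = 2 * ms μ ∅ := by
    rw [← sum_dg, rc_sum_range h (dg μ) hdout]
  have hms : ms μ ∅ = M + c := by linarith
  rw [← hM, ← hN, hms] at hτ ⊢
  rw [← hYd]
  have hqY : q ≤ Y := by
    rw [hYd]
    nlinarith
  have hup' : ∀ j, μ (h j) (h (finRotate l j)) ≤ Y := fun j => by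
    rw [hYd]
    exact hup j
  have hch0 : ∀ i, 0 ≤ ch h μ i := fun i => by
    unfold ch
    exact sum_nonneg fun j _ => hμ.nonneg _ _
  have hcc0 : 0 ≤ c := by
    have : 0 ≤ ∑ i, ch h μ i := sum_nonneg fun i _ => hch0 i
    linarith
  have hNN0 : 0 ≤ N := hN ▸ sum_nonneg fun v _ => hν v
  obtain ⟨hc0, hN0, hτ0, hchord, hd0, hd1, hdo⟩ := spm_hyp hl h hμ hν hout hνo hup' hc2 hN.symm
    (show 2 * c + N ≤ τ by linarith)
  obtain ⟨v1, v2, -, v3, v4⟩ := hval V h μ (dn μ ν) Y τ hμ hτ0 (hτq.trans hqY) hup' hchord hout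
    hd0 hd1 hdo
  -- the ring
  obtain ⟨x, hx⟩ : ∃ x, x = M / L := ⟨_, rfl⟩
  have hMx : M = L * x := by
    rw [hx]
    field_simp
  have hM1 : L * ((1 - ε) * q) ≤ M := by
    have h1 := sum_le_sum fun j (_ : j ∈ univ) => hlo j
    rw [sum_const, card_univ, Fintype.card_fin, nsmul_eq_mul, ← hM] at h1
    exact h1
  have hM2 : M ≤ L * ((1 + ε) * q) := by
    have h1 := sum_le_sum fun j (_ : j ∈ univ) => hup j
    rw [sum_const, card_univ, Fintype.card_fin, nsmul_eq_mul, ← hM] at h1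
    exact h1
  have hx1 : (1 - ε) * q ≤ x := by
    rw [hMx] at hM1
    exact le_of_mul_le_mul_left hM1 hL0
  have hx2 : x ≤ (1 + ε) * q := by
    rw [hMx] at hM2
    exact le_of_mul_le_mul_left hM2 hL0
  have hεq : ε * q ≤ 1 / 1000 * q := mul_le_mul_of_nonneg_right hε1 hq
  have hx0 : 0 ≤ x := by linarith
  have hY0 : 0 ≤ Y := hq.trans hqY
  have w := hwo V h μ ν x Y τ c N hμ hν hout hνo hx0 (hτq.trans hqY) hup'
    (by rw [← hM, hMx]) (fun j => by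
      have h1 := hlo j
      have h2 := hup j
      rw [abs_le]
      constructor <;> linarith) hc2 hN.symm (by linarith)
  -- abbreviations
  obtain ⟨Z, hZ⟩ : ∃ Z, Z = Y ^ (l - 1) := ⟨_, rfl⟩
  have hZ0 : 0 ≤ Z := by rw [hZ]; positivity
  obtain ⟨E, hE⟩ : ∃ E, E = C0 * τ * Z := ⟨_, rfl⟩
  have hE0 : 0 ≤ E := by rw [hE]; positivity
  rw [← hZ] at v1 v2 v3 v4 w
  rw [← hE] at v1 v2 v3 v4
  rw [← hZ]
  have hcard : (Hr h).card = l := nea_hcard h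
  have s1 : ∑ a, ν a * gm μ (dn μ ν) l a ≤ N * (4 * (L + 1) * Y ^ l + 3 * E) := by
    rw [hN, sum_mul]
    exact sum_le_sum fun a _ => mul_le_mul_of_nonneg_left (v3 a) (hν a)
  have s2 : ρ * em μ (dn μ ν) l ≤ ρ * (8 * Y ^ l + 2 * E) := mul_le_mul_of_nonneg_left v4 hρ
  have s3 : ∑ b ∈ Hr h, En μ (dn μ ν) l b ≤ L * (4 * Y ^ l + E) := by
    have h1 := sum_le_card_nsmul (Hr h) _ _ fun b (_ : b ∈ Hr h) => v1 b
    rw [hcard, nsmul_eq_mul] at h1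
    exact h1
  have s4 : ∀ a, ∑ b ∈ Hr h, So μ (dn μ ν) l a b ≤ L * (4 * (L - 1) * Y ^ l + E) := fun a => by
    have h1 := sum_le_card_nsmul (Hr h) _ _ fun b (_ : b ∈ Hr h) => v2 a b
    rw [hcard, nsmul_eq_mul] at h1
    exact h1
  have s5 : ∑ a, ν a * (∑ b ∈ Hr h, So μ (dn μ ν) l a b + En μ (dn μ ν) l a
            + ∑ b ∈ Hr h, En μ (dn μ ν) l b) ≤
      N * (L * (4 * (L - 1) * Y ^ l + E) + (4 * Y ^ l + E) + L * (4 * Y ^ l + E)) := by
    rw [hN, sum_mul]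
    refine sum_le_sum fun a _ => mul_le_mul_of_nonneg_left ?_ (hν a)
    have h1 := s4 a
    have h2 := v1 a
    linarith
  have s6 : ρ * ∑ b ∈ Hr h, En μ (dn μ ν) l b ≤ ρ * (L * (4 * Y ^ l + E)) :=
    mul_le_mul_of_nonneg_left s3 hρ
  -- the main term
  have hxw : (M + c + N + ρ) / L - x = (c + N + ρ) / L := by
    rw [hx]
    field_simp
    ring
  have hw0 : 0 ≤ c + N + ρ := by linarith
  have b1 := spm_pow l hx0 (show x ≤ (M + c + N + ρ) / L by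
    have : 0 ≤ (c + N + ρ) / L := by positivity
    linarith)
  rw [hxw, ← hLdef] at b1
  have b2 : 16 * L * (L + 1) * x ^ (l + 1) ≤
      16 * L * (L + 1) * ((M + c + N + ρ) / L) ^ (l + 1)
        - 16 * (L + 1) ^ 2 * ((c + N + ρ) * x ^ l) := by
    have h1 := mul_le_mul_of_nonneg_left b1 (show 0 ≤ 16 * L * (L + 1) by positivity)
    have e1 : 16 * L * (L + 1) * (x ^ (l + 1) + (L + 1) * ((c + N + ρ) / L) * x ^ l) =
        16 * L * (L + 1) * x ^ (l + 1) + 16 * (L + 1) ^ 2 * ((c + N + ρ) * x ^ l) := by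
      field_simp
    linarith
  have hcf := spm_coeff (L := L) (η := η) (c := c) (N := N) (ρ := ρ) (P := q ^ l) (A := x ^ l)
    (B := Y ^ l) hL (by
      rcases Nat.lt_or_ge l 4 with h4 | h4
      · left
        have : l = 3 := by omega
        rw [hLdef, this]
        norm_num
      · right
        rw [hLdef]
        exact_mod_cast h4)
    (fun h3 => by
      have h4 : l = 3 := by
        rw [hLdef] at h3
        exact_mod_cast h3
      rw [hc, spm_three h4]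
      norm_num) hη hc0 hN0 hρ (by positivity)
    (by
      calc (1 - η) * q ^ l ≤ (1 - ε) ^ l * q ^ l :=
            mul_le_mul_of_nonneg_right hε3 (by positivity)
        _ = ((1 - ε) * q) ^ l := (mul_pow _ _ _).symm
        _ ≤ x ^ l := pow_le_pow_left₀ (by
            have : 0 ≤ 1 - ε := by linarith
            positivity) hx1 l)
    (by
      rw [hYd, mul_pow]
      exact mul_le_mul_of_nonneg_right hε2 (by positivity))
  -- the error terms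
  have hcN : c + N ≤ τ := by linarith
  have g1 : C1 * τ * (c + N) * Z ≤ C1 * τ * τ * Z := by gcongr
  have g2 : E * N ≤ C0 * τ ^ 2 * Z := by
    rw [hE]
    calc C0 * τ * Z * N ≤ C0 * τ * Z * τ := mul_le_mul_of_nonneg_left (by linarith)
          (by positivity)
      _ = _ := by ring
  have g3 : E * ρ ≤ C0 * τ ^ 2 * Z := by
    rw [hE]
    calc C0 * τ * Z * ρ ≤ C0 * τ * Z * τ := mul_le_mul_of_nonneg_left (by linarith)
          (by positivity)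
      _ = _ := by ring
  have g4 : 2 * (L + 1) * Wo μ (dn μ ν) l ≤ 2 * (L + 1) * (8 * L * x ^ (l + 1)
      + (32 * c + 8 * N) * Y ^ l + C1 * τ * τ * Z) :=
    mul_le_mul_of_nonneg_left (by linarith) (by positivity)
  have g5 : (14 + 4 * L) * (E * N) ≤ (14 + 4 * L) * (C0 * τ ^ 2 * Z) :=
    mul_le_mul_of_nonneg_left g2 (by positivity)
  have g6 : (12 + 4 * L) * (E * ρ) ≤ (12 + 4 * L) * (C0 * τ ^ 2 * Z) :=
    mul_le_mul_of_nonneg_left g3 (by positivity)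
  have e1 : M + c + N + ρ - M = c + N + ρ := by ring
  rw [e1]
  have e2 : (2 * (L + 1) * C1 + C0 * (26 + 8 * L)) * τ ^ 2 * Z = 2 * (L + 1) * (C1 * τ * τ * Z)
      + (14 + 4 * L) * (C0 * τ ^ 2 * Z) + (12 + 4 * L) * (C0 * τ ^ 2 * Z) := by ring
  rw [e2]
  have e3 : 2 * (L + 1) * (8 * L * x ^ (l + 1)
      + (32 * c + 8 * N) * Y ^ l + C1 * τ * τ * Z) = 16 * L * (L + 1) * x ^ (l + 1)
      + 64 * (L + 1) * c * Y ^ l + 16 * (L + 1) * N * Y ^ l + 2 * (L + 1) * (C1 * τ * τ * Z) := by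
    ring
  rw [e3] at g4
  have e4 : 4 * (N * (4 * (L + 1) * Y ^ l + 3 * E)) + 6 * (ρ * (8 * Y ^ l + 2 * E))
      + 2 * (N * (L * (4 * (L - 1) * Y ^ l + E) + (4 * Y ^ l + E) + L * (4 * Y ^ l + E)))
      + 4 * (ρ * (L * (4 * Y ^ l + E))) = (16 * (L + 1) + 8 * L ^ 2 + 8) * N * Y ^ l
      + (48 + 16 * L) * ρ * Y ^ l + (14 + 4 * L) * (E * N) + (12 + 4 * L) * (E * ρ) := by ring
  have e5 : (32 * (L + 1) + 8 * L ^ 2 + 8) * N * Y ^ l = 16 * (L + 1) * N * Y ^ l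
      + (16 * (L + 1) + 8 * L ^ 2 + 8) * N * Y ^ l := by ring
  rw [e5] at hcf
  linarith

/-- The upper bound with a gain that is linear in the number of the other low vertices. -/
theorem spm_core {l : ℕ} (hl : 3 ≤ l) : ∃ K1 K2 N1 δ0 : ℝ, 0 ≤ K1 ∧ 0 ≤ K2 ∧ 1 ≤ N1 ∧ 0 < δ0 ∧
    ∀ (V : Type) [Fintype V] (G : SimpleGraph V) (h : Fin l ↪ V) (δ : ℝ), P5.Sparse6 G →
    P5.NoK33m G → 0 ≤ δ → δ ≤ δ0 → N1 ≤ (Fintype.card V : ℝ) →
    (∀ j, (1 - δ) * ((Fintype.card V : ℝ) / l) ≤ (Yj G h j).card + (l + 2 * (l : ℝ) ^ 3)) →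
    Tk G (2 * l + 2) ≤ 16 * l * (l + 1) * ((Fintype.card V : ℝ) / l) ^ (l + 1)
      - ((Or G h).card : ℝ) * ((Fintype.card V : ℝ) / l) ^ l
      + K1 * (Fintype.card V : ℝ) ^ l
      + K2 * (((Or G h).card : ℝ) ^ 2 * (Fintype.card V : ℝ) ^ (l - 1)) := by
  have hL : (3 : ℝ) ≤ l := by exact_mod_cast hl
  have hL1 : (1 : ℝ) ≤ l := by linarith
  have hL0 : (0 : ℝ) < l := by linarith
  obtain ⟨C1, hC1, hfg⟩ := spm_fg hl
  obtain ⟨η, ε, hη, hη0, hε0, hε1, hε2, hε3⟩ := spm_eps l hl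
  set L : ℝ := (l : ℝ) with hLdef
  obtain ⟨K0, hK0⟩ : ∃ K0 : ℝ, K0 = 2100 * L ^ 12 * (40 * L * 2 ^ l) := ⟨_, rfl⟩
  obtain ⟨D0, hD0⟩ : ∃ D0 : ℝ, D0 = 4 ^ (l + 1) * (6 ^ (l - 1) * (1000 * L ^ 3) + L ^ 2 * 6 ^ l) :=
    ⟨_, rfl⟩
  obtain ⟨C5, hC5⟩ : ∃ C5 : ℝ, C5 = 4 * L ^ 5 + L := ⟨_, rfl⟩
  obtain ⟨C6, hC6⟩ : ∃ C6 : ℝ, C6 = 16 * L * (L + 1) * ((l + 1) * (4 * L ^ 5) *
    (1 + 4 * L ^ 5) ^ l) := ⟨_, rfl⟩
  have hK00 : 0 ≤ K0 := by rw [hK0]; positivity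
  have hD00 : 0 ≤ D0 := by rw [hD0]; positivity
  have hC50 : 0 ≤ C5 := by rw [hC5]; positivity
  have hC60 : 0 ≤ C6 := by rw [hC6]; positivity
  refine ⟨K0 + D0 + C6 + (2 * L ^ 3 + L * (2 * L ^ 3)) + 8 * C1 * C5 ^ 2, D0 + 8 * C1,
    400 * L ^ 6 / ε, ε / (4 * L), by positivity, by positivity, ?_, by positivity, ?_⟩
  · rw [le_div_iff₀ hε0]
    have : (1 : ℝ) ≤ L ^ 6 := one_le_pow₀ hL1
    linarith
  intro V _ G h δ hS hK hδ0 hδ hn hy
  obtain ⟨ht, hyu⟩ := spm_y G hl h hδ0 hy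
  have hcr := card_ring G hl h
  obtain ⟨hW, hmu, hdd, hm1, hm2, _⟩ := cfg G (Hr h) hK
  have hHc : (Hr h).card = l := nea_hcard h
  rw [hHc] at hW hmu hdd hm1 hm2
  have hmuj := fun j => nea_mu G (show 2 ≤ l by omega) h (2 * (l : ℝ) ^ 3) j
  have hκ : (0 : ℝ) ≤ 2 * L ^ 3 := by positivity
  have hν0 : ∀ v, 0 ≤ nuG G (Hr h) (2 * L ^ 3) v := fun v => PTA_nuG_nonneg G (Hr h) hκ v
  have hn00 : (0 : ℝ) ≤ (P5.n0 G (Hr h) : ℝ) := Nat.cast_nonneg _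
  -- the crude hypotheses
  have hnn0 : (0 : ℝ) ≤ (Fintype.card V : ℝ) := Nat.cast_nonneg _
  have hn6 : 400 * L ^ 6 ≤ ε * (Fintype.card V : ℝ) := by
    rw [div_le_iff₀ hε0] at hn
    linarith
  have p6 : L ^ 6 = L * L ^ 5 := by ring
  have p5 : (1 : ℝ) ≤ L ^ 5 := one_le_pow₀ hL1
  have p51 : L ≤ L ^ 5 := le_self_pow₀ hL1 (by norm_num)
  have p52 : L ^ 2 ≤ L ^ 5 := pow_le_pow_right₀ hL1 (by norm_num)
  have p53 : L ^ 3 ≤ L ^ 5 := pow_le_pow_right₀ hL1 (by norm_num)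
  have p54 : L ^ 4 ≤ L ^ 5 := pow_le_pow_right₀ hL1 (by norm_num)
  have p56 : L ^ 5 ≤ L ^ 6 := pow_le_pow_right₀ hL1 (by norm_num)
  have hn5 : 4 * L ^ 5 ≤ (Fintype.card V : ℝ) := by
    have : ε * (Fintype.card V : ℝ) ≤ 1 * (Fintype.card V : ℝ) :=
      mul_le_mul_of_nonneg_right (by linarith) hnn0
    linarith
  have hmH : ms (mH G (Hr h)) ∅ ≤ 2 * (Fintype.card V : ℝ) := by
    have h1 := nrp_ms_mono hmu
    have h2 : 0 ≤ ∑ a, nuG G (Hr h) (2 * L ^ 3) a := sum_nonneg fun a _ => hν0 a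
    linarith
  have hdH := sum_dH G (Hr h) hS
  have hpairs := sp_pairs_fg G (Hr h) hS hK (by omega : 2 ≤ l) (by rw [hHc]; omega) hmH hdH hκ
    hW hmu hdd
  rw [hHc] at hpairs
  have htk := tk_ring G hS (show 1 ≤ l by omega) h
  have hx4 := x4_ring G hS hK hl h
  set μ := muG G (Hr h) (2 * L ^ 3) with hμ
  set ν := nuG G (Hr h) (2 * L ^ 3) with hν
  obtain ⟨n, hnd⟩ : ∃ n : ℝ, n = (Fintype.card V : ℝ) := ⟨_, rfl⟩
  obtain ⟨t, htd⟩ : ∃ t : ℝ, t = ((Or G h).card : ℝ) := ⟨_, rfl⟩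
  obtain ⟨ρ, hρd⟩ : ∃ ρ : ℝ, ρ = (P5.n0 G (Hr h) : ℝ) := ⟨_, rfl⟩
  obtain ⟨q, hqd⟩ : ∃ q : ℝ, q = n / L := ⟨_, rfl⟩
  obtain ⟨M, hMd⟩ : ∃ M : ℝ, M = ∑ j, μ (h j) (h (finRotate l j)) := ⟨_, rfl⟩
  obtain ⟨m, hmd⟩ : ∃ m : ℝ, m = ms μ ∅ + ∑ v, ν v + ρ := ⟨_, rfl⟩
  rw [← hnd] at ht hyu hm1 hm2 hnn0 hn6 hn5 hpairs htk hx4 hy ⊢
  rw [← htd] at ht hx4 ⊢
  rw [← hρd] at hm1 hm2 hn00 hpairs
  rw [← hmd] at hm1 hm2
  rw [← hqd] at hyu hy ⊢
  have ht0 : 0 ≤ t := htd ▸ Nat.cast_nonneg _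
  have hq0 : 0 ≤ q := by rw [hqd]; positivity
  have hLq : L * q = n := by
    rw [hqd]
    field_simp
  have hεq : 400 * L ^ 5 ≤ ε * q := by
    have h1 : L * (400 * L ^ 5) ≤ L * (ε * q) := by
      calc L * (400 * L ^ 5) = 400 * L ^ 6 := by ring
        _ ≤ ε * n := hn6
        _ = L * (ε * q) := by rw [← hLq]; ring
    exact le_of_mul_le_mul_left h1 hL0
  have hδn : δ * n ≤ ε * q / 4 := by
    have h1 : δ * n ≤ ε / (4 * L) * n := mul_le_mul_of_nonneg_right hδ hnn0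
    have e1 : ε / (4 * L) * n = ε * q / 4 := by
      rw [← hLq]
      field_simp
    linarith
  have hδq : δ * q ≤ ε * q / 4 := by
    refine le_trans ?_ hδn
    rw [← hLq]
    have h1 : δ * q * 1 ≤ δ * q * L := mul_le_mul_of_nonneg_left hL1 (mul_nonneg hδ0 hq0)
    linarith
  have hεq1 : ε * q ≤ 1 / 1000 * q := mul_le_mul_of_nonneg_right hε1 hq0
  have hn1 : 1 ≤ n := by linarith
  have hqn : q ≤ n := by
    rw [← hLq]
    exact le_mul_of_one_le_left hq0 hL1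
  -- the sum of the classes
  have hMt : M = n - L - t + L * (2 * L ^ 3) := by
    have h1 : M = ∑ j, ((Yj G h j).card : ℝ) + L * (2 * L ^ 3) := by
      rw [hMd, sum_congr rfl fun j _ => hmuj j, sum_add_distrib, sum_const, card_univ,
        Fintype.card_fin, nsmul_eq_mul]
    have h2 : L + ∑ j, ((Yj G h j).card : ℝ) + t = n := by
      rw [hnd, htd, ← hcr]
      push_cast
      rfl
    linarith
  have hnotin : ∀ a : V, (∀ i, h i ≠ a) → a ∉ Hr h := by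
    intro a ha hmem
    unfold Hr at hmem
    rw [Finset.mem_map] at hmem
    obtain ⟨i, _, hi⟩ := hmem
    exact ha i hi
  have hw1 : m - M ≤ t + C5 := by
    rw [hMt, hC5]
    have : 0 ≤ L * (2 * L ^ 3) := by positivity
    linarith
  have hw2 : t - (2 * L ^ 3 + L * (2 * L ^ 3)) ≤ m - M := by
    rw [hMt]
    linarith
  have hτ : 2 * (t + C5) ≤ q := by
    rw [hC5]
    linarith
  have hmain := hfg V h μ ν ρ q η ε (2 * (t + C5)) hW hν0
    (fun a b ha => by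
      rw [hμ]
      unfold muG
      rw [if_neg fun hh => hnotin a ha hh.1])
    (fun a ha => by
      rw [hν]
      unfold nuG
      rw [if_neg (hnotin a ha)]) hn00 hq0 hη hε0 hε1 hε2 hε3
    (fun j => by
      rw [hmuj j]
      have h1 := hy j
      linarith)
    (fun j => by
      rw [hmuj j]
      have h1 := hyu j
      linarith)
    (by rw [← hmd, ← hMd]; linarith) hτ
  rw [← hmd, ← hMd] at hmain
  -- the powers
  have hq1 : 0 ≤ q ^ l := by positivity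
  have hqnl : q ^ l ≤ n ^ l := pow_le_pow_left₀ hq0 hqn l
  have c1 : (m / L) ^ (l + 1) ≤ q ^ (l + 1) +
      (l + 1) * (4 * L ^ 5) * (1 + 4 * L ^ 5) ^ l * n ^ l := by
    have h1 := nea_pow2 l hn1 (show 0 ≤ 4 * L ^ 5 by positivity) hL1
    rw [← hqd] at h1
    refine le_trans ?_ h1
    have hm0 : 0 ≤ m := by linarith
    apply pow_le_pow_left₀ (by positivity)
    exact div_le_div_of_nonneg_right hm1 hL0.le
  have c2 := mul_le_mul_of_nonneg_left c1 (show 0 ≤ 16 * L * (L + 1) by positivity)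
  have e2 : 16 * L * (L + 1) * (q ^ (l + 1) +
      (l + 1) * (4 * L ^ 5) * (1 + 4 * L ^ 5) ^ l * n ^ l) =
      16 * L * (L + 1) * q ^ (l + 1) + C6 * n ^ l := by rw [hC6]; ring
  rw [e2] at c2
  have c3 : t * q ^ l - (2 * L ^ 3 + L * (2 * L ^ 3)) * n ^ l ≤ (m - M) * q ^ l := by
    have h1 := mul_le_mul_of_nonneg_right hw2 hq1
    have h2 : (2 * L ^ 3 + L * (2 * L ^ 3)) * q ^ l ≤ (2 * L ^ 3 + L * (2 * L ^ 3)) * n ^ l :=
      mul_le_mul_of_nonneg_left hqnl (by positivity)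
    linarith
  have hnl1 : n ^ (l - 1) ≤ n ^ l := pow_le_pow_right₀ hn1 (by omega)
  have hn10 : 0 ≤ n ^ (l - 1) := by positivity
  have c4 : C1 * (2 * (t + C5)) ^ 2 * ((1 + ε) * q) ^ (l - 1) ≤
      8 * C1 * (t ^ 2 * n ^ (l - 1)) + 8 * C1 * C5 ^ 2 * n ^ l := by
    have h1 : ((1 + ε) * q) ^ (l - 1) ≤ n ^ (l - 1) := by
      apply pow_le_pow_left₀ (by positivity)
      rw [← hLq]
      apply mul_le_mul_of_nonneg_right _ hq0
      linarith
    have h2 : (2 * (t + C5)) ^ 2 ≤ 8 * t ^ 2 + 8 * C5 ^ 2 := by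
      have h3 := sq_nonneg (t - C5)
      have e3 : 8 * t ^ 2 + 8 * C5 ^ 2 = (2 * (t + C5)) ^ 2 + 4 * (t - C5) ^ 2 := by ring
      rw [e3]
      linarith
    calc C1 * (2 * (t + C5)) ^ 2 * ((1 + ε) * q) ^ (l - 1)
        ≤ C1 * (8 * t ^ 2 + 8 * C5 ^ 2) * n ^ (l - 1) :=
          mul_le_mul (mul_le_mul_of_nonneg_left h2 hC1) h1 (by positivity) (by positivity)
      _ = 8 * C1 * (t ^ 2 * n ^ (l - 1)) + 8 * C1 * C5 ^ 2 * n ^ (l - 1) := by ring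
      _ ≤ _ := by
          have h3 : 8 * C1 * C5 ^ 2 * n ^ (l - 1) ≤ 8 * C1 * C5 ^ 2 * n ^ l :=
            mul_le_mul_of_nonneg_left hnl1 (by positivity)
          linarith
  have hnn : n ^ (l - 1) * n = n ^ l := by
    rw [← pow_succ]
    congr 1
    omega
  have c5 : 4 ^ (l + 1) * ((6 * n) ^ (l - 1) * x4 G (Hr h) + L ^ 2 * (6 * n) ^ l) ≤
      D0 * n ^ l + D0 * (t ^ 2 * n ^ (l - 1)) := by
    have h5 : (6 * n) ^ (l - 1) * x4 G (Hr h) ≤
        (6 * n) ^ (l - 1) * (1000 * L ^ 3 * (n + t ^ 2)) :=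
      mul_le_mul_of_nonneg_left hx4 (by positivity)
    have e1 : (6 * n) ^ (l - 1) * (1000 * L ^ 3 * (n + t ^ 2)) =
        6 ^ (l - 1) * (1000 * L ^ 3) * (n ^ (l - 1) * n + t ^ 2 * n ^ (l - 1)) := by
      rw [mul_pow]; ring
    have e2 : L ^ 2 * (6 * n) ^ l = L ^ 2 * 6 ^ l * n ^ l := by
      rw [mul_pow]; ring
    rw [e1, hnn] at h5
    have h6 : 0 ≤ L ^ 2 * 6 ^ l * (t ^ 2 * n ^ (l - 1)) := by positivity
    have h7 : (6 * n) ^ (l - 1) * x4 G (Hr h) + L ^ 2 * (6 * n) ^ l ≤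
        (6 ^ (l - 1) * (1000 * L ^ 3) + L ^ 2 * 6 ^ l) * (n ^ l + t ^ 2 * n ^ (l - 1)) := by
      rw [e2]
      linarith
    calc _ ≤ 4 ^ (l + 1) * ((6 ^ (l - 1) * (1000 * L ^ 3) + L ^ 2 * 6 ^ l) *
          (n ^ l + t ^ 2 * n ^ (l - 1))) := mul_le_mul_of_nonneg_left h7 (by positivity)
      _ = _ := by rw [hD0]; ring
  have c6 : 2100 * L ^ 12 * (40 * L * 2 ^ l * n ^ l) = K0 * n ^ l := by rw [hK0]; ring
  rw [c6] at hpairs
  have e9 : (K0 + D0 + C6 + (2 * L ^ 3 + L * (2 * L ^ 3)) + 8 * C1 * C5 ^ 2) * n ^ l =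
      K0 * n ^ l + D0 * n ^ l + C6 * n ^ l + (2 * L ^ 3 + L * (2 * L ^ 3)) * n ^ l
        + 8 * C1 * C5 ^ 2 * n ^ l := by ring
  have e10 : (D0 + 8 * C1) * (t ^ 2 * n ^ (l - 1)) = D0 * (t ^ 2 * n ^ (l - 1))
      + 8 * C1 * (t ^ 2 * n ^ (l - 1)) := by ring
  rw [e9, e10]
  linarith

theorem sp_near {l : ℕ} (hl : 3 ≤ l) : NE l := by
  have hL : (3 : ℝ) ≤ l := by exact_mod_cast hl
  have hL1 : (1 : ℝ) ≤ l := by linarith
  have hL0 : (0 : ℝ) < l := by linarith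
  obtain ⟨K1, K2, N1, δ0, hK1, hK2, hN1, hδ0, hcore⟩ := spm_core hl
  set L : ℝ := (l : ℝ) with hLdef
  obtain ⟨C4, hC4⟩ : ∃ C4 : ℝ, C4 = L ^ 2 + 2 * L ^ 4 := ⟨_, rfl⟩
  have hC40 : 0 ≤ C4 := by rw [hC4]; positivity
  obtain ⟨δ, hδ⟩ : ∃ δ : ℝ, δ = min δ0 (1 / ((K2 + 1) * L ^ l)) := ⟨_, rfl⟩
  have hδp : 0 < δ := by
    rw [hδ]
    exact lt_min hδ0 (by positivity)
  have hδ1 : δ ≤ δ0 := by
    rw [hδ]
    exact min_le_left _ _
  have hδ2 : K2 * δ * L ^ l ≤ 1 := by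
    have h1 : δ ≤ 1 / ((K2 + 1) * L ^ l) := by
      rw [hδ]
      exact min_le_right _ _
    have h2 : K2 * δ * L ^ l ≤ (K2 + 1) * L ^ l * δ := by
      have h3 : 0 ≤ L ^ l * δ := by positivity
      nlinarith
    have h3 := mul_le_mul_of_nonneg_left h1 (show 0 ≤ (K2 + 1) * L ^ l by positivity)
    have e1 : (K2 + 1) * L ^ l * (1 / ((K2 + 1) * L ^ l)) = 1 := by
      field_simp
    linarith
  refine ⟨δ, K1 + K2 * C4 + N1 ^ (l + 2), hδp, ?_⟩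
  intro V _ G h hS hK hm
  set n : ℝ := (Fintype.card V : ℝ) with hn
  have hn0 : 0 ≤ n := Nat.cast_nonneg _
  have hmain0 : 0 ≤ 16 * L * (L + 1) * (n / L) ^ (l + 1) := by positivity
  have hnl : 0 ≤ n ^ l := by positivity
  have hN10 : 0 ≤ N1 := by linarith
  rcases lt_or_ge n N1 with hnN | hnN
  · have h1 := nea_tk_le G (2 * l + 2)
    rw [← hn, show 2 * l + 2 = (l + 2) + l by ring, pow_add] at h1
    rw [show (l + 2) + l = 2 * l + 2 by ring] at h1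
    have h2 : n ^ (l + 2) * n ^ l ≤ N1 ^ (l + 2) * n ^ l :=
      mul_le_mul_of_nonneg_right (pow_le_pow_left₀ hn0 hnN.le _) hnl
    have h3 : 0 ≤ (K1 + K2 * C4) * n ^ l := mul_nonneg (by positivity) hnl
    have h4 : (K1 + K2 * C4 + N1 ^ (l + 2)) * n ^ l =
      (K1 + K2 * C4) * n ^ l + N1 ^ (l + 2) * n ^ l := by ring
    rw [h4]
    linarith
  · have hy : ∀ j, (1 - δ) * (n / L) ≤ (Yj G h j).card + (L + 2 * L ^ 3) := fun j =>
      (hm j).trans (nea_common G hK (by omega) h j)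
    obtain ⟨ht, -⟩ := spm_y G hl h hδp.le hy
    have h1 := hcore V G h δ hS hK hδp.le hδ1 hnN hy
    rw [← hn] at ht h1
    rw [← hLdef, ← hC4] at ht
    set t : ℝ := ((Or G h).card : ℝ) with htdef
    have ht0 : 0 ≤ t := Nat.cast_nonneg _
    have htn : t ≤ n := by
      have hc := card_ring G hl h
      have : (Or G h).card ≤ Fintype.card V := by omega
      rw [htdef, hn]
      exact_mod_cast this
    have hnn : n ^ (l - 1) * n = n ^ l := by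
      rw [← pow_succ]
      congr 1
      omega
    have hn10 : 0 ≤ n ^ (l - 1) := by positivity
    have a1 : t ^ 2 * n ^ (l - 1) ≤ t * (δ * n + C4) * n ^ (l - 1) := by
      refine mul_le_mul_of_nonneg_right ?_ hn10
      rw [pow_two]
      exact mul_le_mul_of_nonneg_left ht ht0
    have a2 : t * (δ * n + C4) * n ^ (l - 1) = δ * t * n ^ l + C4 * (t * n ^ (l - 1)) := by
      rw [← hnn]; ring
    have a3 : t * n ^ (l - 1) ≤ n ^ l := by
      rw [← hnn, mul_comm]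
      exact mul_le_mul_of_nonneg_left htn hn10
    have a4 : C4 * (t * n ^ (l - 1)) ≤ C4 * n ^ l := mul_le_mul_of_nonneg_left a3 hC40
    have a5 : K2 * (t ^ 2 * n ^ (l - 1)) ≤ K2 * (δ * t * n ^ l + C4 * n ^ l) :=
      mul_le_mul_of_nonneg_left (by linarith) hK2
    have a6 : K2 * (δ * t * n ^ l) ≤ t * (n / L) ^ l := by
      have e1 : n ^ l = L ^ l * (n / L) ^ l := by
        rw [← mul_pow]
        congr 1
        field_simp
      have h2 : K2 * (δ * t * n ^ l) = K2 * δ * L ^ l * (t * (n / L) ^ l) := by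
        rw [e1]
        ring
      rw [h2]
      have h3 : 0 ≤ t * (n / L) ^ l := by positivity
      calc K2 * δ * L ^ l * (t * (n / L) ^ l) ≤ 1 * (t * (n / L) ^ l) :=
            mul_le_mul_of_nonneg_right hδ2 h3
        _ = _ := one_mul _
    have a7 : K2 * (δ * t * n ^ l + C4 * n ^ l) = K2 * (δ * t * n ^ l) + K2 * C4 * n ^ l := by
      ring
    have a8 : 0 ≤ N1 ^ (l + 2) * n ^ l := by positivity
    have a9 : (K1 + K2 * C4 + N1 ^ (l + 2)) * n ^ l =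
      K1 * n ^ l + K2 * C4 * n ^ l + N1 ^ (l + 2) * n ^ l := by ring
    rw [a9]
    linarith

end

end Pool.Agent.Lib.MP_009d13_co.SP
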