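import Pool.Agent.Lib.MP_009d13_co.OD.NRS

/-!
# The functional near a ring, exact constants

As `OD/NRS.lean`, for all `l ≥ 3` and with the exact number of pairs of arcs: `l - 1` for two
consecutive hubs, `2` for two hubs that are not consecutive, `0` for a hub and itself.
-/

set_option autoImplicit false

namespace Pool.Agent.Lib.MP_009d13_co.SP

open Finset Classical
open Pool.Agent.Lib.MP_009d13_co.OD

noncomputable section

/-! ### Arcs -/

section arcs

variable {W : Type} {l : ℕ} (φ : W ≃ ZMod l)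

theorem sprb_arc_char (L : List W) (x : W) (h1 : (x :: L).IsChain (nrs_lk φ))
    (h2 : (x :: L).Nodup) :
    ∃ s : Bool, x :: L = nrs_arc φ s (L.length + 1) x ∧ (L.length = 0 → s = true) := by
  obtain ⟨s, hs⟩ := nrs_arc_char φ L x h1 h2
  cases L with
  | nil => exact ⟨true, by rw [List.length_nil, nrs_arc_one], fun _ => rfl⟩
  | cons y T => exact ⟨s, hs, fun h => by simp at h⟩

/-- the direction of an arc with one element is fixed -/
def sprb_c (l i : ℕ) (s s' : Bool) : Prop :=
  (i = 0 → s = true) ∧ (l - 1 - i = 1 → s' = true)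

/-- two disjoint arcs that cover the ring and start at hubs that are not consecutive -/
theorem sprb_two [NeZero l] (s s' : Bool) (α β : ZMod l) {p q : ℕ} (hp : 1 ≤ p)
    (hpq : p + q = l)
    (hd : ∀ u < p, ∀ v < q, α + nrs_s l s * (u : ZMod l) ≠ β + nrs_s l s' * (v : ZMod l))
    (hq : 1 ≤ q) (h1 : α ≠ β + 1) (h2 : β ≠ α + 1) :
    s' = s ∧ p = (nrs_s l s * (β - α)).val := by
  refine ⟨?_, nrs_two s s' α β hp hpq hd hq h1 h2⟩
  set σ := nrs_s l s with hσ
  have hσ2 : σ * σ = 1 := nrs_s_sq l s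
  set t := (σ * (β - α)).val with ht
  have htl : t < l := ZMod.val_lt _
  have htc : ((t : ℕ) : ZMod l) = σ * (β - α) := by rw [ht, ZMod.natCast_zmod_val]
  have hβ : β = α + σ * (t : ZMod l) := by
    rw [htc, ← mul_assoc, hσ2]
    ring
  have hl0 : ((l : ℕ) : ZMod l) = 0 := ZMod.natCast_self l
  have hpt : p ≤ t := by
    by_contra hc
    push Not at hc
    refine hd t hc 0 (by omega) ?_
    rw [← hβ]
    simp
  by_contra hss
  have h3 : nrs_s l s' = -σ := by
    rw [hσ]
    cases s <;> cases s' <;> simp [nrs_s] at hss ⊢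
  by_cases htl1 : t = l - 1
  · have h4 : β = α - σ := by
      rw [hβ, htl1, Nat.cast_sub (by omega), hl0]
      push_cast
      ring
    rw [hσ] at h4
    cases s
    · simp [nrs_s] at h4
      exact h2 h4
    · simp [nrs_s] at h4
      exact h1 (by rw [h4]; ring)
  · refine hd (p - 1) (by omega) (t - p + 1) (by omega) ?_
    rw [h3, hβ, Nat.cast_sub hp]
    push_cast [Nat.cast_sub hpt]
    ring

end arcs

/-! ### Bounds on the ring -/

section core

variable {W : Type} [Fintype W] {l : ℕ} (φ : W ≃ ZMod l) {μ : W → W → ℝ} {Y τ : ℝ}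

/-- the two arcs are disjoint -/
def sprb_D (a b : W) (i : ℕ) (s s' : Bool) : Prop :=
  nrs_D φ a b i s s' ∧ sprb_c l i s s'

theorem sprb_core_So (hs : ∀ a b, μ a b = μ b a) (h0 : ∀ a b, 0 ≤ μ a b) (h1 : ∀ a b, μ a b ≤ Y)
    (h2 : ∀ a b, ¬ nrs_lk φ a b → μ a b ≤ τ) (hτ : 0 ≤ τ) (hτY : τ ≤ Y) {d : W → ℝ}
    (d0 : ∀ a, 0 ≤ d a) (d1 : ∀ a, d a ≤ 2 * Y + τ) (hl : 3 ≤ l) (a b : W) :
    So μ d l a b ≤ (∑ i ∈ range (l - 1), ∑ s : Bool, ∑ s' : Bool,
        if sprb_D φ a b i s s' then Y ^ (l - 2) * (2 * Y + τ) ^ 2 else 0) +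
      nrs_N W l * (9 * (τ * Y ^ (l - 1))) := by
  have hY : 0 ≤ Y := hτ.trans hτY
  set G : ℝ := Y ^ (l - 2) * (2 * Y + τ) ^ 2 with hG
  set B : ℝ := 9 * (τ * Y ^ (l - 1)) with hB
  have hG0 : 0 ≤ G := by rw [hG]; positivity
  have hB0 : 0 ≤ B := by rw [hB]; positivity
  have key : ∀ i ∈ range (l - 1), ∀ P ∈ NL (∅ : Finset W) (i + 1),
      ∀ Q ∈ NL P.toFinset (l - 1 - i),
      hd d P * pw μ P * ls (fun u => hd (fun w => if u = a ∧ w = b then (1 : ℝ) else 0) Q) P *
        pw μ Q * ls d Q ≤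
      (∑ s : Bool, ∑ s' : Bool, if P = (nrs_arc φ s (i + 1) a).reverse ∧
        Q = nrs_arc φ s' (l - 1 - i) b ∧ sprb_c l i s s' then G else 0) + B := by
    intro i hi P hP Q hQ
    rw [mem_range] at hi
    rw [mem_NL] at hP hQ
    obtain ⟨hlP, hnP, -⟩ := hP
    obtain ⟨hlQ, hnQ, -⟩ := hQ
    have hS0 : 0 ≤ ∑ s : Bool, ∑ s' : Bool, (if P = (nrs_arc φ s (i + 1) a).reverse ∧
        Q = nrs_arc φ s' (l - 1 - i) b ∧ sprb_c l i s s' then G else 0) := by
      refine Finset.sum_nonneg fun s _ => Finset.sum_nonneg fun s' _ => ?_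
      split_ifs <;> simp [hG0]
    cases hr : P.reverse with
    | nil =>
      rw [List.reverse_eq_nil_iff] at hr
      rw [hr] at hlP
      simp at hlP
    | cons x T =>
      cases Q with
      | nil => simp at hlQ; omega
      | cons y T' =>
        have e1 : ls (fun u => hd (fun w => if u = a ∧ w = b then (1 : ℝ) else 0) (y :: T')) P =
            if x = a ∧ y = b then 1 else 0 := by
          unfold ls
          rw [hr]
          rfl
        rw [e1]
        have hPr : P = (x :: T).reverse := by rw [← hr, List.reverse_reverse]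
        have hpwP : pw μ P = pw μ (x :: T) := by rw [hPr, pw_reverse μ hs]
        have hlen : (x :: T).length = i + 1 := by rw [← hr, List.length_reverse, hlP]
        have hnd : (x :: T).Nodup := by rw [← hr, List.nodup_reverse]; exact hnP
        by_cases hxy : x = a ∧ y = b
        · rw [if_pos hxy, mul_one, hpwP]
          have hd1 : hd d P ≤ 2 * Y + τ := by
            cases P with
            | nil => simp at hlP
            | cons z R => exact d1 z
          have hd0' := hd_nonneg d0 P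
          have hls0 := ls_nonneg d0 (y :: T')
          have hls1 : ls d (y :: T') ≤ 2 * Y + τ := by
            unfold ls
            cases hr' : (y :: T').reverse with
            | nil => simp at hr'
            | cons z R => exact d1 z
          have hp0 := pw_nonneg μ h0 (x :: T)
          have hq0 := pw_nonneg μ h0 (y :: T')
          obtain ⟨q, hq⟩ : ∃ q, l - 1 - i = q + 1 := ⟨l - 1 - i - 1, by omega⟩
          have hp1 := nrs_pw_le h0 h1 (x :: T) i hlen
          have hq1 := nrs_pw_le h0 h1 (y :: T') q (by rw [hlQ, hq])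
          have hiq : i + q = l - 2 := by omega
          have hiq1 : i + q + 1 = l - 1 := by omega
          by_cases hc : (x :: T).IsChain (nrs_lk φ)
          · by_cases hc' : (y :: T').IsChain (nrs_lk φ)
            · have hT : T.length + 1 = i + 1 := by simpa using hlen
              have hT' : T'.length + 1 = l - 1 - i := by simpa using hlQ
              obtain ⟨s, hs1, hc1⟩ := sprb_arc_char φ T x hc hnd
              obtain ⟨s', hs2, hc2⟩ := sprb_arc_char φ T' y hc' hnQ
              have hcc : sprb_c l i s s' := ⟨fun h => hc1 (by omega), fun h => hc2 (by omega)⟩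
              rw [hT, hxy.1] at hs1
              rw [hT', hxy.2] at hs2
              have h3 : hd d P * pw μ (x :: T) * pw μ (y :: T') * ls d (y :: T') ≤ G := by
                calc hd d P * pw μ (x :: T) * pw μ (y :: T') * ls d (y :: T')
                    ≤ (2 * Y + τ) * Y ^ i * Y ^ q * (2 * Y + τ) := by gcongr
                  _ = G := by rw [hG, ← hiq, pow_add]; ring
              have h4 : G ≤ ∑ s : Bool, ∑ s' : Bool,
                  (if P = (nrs_arc φ s (i + 1) a).reverse ∧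
                  (y :: T') = nrs_arc φ s' (l - 1 - i) b ∧ sprb_c l i s s' then G else 0) := by
                have h5 : ∀ s s' : Bool, 0 ≤ (if P = (nrs_arc φ s (i + 1) a).reverse ∧
                  (y :: T') = nrs_arc φ s' (l - 1 - i) b ∧ sprb_c l i s s' then G else 0) := by
                  intro s s'
                  split_ifs <;> simp [hG0]
                refine le_trans ?_ (Finset.single_le_sum (f := fun s : Bool => ∑ s' : Bool,
                  (if P = (nrs_arc φ s (i + 1) a).reverse ∧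
                  (y :: T') = nrs_arc φ s' (l - 1 - i) b ∧ sprb_c l i s s' then G else 0))
                  (fun s _ => Finset.sum_nonneg fun s' _ => h5 s s') (Finset.mem_univ s))
                refine le_trans ?_ (Finset.single_le_sum (f := fun s' : Bool =>
                  (if P = (nrs_arc φ s (i + 1) a).reverse ∧
                  (y :: T') = nrs_arc φ s' (l - 1 - i) b ∧ sprb_c l i s s' then G else 0))
                  (fun s' _ => h5 s s') (Finset.mem_univ s'))
                rw [if_pos]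
                refine ⟨?_, ?_, hcc⟩
                · rw [hPr, ← hs1, hxy.1]
                · rw [← hs2, hxy.2]
              linarith
            · have h3 := nrs_pw_bad φ h0 h1 h2 hY hτ (y :: T') q (by rw [hlQ, hq]) hc'
              have h4 : hd d P * pw μ (x :: T) * pw μ (y :: T') * ls d (y :: T') ≤ B := by
                calc hd d P * pw μ (x :: T) * pw μ (y :: T') * ls d (y :: T')
                    ≤ (3 * Y) * Y ^ i * pw μ (y :: T') * (3 * Y) := by
                      gcongr <;> linarith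
                  _ = 9 * Y ^ (i + 1) * (pw μ (y :: T') * Y) := by ring
                  _ ≤ 9 * Y ^ (i + 1) * (τ * Y ^ q) :=
                      mul_le_mul_of_nonneg_left h3 (by positivity)
                  _ = B := by rw [hB, ← hiq1]; ring
              linarith
          · have h3 := nrs_pw_bad φ h0 h1 h2 hY hτ (x :: T) i hlen hc
            have h4 : hd d P * pw μ (x :: T) * pw μ (y :: T') * ls d (y :: T') ≤ B := by
              calc hd d P * pw μ (x :: T) * pw μ (y :: T') * ls d (y :: T')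
                  ≤ (3 * Y) * pw μ (x :: T) * Y ^ q * (3 * Y) := by
                    gcongr <;> linarith
                _ = 9 * Y ^ (q + 1) * (pw μ (x :: T) * Y) := by ring
                _ ≤ 9 * Y ^ (q + 1) * (τ * Y ^ i) :=
                    mul_le_mul_of_nonneg_left h3 (by positivity)
                _ = B := by rw [hB, ← hiq1]; ring
            linarith
        · rw [if_neg hxy]
          simp only [mul_zero, zero_mul]
          linarith
  unfold So CC
  refine (Finset.sum_le_sum fun i hi => Finset.sum_le_sum fun P hP =>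
    Finset.sum_le_sum fun Q hQ => key i hi P hP Q hQ).trans ?_
  have e2 : ∀ i ∈ range (l - 1), ∑ P ∈ NL (∅ : Finset W) (i + 1),
      ∑ Q ∈ NL P.toFinset (l - 1 - i), ((∑ s : Bool, ∑ s' : Bool,
        if P = (nrs_arc φ s (i + 1) a).reverse ∧
        Q = nrs_arc φ s' (l - 1 - i) b ∧ sprb_c l i s s' then G else 0) + B) ≤
      (∑ s : Bool, ∑ s' : Bool,
        if nrs_arc φ s' (l - 1 - i) b ∈
          NL (nrs_arc φ s (i + 1) a).reverse.toFinset (l - 1 - i) ∧ sprb_c l i s s' then G else 0) +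
      (∑ P ∈ NL (∅ : Finset W) (i + 1), ∑ _Q ∈ NL P.toFinset (l - 1 - i), (1 : ℝ)) * B := by
    intro i _
    simp_rw [Finset.sum_add_distrib]
    refine add_le_add ?_ (le_of_eq ?_)
    · have e3 : ∑ P ∈ NL (∅ : Finset W) (i + 1), ∑ Q ∈ NL P.toFinset (l - 1 - i),
          (∑ s : Bool, ∑ s' : Bool, if P = (nrs_arc φ s (i + 1) a).reverse ∧
            Q = nrs_arc φ s' (l - 1 - i) b ∧ sprb_c l i s s' then G else 0) =
          ∑ s : Bool, ∑ s' : Bool, ∑ P ∈ NL (∅ : Finset W) (i + 1),
            ∑ Q ∈ NL P.toFinset (l - 1 - i), (if P = (nrs_arc φ s (i + 1) a).reverse ∧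
            Q = nrs_arc φ s' (l - 1 - i) b ∧ sprb_c l i s s' then G else 0) := by
        calc _ = ∑ P ∈ NL (∅ : Finset W) (i + 1), ∑ s : Bool, ∑ s' : Bool,
            ∑ Q ∈ NL P.toFinset (l - 1 - i), (if P = (nrs_arc φ s (i + 1) a).reverse ∧
            Q = nrs_arc φ s' (l - 1 - i) b ∧ sprb_c l i s s' then G else 0) := by
              refine Finset.sum_congr rfl fun P _ => ?_
              rw [Finset.sum_comm]
              refine Finset.sum_congr rfl fun s _ => ?_
              rw [Finset.sum_comm]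
          _ = _ := by
              rw [Finset.sum_comm]
              refine Finset.sum_congr rfl fun s _ => ?_
              rw [Finset.sum_comm]
      rw [e3]
      refine Finset.sum_le_sum fun s _ => Finset.sum_le_sum fun s' _ => ?_
      set P0 := (nrs_arc φ s (i + 1) a).reverse with hP0
      set Q0 := nrs_arc φ s' (l - 1 - i) b with hQ0
      have e4 : ∀ P ∈ NL (∅ : Finset W) (i + 1), ∑ Q ∈ NL P.toFinset (l - 1 - i),
          (if P = P0 ∧ Q = Q0 ∧ sprb_c l i s s' then G else 0) ≤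
          if P = P0 then (if Q0 ∈ NL P0.toFinset (l - 1 - i) ∧ sprb_c l i s s' then G else 0)
            else 0 := by
        intro P _
        by_cases hP : P = P0
        · rw [if_pos hP, hP]
          by_cases hcc : sprb_c l i s s'
          · simp only [true_and, hcc, and_true]
            rw [Finset.sum_ite_eq']
          · simp [hcc]
        · rw [if_neg hP]
          simp [hP]
      refine (Finset.sum_le_sum e4).trans ?_
      rw [Finset.sum_ite_eq']
      split_ifs <;> simp [hG0]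
    · rw [Finset.sum_mul]
      refine Finset.sum_congr rfl fun P _ => ?_
      rw [Finset.sum_mul]
      simp
  refine (Finset.sum_le_sum e2).trans ?_
  rw [Finset.sum_add_distrib, ← Finset.sum_mul]
  refine add_le_add (le_of_eq ?_) le_rfl
  refine Finset.sum_congr rfl fun i _ => Finset.sum_congr rfl fun s _ =>
    Finset.sum_congr rfl fun s' _ => ?_
  exact if_congr Iff.rfl rfl rfl

/-- one pair for every length -/
theorem sprb_count_adj {G : ℝ} (hG0 : 0 ≤ G) (D : ℕ → Bool → Bool → Prop)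
    (t t' : ℕ → Bool) (ht : ∀ i s s', i < l - 1 → D i s s' → s = t i ∧ s' = t' i) :
    (∑ i ∈ range (l - 1), ∑ s : Bool, ∑ s' : Bool, if D i s s' then G else 0) ≤
      ((l - 1 : ℕ) : ℝ) * G := by
  have h1 : ∀ i ∈ range (l - 1), (∑ s : Bool, ∑ s' : Bool, if D i s s' then G else 0) ≤ G := by
    intro i hi
    rw [mem_range] at hi
    calc (∑ s : Bool, ∑ s' : Bool, if D i s s' then G else 0)
        ≤ ∑ s : Bool, ∑ s' : Bool, if s = t i ∧ s' = t' i then G else 0 := by
          refine Finset.sum_le_sum fun s _ => Finset.sum_le_sum fun s' _ => ?_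
          by_cases hD : D i s s'
          · rw [if_pos hD, if_pos (ht i s s' hi hD)]
          · rw [if_neg hD]
            split_ifs <;> simp [hG0]
      _ = G := by
          cases t i <;> cases t' i <;> simp
  refine (Finset.sum_le_sum h1).trans ?_
  rw [Finset.sum_const, card_range, nsmul_eq_mul]

/-- two pairs in all -/
theorem sprb_count_chord {G : ℝ} (hG0 : 0 ≤ G) (D : ℕ → Bool → Bool → Prop)
    (t : Bool → ℕ) (ht : ∀ i s s', i < l - 1 → D i s s' → s' = s ∧ i + 1 = t s) :
    (∑ i ∈ range (l - 1), ∑ s : Bool, ∑ s' : Bool, if D i s s' then G else 0) ≤ 2 * G := by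
  have h1 : (∑ i ∈ range (l - 1), ∑ s : Bool, ∑ s' : Bool, if D i s s' then G else 0) ≤
      ∑ i ∈ range (l - 1), ∑ s : Bool, ∑ s' : Bool, if i = t s - 1 then
        (if s' = s then G else 0) else 0 := by
    refine Finset.sum_le_sum fun i hi => Finset.sum_le_sum fun s _ => Finset.sum_le_sum
      fun s' _ => ?_
    rw [mem_range] at hi
    by_cases hD : D i s s'
    · have := ht i s s' hi hD
      rw [if_pos hD, if_pos (by omega), if_pos this.1]
    · rw [if_neg hD]
      split_ifs <;> simp [hG0]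
  refine h1.trans ?_
  rw [Finset.sum_comm]
  have h2 : ∀ s : Bool, ∑ i ∈ range (l - 1), ∑ s' : Bool,
      (if i = t s - 1 then (if s' = s then G else 0) else 0) ≤ G := by
    intro s
    rw [Finset.sum_comm]
    calc _ ≤ ∑ s' : Bool, (if s' = s then G else 0) := by
          refine Finset.sum_le_sum fun s' _ => ?_
          rw [Finset.sum_ite_eq']
          split_ifs <;> simp [hG0]
      _ = G := by simp
  calc _ ≤ ∑ _s : Bool, G := Finset.sum_le_sum fun s _ => h2 s
    _ = 2 * G := by simp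

end core

/-! ### Directions -/

section dir

variable {W : Type} [Fintype W] {l : ℕ} (φ : W ≃ ZMod l)

theorem sprb_dir_fwd {a b : W} (h : φ b = φ a + 1) {i : ℕ} {s s' : Bool} (hi : i < l - 1)
    (hD : sprb_D φ a b i s s') : s = decide (i = 0) ∧ s' = true := by
  obtain ⟨hD1, hc1, hc2⟩ := hD
  have hd := nrs_disj φ hD1
  refine ⟨?_, ?_⟩
  · by_cases hi0 : i = 0
    · rw [hc1 hi0]
      simp [hi0]
    · cases s
      · simp [hi0]
      · exfalso
        refine hd 1 (by omega) 0 (by omega) ?_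
        rw [h]
        simp [nrs_s]
  · by_cases hi1 : l - 1 - i = 1
    · exact hc2 hi1
    · cases s'
      · exfalso
        refine hd 0 (by omega) 1 (by omega) ?_
        rw [h]
        simp [nrs_s]
      · rfl

theorem sprb_dir_bwd {a b : W} (h : φ a = φ b + 1) {i : ℕ} {s s' : Bool} (hi : i < l - 1)
    (hD : sprb_D φ a b i s s') : s = true ∧ s' = decide (l - 1 - i = 1) := by
  obtain ⟨hD1, hc1, hc2⟩ := hD
  have hd := nrs_disj φ hD1
  refine ⟨?_, ?_⟩
  · by_cases hi0 : i = 0
    · exact hc1 hi0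
    · cases s
      · exfalso
        refine hd 1 (by omega) 0 (by omega) ?_
        rw [h]
        simp [nrs_s]
      · rfl
  · by_cases hi1 : l - 1 - i = 1
    · rw [hc2 hi1]
      simp [hi1]
    · cases s'
      · simp [hi1]
      · exfalso
        refine hd 0 (by omega) 1 (by omega) ?_
        rw [h]
        simp [nrs_s]

end dir

/-- A hub and itself. -/
theorem sp_So_self {V : Type} [Fintype V] (μ : V → V → ℝ) (d : V → ℝ) (l : ℕ) (a : V) :
    So μ d l a a = 0 := by
  unfold So CC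
  refine Finset.sum_eq_zero fun i hi => Finset.sum_eq_zero fun P hP =>
    Finset.sum_eq_zero fun Q hQ => ?_
  rw [mem_range] at hi
  rw [mem_NL] at hP hQ
  obtain ⟨hlP, -, -⟩ := hP
  obtain ⟨hlQ, -, hQP⟩ := hQ
  cases hr : P.reverse with
  | nil =>
    rw [List.reverse_eq_nil_iff] at hr
    rw [hr] at hlP
    simp at hlP
  | cons x T =>
    cases Q with
    | nil => simp at hlQ; omega
    | cons y T' =>
      have e1 : ls (fun u => hd (fun w => if u = a ∧ w = a then (1 : ℝ) else 0) (y :: T')) P =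
          if x = a ∧ y = a then 1 else 0 := by
        unfold ls
        rw [hr]
        rfl
      rw [e1, if_neg]
      · ring
      · rintro ⟨rfl, rfl⟩
        refine hQP y (by simp) ?_
        rw [List.mem_toFinset, ← List.mem_reverse, hr]
        simp

/-- The functional near a ring. -/
theorem sprb_bounds {l : ℕ} (hl : 3 ≤ l) : ∃ C : ℝ, 0 ≤ C ∧ ∀ (V : Type) [Fintype V]
    (h : Fin l ↪ V) (μ : V → V → ℝ) (d : V → ℝ) (Y τ : ℝ), Wt μ → 0 ≤ τ → τ ≤ Y →
    (∀ j, μ (h j) (h (finRotate l j)) ≤ Y) →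
    (∀ i j, i ≠ j → j ≠ finRotate l i → i ≠ finRotate l j → μ (h i) (h j) ≤ τ) →
    (∀ a b, (∀ i, h i ≠ a) → μ a b = 0) → (∀ a, 0 ≤ d a) → (∀ i, d (h i) ≤ 2 * Y + τ) →
    (∀ a, (∀ i, h i ≠ a) → d a = 0) →
    (∀ i, En μ d l (h i) ≤ 4 * Y ^ l + C * τ * Y ^ (l - 1)) ∧
    (∀ i j, j = finRotate l i ∨ i = finRotate l j →
      So μ d l (h i) (h j) ≤ 4 * (l - 1) * Y ^ l + C * τ * Y ^ (l - 1)) ∧
    (∀ i j, i ≠ j → j ≠ finRotate l i → i ≠ finRotate l j →
      So μ d l (h i) (h j) ≤ 8 * Y ^ l + C * τ * Y ^ (l - 1)) := by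
  have : NeZero l := ⟨by omega⟩
  let φ : Fin l ≃ ZMod l := (ZMod.finEquiv l).toEquiv
  have hφ : ∀ i, φ (finRotate l i) = φ i + 1 := by
    intro i
    change (ZMod.finEquiv l) (finRotate l i) = (ZMod.finEquiv l) i + 1
    rw [finRotate_apply, map_add, map_one]
  have hlk : ∀ i j, nrs_lk φ i j → j = finRotate l i ∨ i = finRotate l j := by
    intro i j hij
    rcases hij with hij | hij
    · left
      refine φ.injective ?_
      rw [hφ, hij]
    · right
      refine φ.injective ?_
      rw [hφ, hij]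
  set N1 : ℝ := ((NL (∅ : Finset (Fin l)) l).card : ℝ) with hN1
  have hN10 : 0 ≤ N1 := by rw [hN1]; positivity
  set N2 : ℝ := nrs_N (Fin l) l with hN2
  have hN20 : 0 ≤ N2 := nrs_N_nonneg _ _
  refine ⟨2 + 3 * N1 + 5 * l + 9 * N2, by positivity, ?_⟩
  intro V _ h μ d Y τ hμ hτ hτY hr hn hz hd0 hd1 hdz
  have hY : 0 ≤ Y := hτ.trans hτY
  have m0 : ∀ a b : Fin l, 0 ≤ μ (h a) (h b) := fun a b => hμ.nonneg _ _
  have m2 : ∀ a b : Fin l, ¬ nrs_lk φ a b → μ (h a) (h b) ≤ τ := by
    intro a b hab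
    by_cases he : a = b
    · rw [he, hμ.diag]
      exact hτ
    · refine hn a b he (fun h1 => hab ?_) (fun h1 => hab ?_)
      · left
        rw [h1, hφ]
      · right
        rw [h1, hφ]
  have m1 : ∀ a b : Fin l, μ (h a) (h b) ≤ Y := by
    intro a b
    by_cases hab : nrs_lk φ a b
    · rcases hlk a b hab with h1 | h1
      · rw [h1]
        exact hr a
      · rw [h1, hμ.symm]
        exact hr b
    · exact (m2 a b hab).trans hτY
  have ms : ∀ a b : Fin l, μ (h a) (h b) = μ (h b) (h a) := fun a b => hμ.symm _ _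
  have hYl : Y ^ l = Y * Y ^ (l - 1) := by
    rw [← pow_succ']
    congr 1
    omega
  have hY1 : Y ^ (l - 1) = Y * Y ^ (l - 2) := by
    rw [← pow_succ']
    congr 1
    omega
  have hP1 : 0 ≤ Y ^ (l - 1) := pow_nonneg hY _
  have hP2 : 0 ≤ Y ^ (l - 2) := pow_nonneg hY _
  have hPl : 0 ≤ Y ^ l := pow_nonneg hY _
  have hτP : 0 ≤ τ * Y ^ (l - 1) := mul_nonneg hτ hP1
  have hl1 : (3 : ℝ) ≤ l := by exact_mod_cast hl
  -- the value of a good pair
  have hG : Y ^ (l - 2) * (2 * Y + τ) ^ 2 ≤ 4 * Y ^ l + 5 * (τ * Y ^ (l - 1)) := by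
    have e1 : Y ^ (l - 2) * (2 * Y + τ) ^ 2 =
        4 * Y ^ l + 4 * (τ * Y ^ (l - 1)) + τ * (τ * Y ^ (l - 2)) := by
      rw [hYl, hY1]; ring
    have e2 : τ * (τ * Y ^ (l - 2)) ≤ τ * Y ^ (l - 1) := by
      rw [hY1]
      exact mul_le_mul_of_nonneg_left (mul_le_mul_of_nonneg_right hτY hP2) hτ
    linarith
  have hG0 : 0 ≤ Y ^ (l - 2) * (2 * Y + τ) ^ 2 := by positivity
  have hcast : ((l - 1 : ℕ) : ℝ) = (l : ℝ) - 1 := by
    rw [Nat.cast_sub (by omega)]
    simp
  refine ⟨fun i => ?_, fun i j hij => ?_, fun i j hij h1 h2 => ?_⟩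
  · rw [nrs_En hμ h hz hdz l i]
    refine (nrs_core_En φ m0 m1 m2 hτ hτY (fun a => hd0 (h a)) hd1 (by omega) i).trans ?_
    have e1 : 2 * (Y ^ (l - 1) * (2 * Y + τ)) = 4 * Y ^ l + 2 * (τ * Y ^ (l - 1)) := by
      rw [hYl]; ring
    have e2 : 0 ≤ (5 * l + 9 * N2) * (τ * Y ^ (l - 1)) := by positivity
    have e3 : N1 * (3 * (τ * Y ^ (l - 1))) = 3 * N1 * (τ * Y ^ (l - 1)) := by ring
    have e4 : (2 + 3 * N1 + 5 * l + 9 * N2) * τ * Y ^ (l - 1) =
        2 * (τ * Y ^ (l - 1)) + 3 * N1 * (τ * Y ^ (l - 1)) +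
        (5 * l + 9 * N2) * (τ * Y ^ (l - 1)) := by ring
    rw [e1, e4, ← hN1, e3]
    linarith
  · rw [nrs_So hμ h hz hdz l i j]
    refine (sprb_core_So φ ms m0 m1 m2 hτ hτY (fun a => hd0 (h a)) hd1 hl i j).trans ?_
    have e0 : (∑ k ∈ range (l - 1), ∑ s : Bool, ∑ s' : Bool,
        if sprb_D φ i j k s s' then Y ^ (l - 2) * (2 * Y + τ) ^ 2 else 0) ≤
        ((l - 1 : ℕ) : ℝ) * (Y ^ (l - 2) * (2 * Y + τ) ^ 2) := by
      rcases hij with hij | hij
      · exact sprb_count_adj (l := l) hG0 (sprb_D φ i j) _ _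
          (fun k s s' hk hD => sprb_dir_fwd φ (by rw [hij, hφ]) hk hD)
      · exact sprb_count_adj (l := l) hG0 (sprb_D φ i j) _ _
          (fun k s s' hk hD => sprb_dir_bwd φ (by rw [hij, hφ]) hk hD)
    rw [hcast] at e0
    have e1 : ((l : ℝ) - 1) * (Y ^ (l - 2) * (2 * Y + τ) ^ 2) ≤
        ((l : ℝ) - 1) * (4 * Y ^ l + 5 * (τ * Y ^ (l - 1))) :=
      mul_le_mul_of_nonneg_left hG (by linarith)
    have e4 : (2 + 3 * N1 + 5 * l + 9 * N2) * τ * Y ^ (l - 1) =
        5 * l * (τ * Y ^ (l - 1)) + N2 * (9 * (τ * Y ^ (l - 1))) +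
        (2 + 3 * N1) * (τ * Y ^ (l - 1)) := by ring
    have e5 : 0 ≤ (2 + 3 * N1) * (τ * Y ^ (l - 1)) := by positivity
    rw [e4]
    linarith
  · rw [nrs_So hμ h hz hdz l i j]
    refine (sprb_core_So φ ms m0 m1 m2 hτ hτY (fun a => hd0 (h a)) hd1 hl i j).trans ?_
    have e0 := sprb_count_chord (l := l) hG0 (sprb_D φ i j)
      (fun s => (nrs_s l s * (φ j - φ i)).val)
      (fun k s s' hk hD => sprb_two s s' (φ i) (φ j) (p := k + 1) (q := l - 1 - k) (by omega)
        (by omega) (nrs_disj φ hD.1) (by omega)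
        (fun hh => h2 (φ.injective (by rw [hφ, hh]))) (fun hh => h1 (φ.injective (by rw [hφ, hh]))))
    have e1 : 2 * (Y ^ (l - 2) * (2 * Y + τ) ^ 2) ≤
        2 * (4 * Y ^ l + 5 * (τ * Y ^ (l - 1))) := mul_le_mul_of_nonneg_left hG (by positivity)
    have e4 : (2 + 3 * N1 + 5 * l + 9 * N2) * τ * Y ^ (l - 1) =
        5 * l * (τ * Y ^ (l - 1)) + N2 * (9 * (τ * Y ^ (l - 1))) +
        (2 + 3 * N1) * (τ * Y ^ (l - 1)) := by ring
    have e5 : 0 ≤ (2 + 3 * N1) * (τ * Y ^ (l - 1)) := by positivity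
    have e6 : 10 * (τ * Y ^ (l - 1)) ≤ 5 * l * (τ * Y ^ (l - 1)) :=
      mul_le_mul_of_nonneg_right (by linarith) hτP
    rw [e4]
    linarith

/-- The functional near a ring, one bound for all pairs and one for chords. -/
theorem sp_ring_bounds {l : ℕ} (hl : 3 ≤ l) : ∃ C : ℝ, 0 ≤ C ∧ ∀ (V : Type) [Fintype V]
    (h : Fin l ↪ V) (μ : V → V → ℝ) (d : V → ℝ) (Y τ : ℝ), Wt μ → 0 ≤ τ → τ ≤ Y →
    (∀ j, μ (h j) (h (finRotate l j)) ≤ Y) →
    (∀ i j, i ≠ j → j ≠ finRotate l i → i ≠ finRotate l j → μ (h i) (h j) ≤ τ) →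
    (∀ a b, (∀ i, h i ≠ a) → μ a b = 0) → (∀ a, 0 ≤ d a) → (∀ i, d (h i) ≤ 2 * Y + τ) →
    (∀ a, (∀ i, h i ≠ a) → d a = 0) →
    (∀ i, En μ d l (h i) ≤ 4 * Y ^ l + C * τ * Y ^ (l - 1)) ∧
    (∀ i j, i ≠ j → So μ d l (h i) (h j) ≤ 4 * (l - 1) * Y ^ l + C * τ * Y ^ (l - 1)) ∧
    (∀ i j, i ≠ j → j ≠ finRotate l i → i ≠ finRotate l j →
      So μ d l (h i) (h j) ≤ 8 * Y ^ l + C * τ * Y ^ (l - 1)) := by
  obtain ⟨C, hC0, hC⟩ := sprb_bounds hl
  refine ⟨C, hC0, ?_⟩
  intro V _ h μ d Y τ hμ hτ hτY hr hn hz hd0 hd1 hdz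
  obtain ⟨k1, k2, k3⟩ := hC V h μ d Y τ hμ hτ hτY hr hn hz hd0 hd1 hdz
  refine ⟨k1, fun i j hij => ?_, k3⟩
  by_cases h1 : j = finRotate l i
  · exact k2 i j (Or.inl h1)
  · by_cases h2 : i = finRotate l j
    · exact k2 i j (Or.inr h2)
    · refine (k3 i j hij h1 h2).trans ?_
      have hl1 : (3 : ℝ) ≤ l := by exact_mod_cast hl
      have hPl : 0 ≤ Y ^ l := pow_nonneg (hτ.trans hτY) _
      have : 8 * Y ^ l ≤ 4 * (l - 1) * Y ^ l := mul_le_mul_of_nonneg_right (by linarith) hPl
      linarith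

end

end Pool.Agent.Lib.MP_009d13_co.SP
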