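import Pool.Agent.Lib.MP_009d13_co.OD.RD
import Pool.Agent.Lib.MP_009d13_co.SP.FOT
import Pool.Agent.Lib.MP_009d13_co.SP.BND
import Pool.Agent.Lib.MP_009d13_co.SP.BDW
import Pool.Agent.Lib.MP_009d13_co.SP.RST

/-!
# SP.STF: `ST l` from `Cert l`
-/

set_option autoImplicit false

namespace Pool.Agent.Lib.MP_009d13_co.SP

open Finset Classical
open Pool.Agent.Lib.MP_009d13_co.OD

noncomputable section

variable {V : Type} [Fintype V]

omit [Fintype V] in
theorem stf_hd_le {g : V → ℝ} {c : ℝ} (h : ∀ a, g a ≤ c) {L : List V} (hL : 0 < L.length) :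
    hd g L ≤ c := by
  cases L with
  | nil => simp at hL
  | cons a t => exact h a

/-- `Wo ≤ l² Σ pw`. -/
theorem stf_wo_le {μ : V → V → ℝ} (h : Wt μ) {l : ℕ} (hl : 1 ≤ l) (hm : ms μ ∅ = l) :
    Wo μ (dg μ) l ≤ (l : ℝ) ^ 2 * ∑ L ∈ NL (∅ : Finset V) l, pw μ L := by
  have hl0 : (0 : ℝ) ≤ l := Nat.cast_nonneg l
  have hd0 : ∀ a, 0 ≤ dg μ a := fun a => sum_nonneg fun b _ => h.nonneg a b
  have hd1 : ∀ a, dg μ a ≤ l := fun a => by
    rw [← hm, dg_eq]
    exact un_le_ms h (notMem_empty a)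
  unfold Wo
  rw [mul_sum]
  refine sum_le_sum fun L hL => ?_
  have hlen : 0 < L.length := by
    rw [(mem_NL.1 hL).1]
    omega
  have h1 := stf_hd_le hd1 hlen
  have h2 : ls (dg μ) L ≤ l := stf_hd_le hd1 (by rw [List.length_reverse]; exact hlen)
  have h3 := hd_nonneg hd0 L
  have h4 := ls_nonneg hd0 L
  have h5 := pw_nonneg μ h.nonneg L
  calc hd (dg μ) L * pw μ L * ls (dg μ) L ≤ l * pw μ L * l := by
        refine mul_le_mul (mul_le_mul_of_nonneg_right h1 h5) h2 h4 (mul_nonneg hl0 h5)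
    _ = (l : ℝ) ^ 2 * pw μ L := by ring

/-- The functional is at most the paths with `l` hubs plus the bad tuples. -/
theorem stf_fF_le {μ : V → V → ℝ} (h : Wt μ) {l : ℕ} (hl : 1 ≤ l) :
    TS (l + 1) (fF l) μ ≤ 2 * (l + 1) * Wo μ (dg μ) l + (l + 2) * BAD l μ := by
  have h1 : TS (l + 1) (fF l) μ ≤ TS (l + 1) (fun φ => 2 * (l + 1) * fW l φ +
      (l + 2) * (if l + 1 ≤ (vs φ).card then 1 else 0)) μ := by
    refine ts_mono_f h fun φ => ?_
    have h2 := ac_le_bad l φ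
    unfold fF
    linarith
  have h3 : TS (l + 1) (fun φ => 2 * (l + 1) * fW l φ +
      (l + 2) * (if l + 1 ≤ (vs φ).card then 1 else 0)) μ =
      2 * (l + 1) * TS (l + 1) (fW l) μ + (l + 2) * BAD l μ := by
    unfold BAD TS
    rw [mul_sum, mul_sum, ← sum_add_distrib]
    refine sum_congr rfl fun φ _ => ?_
    ring
  rw [h3, ts_W h hl] at h1
  exact h1

theorem stf_nl_sum {μ : V → V → ℝ} (h : Wt μ) {l : ℕ} (hl : 2 ≤ l) {η B : ℝ}
    (hB : BAD l μ ≤ B) (hall : ∀ L ∈ NL (∅ : Finset V) l,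
      η ≤ (2 * ms μ ∅) ^ 2 - (∑ a ∈ L.toFinset, ∑ b ∈ L.toFinset, μ a b) ^ 2) :
    η * ∑ L ∈ NL (∅ : Finset V) l, pw μ L ≤ B := by
  refine le_trans ?_ ((paths_le_bad h hl).trans hB)
  rw [mul_sum]
  refine sum_le_sum fun L hL => ?_
  rw [mul_comm η]
  exact mul_le_mul_of_nonneg_left (hall L hL) (pw_nonneg μ h.nonneg L)

theorem stf_pow {x m : ℝ} (hx : 0 < x) (hm0 : 0 ≤ m) (n : ℕ) :
    (2 * x) ^ (n + 1) - (2 * m) ^ (n + 1) ≤ (2 * x) ^ (n + 1) * ((n + 1) * ((x - m) / x)) := by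
  have h1 : -2 ≤ (m - x) / x := by
    rw [le_div_iff₀ hx]
    linarith
  have h2 := one_add_mul_le_pow h1 (n + 1)
  have h3 : 1 + (m - x) / x = m / x := by
    field_simp
    ring
  rw [h3] at h2
  have h4 : (2 * m) ^ (n + 1) = (2 * x) ^ (n + 1) * (m / x) ^ (n + 1) := by
    rw [← mul_pow]
    congr 1
    field_simp
  have h5 : 0 ≤ (2 * x) ^ (n + 1) := by positivity
  have h6 := mul_le_mul_of_nonneg_left h2 h5
  rw [h4]
  push_cast at h6
  have h7 : (m - x) / x = -((x - m) / x) := by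
    rw [← neg_div]
    congr 1
    ring
  rw [h7] at h6
  nlinarith

theorem st_of_cert {l : ℕ} (hl : 3 ≤ l) (hcert : Cert l) : ST l := by
  intro δ hδ
  obtain ⟨lam0, hlam0, hlam01, hfew⟩ := few_hubs hl (half_pos hδ)
  obtain ⟨c, hc, hcc⟩ := hcert
  have hlR : (3 : ℝ) ≤ l := by exact_mod_cast hl
  have hl0 : (0 : ℝ) < l := by linarith
  obtain ⟨M, hM⟩ : ∃ M : ℝ, M = (3 * l + 4) * ((2 * l) ^ (l + 1) * ((l + 1) / l)) := ⟨_, rfl⟩
  have hM0 : 0 < M := by
    rw [hM]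
    positivity
  obtain ⟨η, hη⟩ : ∃ η : ℝ, η = min (δ / 2) (min ((l : ℝ) ^ 2) (lam0 * δ / (8 * M))) := ⟨_, rfl⟩
  have hη0 : 0 < η := by
    rw [hη]
    exact lt_min (by linarith) (lt_min (by positivity) (by positivity))
  have hη1 : η ≤ δ / 2 := hη ▸ min_le_left _ _
  have hη2 : η ≤ (l : ℝ) ^ 2 := hη ▸ (min_le_right _ _).trans (min_le_left _ _)
  have hη3 : η * (8 * M) ≤ lam0 * δ := by
    have : η ≤ lam0 * δ / (8 * M) := hη ▸ (min_le_right _ _).trans (min_le_right _ _)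
    rwa [le_div_iff₀ (by positivity)] at this
  obtain ⟨γ, hγ⟩ : ∃ γ : ℝ, γ = min (4 * (l : ℝ) * (l + 1)) (min (c * (4 * l * (l + 1)) / (l + 2))
      (min (2 * c * η / l) (lam0 * δ / 8))) := ⟨_, rfl⟩
  have hγ0 : 0 < γ := by
    rw [hγ]
    exact lt_min (by positivity) (lt_min (by positivity) (lt_min (by positivity) (by positivity)))
  have hγ1 : γ ≤ 4 * l * (l + 1) := hγ ▸ min_le_left _ _
  have hγ2 : γ * (l + 2) ≤ c * (4 * l * (l + 1)) := by
    have : γ ≤ c * (4 * l * (l + 1)) / (l + 2) :=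
      hγ ▸ (min_le_right _ _).trans (min_le_left _ _)
    rwa [le_div_iff₀ (by positivity)] at this
  have hγ3 : γ * l ≤ 2 * c * η := by
    have : γ ≤ 2 * c * η / l :=
      hγ ▸ (min_le_right _ _).trans ((min_le_right _ _).trans (min_le_left _ _))
    rwa [le_div_iff₀ hl0] at this
  have hγ4 : γ ≤ lam0 * δ / 8 :=
    hγ ▸ (min_le_right _ _).trans ((min_le_right _ _).trans (min_le_right _ _))
  refine ⟨min 1 (γ / (3 * l)), lt_min one_pos (by positivity), min_le_left _ _, ?_⟩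
  intro V _ μ e h he hm
  have hF0 := fo_le_e1 h he l
  have hts := fo_ts h (by omega : 1 ≤ l)
  have hb := hcc V μ h
  rw [hm, div_self hl0.ne', one_pow, mul_one, hts] at hb
  have hBAD0 : 0 ≤ BAD l μ := by
    unfold BAD TS
    refine sum_nonneg fun φ _ => mul_nonneg ?_ (pt_nonneg h φ)
    dsimp only
    split_ifs <;> norm_num
  have hcB : 0 ≤ c * BAD l μ := mul_nonneg hc.le hBAD0
  rcases le_or_gt (ze l μ) δ with hz | hz
  · rw [max_eq_left (by linarith), mul_zero]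
    linarith
  have hze := ze_le h hm
  -- the main claim
  suffices hmain : Fo μ e1 l ≤ 16 * l * (l + 1) - γ by
    have h1 : max 0 (ze l μ - δ) ≤ 3 * l := max_le (by positivity) (by linarith)
    have h2 : min 1 (γ / (3 * l)) * max 0 (ze l μ - δ) ≤ γ / (3 * l) * (3 * l) :=
      mul_le_mul (min_le_right _ _) h1 (le_max_left _ _) (by positivity)
    rw [div_mul_cancel₀ _ (by positivity)] at h2
    linarith
  by_contra hcon
  push Not at hcon
  have hBc : c * BAD l μ ≤ γ := by linarith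
  have hBAD : BAD l μ ≤ γ / c := by
    rw [le_div_iff₀ hc]
    linarith
  -- many paths with `l` hubs
  have hW : 4 * l ≤ Wo μ (dg μ) l := by
    have h1 := stf_fF_le h (by omega : 1 ≤ l)
    rw [hts] at h1
    have h2 : (l + 2) * BAD l μ ≤ 4 * l * (l + 1) := by
      have h3 : c * ((l + 2) * BAD l μ) ≤ c * (4 * l * (l + 1)) := by
        calc c * ((l + 2) * BAD l μ) = (c * BAD l μ) * (l + 2) := by ring
          _ ≤ γ * (l + 2) := mul_le_mul_of_nonneg_right hBc (by positivity)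
          _ ≤ _ := hγ2
      exact le_of_mul_le_mul_left h3 hc
    have h4 : (2 * ((l : ℝ) + 1)) * (4 * l) ≤ (2 * ((l : ℝ) + 1)) * Wo μ (dg μ) l := by
      nlinarith
    exact le_of_mul_le_mul_left h4 (by positivity)
  have hP : 4 ≤ l * ∑ L ∈ NL (∅ : Finset V) l, pw μ L := by
    have h1 := stf_wo_le h (by omega : 1 ≤ l) hm
    have h2 : (l : ℝ) * 4 ≤ l * (l * ∑ L ∈ NL (∅ : Finset V) l, pw μ L) := by
      nlinarith
    exact le_of_mul_le_mul_left h2 hl0
  obtain ⟨L, hL, hLη⟩ : ∃ L ∈ NL (∅ : Finset V) l,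
      (2 * ms μ ∅) ^ 2 - (∑ a ∈ L.toFinset, ∑ b ∈ L.toFinset, μ a b) ^ 2 < η := by
    by_contra hno
    push Not at hno
    have h1 := stf_nl_sum h (by omega : 2 ≤ l) hBAD hno
    rw [le_div_iff₀ hc] at h1
    have h2 : η * 4 * c ≤ l * (η * (∑ L ∈ NL (∅ : Finset V) l, pw μ L) * c) := by
      have := mul_le_mul_of_nonneg_left hP (mul_pos hη0 hc).le
      nlinarith
    have h3 : l * (η * (∑ L ∈ NL (∅ : Finset V) l, pw μ L) * c) ≤ l * γ :=
      mul_le_mul_of_nonneg_left h1 hl0.le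
    have h4 : 0 < c * η := mul_pos hc hη0
    nlinarith
  have hScard : L.toFinset.card ≤ l := by
    have := L.toFinset_card_le
    rw [(mem_NL.1 hL).1] at this
    exact this
  have hmS := rr_ms L.toFinset μ
  have hSle := rr_le L.toFinset h
  have hSwt := rr_wt L.toFinset h
  have hm0le : ms (rr L.toFinset μ) ∅ ≤ l := by
    rw [← hm]
    unfold ms
    refine div_le_div_of_nonneg_right ?_ (by norm_num)
    exact sum_le_sum fun a _ => sum_le_sum fun b _ => hSle a b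
  have hm00 : 0 ≤ ms (rr L.toFinset μ) ∅ := ms_nonneg hSwt ∅
  have hze1 : 0 < ms (rr L.toFinset μ) ∅ → ze l μ ≤ ze l (fun a b =>
      l / ms (rr L.toFinset μ) ∅ * rr L.toFinset μ a b) +
      l * (2 * (l - ms (rr L.toFinset μ) ∅)) :=
    fun h0 => rr_ze L.toFinset h (by omega : 1 ≤ l) hm h0
  have hsq : (2 * ms μ ∅) ^ 2 - (2 * ms (rr L.toFinset μ) ∅) ^ 2 < η := by
    rw [hmS]
    have h1 : 2 * ((∑ a ∈ L.toFinset, ∑ b ∈ L.toFinset, μ a b) / 2) =
        ∑ a ∈ L.toFinset, ∑ b ∈ L.toFinset, μ a b := by ring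
    rw [h1]
    exact hLη
  obtain ⟨m0, hm0⟩ : ∃ m0 : ℝ, m0 = ms (rr L.toFinset μ) ∅ := ⟨_, rfl⟩
  rw [← hm0] at hm0le hm00 hze1 hsq
  rw [hm] at hsq
  have hd1 : 4 * l * (l - m0) < η := by
    have h1 : 0 ≤ (l - m0) * m0 := mul_nonneg (by linarith) hm00
    nlinarith
  have hm0pos : 0 < m0 := by
    by_contra hneg
    push Not at hneg
    have h1 : m0 = 0 := le_antisymm hneg hm00
    rw [h1] at hd1
    nlinarith
  -- the scaled weight
  have hcp : 0 ≤ l / m0 := by positivity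
  have hWt' : Wt (fun a b => l / m0 * rr L.toFinset μ a b) := wt_smul hSwt hcp
  have hms' : ms (fun a b => l / m0 * rr L.toFinset μ a b) ∅ = l := by
    rw [ms_smul, ← hm0]
    field_simp
  have hub := rr_hubs L.toFinset h (l / m0)
  have hfb := hfew V (fun a b => l / m0 * rr L.toFinset μ a b) e1 hWt' hms' (hub.trans hScard)
  have hze2 : 3 * δ / 4 ≤ ze l (fun a b => l / m0 * rr L.toFinset μ a b) := by
    have h1 := hze1 hm0pos
    have h2 : l * (2 * (l - m0)) ≤ δ / 4 := by linarith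
    linarith
  have hFo' : Fo (fun a b => l / m0 * rr L.toFinset μ a b) e1 l ≤
      16 * l * (l + 1) - lam0 * (δ / 4) := by
    have h1 : δ / 4 ≤ max 0 (ze l (fun a b => l / m0 * rr L.toFinset μ a b) - δ / 2) :=
      le_max_of_le_right (by linarith)
    have h2 := mul_le_mul_of_nonneg_left h1 hlam0.le
    linarith
  have hFor : Fo (rr L.toFinset μ) e1 l ≤ 16 * l * (l + 1) - lam0 * (δ / 4) := by
    have h1 := fo_smul (rr L.toFinset μ) e1 l (by omega : 1 ≤ l) (l / m0)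
    rw [h1] at hFo'
    have h2 : 1 ≤ (l / m0) ^ (l + 1) := one_le_pow₀ (by
      rw [le_div_iff₀ hm0pos]
      linarith)
    have h3 : 0 ≤ Fo (rr L.toFinset μ) e1 l := by
      rw [← fo_ts hSwt (by omega : 1 ≤ l)]
      unfold TS
      exact sum_nonneg fun φ _ => mul_nonneg (fF_nonneg l φ) (pt_nonneg hSwt φ)
    nlinarith
  -- the difference
  have hlip := ts_lip (N := l + 1) h hSwt hSle (fF_nonneg l) (fF_le l)
  rw [hts, fo_ts hSwt (by omega : 1 ≤ l), hm, ← hm0] at hlip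
  have hpow := stf_pow hl0 hm00 l
  have hdiff : (3 * l + 4) * ((2 * l) ^ (l + 1) - (2 * m0) ^ (l + 1)) ≤ lam0 * δ / 8 := by
    have h1 : (3 * (l : ℝ) + 4) * ((2 * l) ^ (l + 1) - (2 * m0) ^ (l + 1)) ≤
        (3 * l + 4) * ((2 * l) ^ (l + 1) * ((l + 1) * ((l - m0) / l))) :=
      mul_le_mul_of_nonneg_left hpow (by positivity)
    have h2 : (3 * (l : ℝ) + 4) * ((2 * l) ^ (l + 1) * ((l + 1) * ((l - m0) / l))) =
        M * (l - m0) := by
      rw [hM]
      ring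
    have h3 : M * (l - m0) ≤ M * η := by
      refine mul_le_mul_of_nonneg_left ?_ hM0.le
      nlinarith
    linarith
  linarith

end

end Pool.Agent.Lib.MP_009d13_co.SP
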