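import Pool.Agent.Lib.MP_009d13_co.SP.STF
import Pool.Agent.Lib.MP_009d13_co.SP.SPM
import Pool.Agent.Lib.MP_009d13_co.SP.Asm
import Pool.Agent.Lib.MP_009d13_co.OL.OL11

/-!
# SP.Two: both bounds from `Cert l`
-/

set_option autoImplicit false

namespace Pool.Agent.Lib.MP_009d13_co.SP

open Pool.Agent.Lib.MP_009d13_co

/-- The upper bound from a certificate. -/
theorem upper_of_cert {l : ℕ} (hl : 3 ≤ l) (hc : Cert l) : ∃ K : ℝ, ∀ (V : Type) [Fintype V]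
    (G : SimpleGraph V), P5.IsPlanar G →
    (G.copyCount (SimpleGraph.pathGraph (2 * l + 2)) : ℝ)
      ≤ 8 * l * (l + 1) * ((Fintype.card V : ℝ) / l) ^ (l + 1)
        + K * (Fintype.card V : ℝ) ^ l :=
  upper hl (st_of_cert hl hc) (sp_near hl)

/-- Both bounds for `sSup` from an upper bound of this form. -/
theorem two_of_upper {l : ℕ} (hl3 : 3 ≤ l) (hup0 : ∃ K : ℝ, ∀ (V : Type) [Fintype V]
    (G : SimpleGraph V), P5.IsPlanar G →
    (G.copyCount (SimpleGraph.pathGraph (2 * l + 2)) : ℝ)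
      ≤ 8 * l * (l + 1) * ((Fintype.card V : ℝ) / l) ^ (l + 1)
        + K * (Fintype.card V : ℝ) ^ l) : ∃ C : ℝ, ∀ n : ℕ,
    |((sSup {m : ℕ | ∃ G : SimpleGraph (Fin n), P5.IsPlanar G ∧
        G.copyCount (SimpleGraph.pathGraph (2 * l + 1 + 1)) = m} : ℕ) : ℝ)
      - 8 * l * (l + 1) * ((n : ℝ) / l) ^ (l + 1)| ≤ C * (n : ℝ) ^ l := by
  have hl0 : (0 : ℝ) < l := by
    have : 0 < l := by omega
    exact_mod_cast this
  obtain ⟨K, hK⟩ := hup0
  obtain ⟨K', hK'⟩ := OL.lower hl3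
  refine ⟨max (max K K') (8 * l * (l + 1)), fun n => ?_⟩
  set M : ℝ := max (max K K') (8 * l * (l + 1)) with hM
  set f : ℕ := sSup {m : ℕ | ∃ G : SimpleGraph (Fin n), P5.IsPlanar G ∧
    G.copyCount (SimpleGraph.pathGraph (2 * l + 1 + 1)) = m} with hf
  have hn : (0 : ℝ) ≤ (n : ℝ) ^ l := by positivity
  have hMK : K * (n : ℝ) ^ l ≤ M * (n : ℝ) ^ l :=
    mul_le_mul_of_nonneg_right ((le_max_left _ _).trans (le_max_left _ _)) hn
  have hMK' : K' * (n : ℝ) ^ l ≤ M * (n : ℝ) ^ l :=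
    mul_le_mul_of_nonneg_right ((le_max_right _ _).trans (le_max_left _ _)) hn
  have hMl : (8 * l * (l + 1) : ℝ) * (n : ℝ) ^ l ≤ M * (n : ℝ) ^ l :=
    mul_le_mul_of_nonneg_right (le_max_right _ _) hn
  have hM0 : 0 ≤ M := le_trans (by positivity) (le_max_right (max K K') (8 * l * (l + 1) : ℝ))
  have hT : (0 : ℝ) ≤ 8 * l * (l + 1) * ((n : ℝ) / l) ^ (l + 1) := by positivity
  have hub : ∀ m ∈ {m : ℕ | ∃ G : SimpleGraph (Fin n), P5.IsPlanar G ∧
      G.copyCount (SimpleGraph.pathGraph (2 * l + 1 + 1)) = m},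
      m ≤ ⌊8 * l * (l + 1) * ((n : ℝ) / l) ^ (l + 1) + M * (n : ℝ) ^ l⌋₊ := by
    rintro m ⟨G, hG, rfl⟩
    apply Nat.le_floor
    have h1 := hK (Fin n) G hG
    rw [Fintype.card_fin] at h1
    linarith
  have hup : (f : ℝ) ≤ 8 * l * (l + 1) * ((n : ℝ) / l) ^ (l + 1)
      + M * (n : ℝ) ^ l := by
    have h2 : f ≤ ⌊8 * l * (l + 1) * ((n : ℝ) / l) ^ (l + 1)
        + M * (n : ℝ) ^ l⌋₊ := csSup_le' (fun m hm => hub m hm)
    exact (Nat.cast_le.2 h2).trans (Nat.floor_le (by positivity))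
  have hlow : 8 * l * (l + 1) * ((n : ℝ) / l) ^ (l + 1) - M * (n : ℝ) ^ l
      ≤ (f : ℝ) := by
    by_cases hnl : l < n
    · obtain ⟨G, hG, h1⟩ := hK' n hnl
      have h2 : G.copyCount (SimpleGraph.pathGraph (2 * l + 1 + 1)) ≤ f :=
        le_csSup ⟨_, fun m hm => hub m hm⟩ ⟨G, hG, rfl⟩
      have h3 : (G.copyCount (SimpleGraph.pathGraph (2 * l + 2)) : ℝ) ≤ (f : ℝ) := by
        exact_mod_cast h2
      linarith
    · have h1 : ((n : ℝ) / l) ^ (l + 1) ≤ (n : ℝ) ^ l := by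
        have hnl' : (n : ℝ) ≤ l := by
          have : n ≤ l := by omega
          exact_mod_cast this
        have h2 : (n : ℝ) / l ≤ 1 := (div_le_one hl0).2 hnl'
        have h3 : (0 : ℝ) ≤ (n : ℝ) / l := by positivity
        have h4 : (n : ℝ) / l ≤ n := by
          apply div_le_self (by positivity)
          have : 1 ≤ l := by omega
          exact_mod_cast this
        calc ((n : ℝ) / l) ^ (l + 1) = ((n : ℝ) / l) ^ l * ((n : ℝ) / l) := pow_succ _ _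
          _ ≤ ((n : ℝ) / l) ^ l * 1 := by gcongr
          _ ≤ (n : ℝ) ^ l := by rw [mul_one]; gcongr
      have h2 : (8 * l * (l + 1) : ℝ) * ((n : ℝ) / l) ^ (l + 1) ≤ M * (n : ℝ) ^ l :=
        le_trans (mul_le_mul_of_nonneg_left h1 (by positivity)) hMl
      have h3 : (0 : ℝ) ≤ (f : ℝ) := Nat.cast_nonneg _
      linarith
  rw [abs_le]
  constructor <;> linarith

/-- Both bounds from a certificate. -/
theorem two_of_cert {l : ℕ} (hl3 : 3 ≤ l) (hc : Cert l) : ∃ C : ℝ, ∀ n : ℕ,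
    |((sSup {m : ℕ | ∃ G : SimpleGraph (Fin n), P5.IsPlanar G ∧
        G.copyCount (SimpleGraph.pathGraph (2 * l + 1 + 1)) = m} : ℕ) : ℝ)
      - 8 * l * (l + 1) * ((n : ℝ) / l) ^ (l + 1)| ≤ C * (n : ℝ) ^ l :=
  two_of_upper hl3 (upper_of_cert hl3 hc)

end Pool.Agent.Lib.MP_009d13_co.SP
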