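import Pool.Agent.Lib.MP_009d13_co.P5.FIN
import Pool.Agent.Lib.MP_009d13_co.P5.COPY2
import Pool.Agent.Lib.MP_009d13_co.P5.LOW1
import Pool.Agent.Lib.MP_009d13_co.P5.LOW2

/-!
# SP.Two2: both bounds for `l = 2`
-/

set_option autoImplicit false

namespace Pool.Agent.Lib.MP_009d13_co.SP

open Pool.Agent.Lib.MP_009d13_co Pool.Agent.Lib.MP_009d13_co.P5

/-- The case `l = 2`. -/
theorem two_two : ∃ C : ℝ, ∀ n : ℕ,
    |((sSup {m : ℕ | ∃ G : SimpleGraph (Fin n), P5.IsPlanar G ∧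
        G.copyCount (SimpleGraph.pathGraph (2 * 2 + 1 + 1)) = m} : ℕ) : ℝ)
      - 8 * (2 : ℕ) * ((2 : ℕ) + 1) * ((n : ℝ) / (2 : ℕ)) ^ (2 + 1)| ≤ C * (n : ℝ) ^ 2 := by
  obtain ⟨K, hK⟩ := P5.upper
  refine ⟨max K 72, ?_⟩
  intro n
  set f : ℕ := sSup {m : ℕ | ∃ G : SimpleGraph (Fin n), P5.IsPlanar G ∧
    G.copyCount (SimpleGraph.pathGraph (2 * 2 + 1 + 1)) = m} with hf
  have h6 : (8 * (2 : ℕ) * ((2 : ℕ) + 1) * ((n : ℝ) / (2 : ℕ)) ^ (2 + 1)) = 6 * (n : ℝ) ^ 3 := by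
    push_cast
    ring
  rw [h6]
  have hub : ∀ m ∈ {m : ℕ | ∃ G : SimpleGraph (Fin n), P5.IsPlanar G ∧
      G.copyCount (SimpleGraph.pathGraph (2 * 2 + 1 + 1)) = m},
      m ≤ ⌊6 * (n : ℝ) ^ 3 + K * (n : ℝ) ^ 2⌋₊ := by
    rintro m ⟨G, hG, rfl⟩
    apply Nat.le_floor
    have h1 := hK G hG
    rw [Fintype.card_fin] at h1
    exact h1
  have hlow : 6 * (n : ℝ) ^ 3 - 72 * (n : ℝ) ^ 2 ≤ (f : ℝ) := by
    have h1 : (dfan n).copyCount (SimpleGraph.pathGraph (2 * 2 + 1 + 1)) ≤ f :=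
      le_csSup ⟨_, fun m hm => hub m hm⟩ ⟨dfan n, dfan_planar n, rfl⟩
    have h2 := T6_dfan n
    have h3 := le_copy (dfan n)
    have h4 : 12 * n ^ 3 ≤ 2 * f + 144 * n ^ 2 := by
      have h5 : (dfan n).copyCount (SimpleGraph.pathGraph 6) ≤ f := h1
      omega
    have h4' : 12 * (n : ℝ) ^ 3 ≤ 2 * (f : ℝ) + 144 * (n : ℝ) ^ 2 := by
      exact_mod_cast h4
    linarith
  have hup : (f : ℝ) ≤ 6 * (n : ℝ) ^ 3 + K * (n : ℝ) ^ 2 := by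
    have h0 : (0 : ℝ) ≤ 6 * (n : ℝ) ^ 3 + K * (n : ℝ) ^ 2 := by
      have h1 := hK (dfan n) (dfan_planar n)
      rw [Fintype.card_fin] at h1
      exact (Nat.cast_nonneg _).trans h1
    have h2 : f ≤ ⌊6 * (n : ℝ) ^ 3 + K * (n : ℝ) ^ 2⌋₊ :=
      csSup_le' (fun m hm => hub m hm)
    exact (Nat.cast_le.2 h2).trans (Nat.floor_le h0)
  have hn : (0 : ℝ) ≤ (n : ℝ) ^ 2 := by positivity
  rw [abs_le]
  constructor
  · have h7 : 72 * (n : ℝ) ^ 2 ≤ max K 72 * (n : ℝ) ^ 2 :=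
      mul_le_mul_of_nonneg_right (le_max_right _ _) hn
    linarith
  · have h7 : K * (n : ℝ) ^ 2 ≤ max K 72 * (n : ℝ) ^ 2 :=
      mul_le_mul_of_nonneg_right (le_max_left _ _) hn
    linarith

end Pool.Agent.Lib.MP_009d13_co.SP
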